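import Mathlib
set_option autoImplicit false

/-!
# The combinatorial surface: definitions

The parameters are `h` (even, at least `4`), `L` and `K` (even, at least `2`). There are column bands
`1, …, L` and row bands `1, …, K`; an odd band has `h` members, an even band has `h - 2`.
-/

namespace Pool.Agent.Helper40.Surf

/-- vertices: columns `A`, rows `B`, centres `C`, extra vertices `E`, apexes `X`, `Y` -/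
inductive V where
  | A (α s : ℕ) | B (β s : ℕ) | C (x y : ℕ) | E (α β : ℕ) | X (α : ℕ) | Y (β : ℕ)
  deriving DecidableEq

/-- number of members of a band -/
def sz (h n : ℕ) : ℕ := if n % 2 = 1 then h else h - 2

/-- `(x, y)` is a centre and a corner of the cell `(α, β)` -/
def Cor (L K α β x y : ℕ) : Prop :=
  (x = α ∨ x = α + 1) ∧ (y = β ∨ y = β + 1) ∧ (x + y) % 2 = 1 ∧ 1 ≤ x ∧ x ≤ L + 1 ∧
    1 ≤ y ∧ y ≤ K + 1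

/-- the pairs of the cell `(α, β)` -/
def Pr (h L K α β : ℕ) : V → V → Prop
  | .A a s, .B b s' => a = α ∧ b = β ∧ 1 ≤ α ∧ α ≤ L ∧ 1 ≤ β ∧ β ≤ K ∧ 1 ≤ s ∧ s ≤ sz h α ∧
      1 ≤ s' ∧ s' ≤ sz h β ∧ (if (α + β) % 2 = 0 then s = s' else s + s' = sz h β + 1)
  | .A a s, .E a' b' => a = α ∧ a' = α ∧ b' = β ∧ 1 ≤ α ∧ α ≤ L ∧ 1 ≤ β ∧ β ≤ K ∧
      α % 2 = 1 ∧ β % 2 = 0 ∧ (s = h - 1 ∨ s = h)
  | .B b s, .E a' b' => b = β ∧ a' = α ∧ b' = β ∧ 1 ≤ α ∧ α ≤ L ∧ 1 ≤ β ∧ β ≤ K ∧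
      α % 2 = 0 ∧ β % 2 = 1 ∧ (s = 1 ∨ s = 2)
  | .A a s, .A a' s' => a = α ∧ a' = α ∧ 1 ≤ α ∧ α ≤ L ∧ (β = 0 ∨ β = K + 1) ∧ 1 ≤ s ∧
      s' = s + 1 ∧ s + 1 ≤ sz h α ∧ (s + α) % 2 = 1
  | .A a s, .X a' => a = α ∧ a' = α ∧ 1 ≤ α ∧ α ≤ L ∧ (β = 0 ∨ β = K + 1) ∧ α % 2 = 1 ∧
      (s = 1 ∨ s = h)
  | .B b s, .B b' s' => b = β ∧ b' = β ∧ 1 ≤ β ∧ β ≤ K ∧ (α = 0 ∨ α = L + 1) ∧ 1 ≤ s ∧
      s' = s + 1 ∧ s + 1 ≤ sz h β ∧ (s + β) % 2 = 1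
  | .B b s, .Y b' => b = β ∧ b' = β ∧ 1 ≤ β ∧ β ≤ K ∧ (α = 0 ∨ α = L + 1) ∧ β % 2 = 1 ∧
      (s = 1 ∨ s = h)
  | _, _ => False

/-- the partner of column `(α, s)` in row band `β` -/
def mid (h K α s β : ℕ) : V :=
  if β = 0 ∨ β = K + 1 then
    (if α % 2 = 1 ∧ (s = 1 ∨ s = h) then .X α
      else if (s + α) % 2 = 1 then .A α (s + 1) else .A α (s - 1))
  else if (α + β) % 2 = 0 then .B β s
  else if s ≤ h - 2 then .B β (sz h β + 1 - s)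
  else .E α β

/-- the partner of row `(β, s)` in column band `α` -/
def midr (h L β s α : ℕ) : V :=
  if α = 0 ∨ α = L + 1 then
    (if β % 2 = 1 ∧ (s = 1 ∨ s = h) then .Y β
      else if (s + β) % 2 = 1 then .B β (s + 1) else .B β (s - 1))
  else if (α + β) % 2 = 0 then .A α s
  else if sz h β + 1 - s ≤ h - 2 then .A α (sz h β + 1 - s)
  else .E α β

/-- adjacency in the link of the centre `(x, y)` -/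
def Lk (h L K x y : ℕ) (u v : V) : Prop :=
  ∃ α β, Cor L K α β x y ∧ (Pr h L K α β u v ∨ Pr h L K α β v u)

/-- the parameters are admissible -/
structure Ok (h L K : ℕ) : Prop where
  h4 : 4 ≤ h
  h2 : h % 2 = 0
  L2 : 2 ≤ L
  Le : L % 2 = 0
  K2 : 2 ≤ K
  Ke : K % 2 = 0

section
variable {h L K : ℕ}

theorem Ps_A (ok : Ok h L K) (α' β α s : ℕ) (v : V) :
    (Pr h L K α' β (.A α s) v ∨ Pr h L K α' β v (.A α s)) ↔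
      α' = α ∧ 1 ≤ α ∧ α ≤ L ∧ β ≤ K + 1 ∧ 1 ≤ s ∧ s ≤ sz h α ∧ v = mid h K α s β := by
  obtain ⟨h4, h2, L2, Le, K2, Ke⟩ := ok
  rcases v with ⟨a, b⟩ | ⟨a, b⟩ | ⟨a, b⟩ | ⟨a, b⟩ | ⟨a⟩ | ⟨a⟩ <;>
  · simp only [Pr, mid, sz]
    grind (splits := 25)

theorem Ps_B (ok : Ok h L K) (α β' β s : ℕ) (v : V) :
    (Pr h L K α β' (.B β s) v ∨ Pr h L K α β' v (.B β s)) ↔
      β' = β ∧ 1 ≤ β ∧ β ≤ K ∧ α ≤ L + 1 ∧ 1 ≤ s ∧ s ≤ sz h β ∧ v = midr h L β s α := by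
  obtain ⟨h4, h2, L2, Le, K2, Ke⟩ := ok
  rcases v with ⟨a, b⟩ | ⟨a, b⟩ | ⟨a, b⟩ | ⟨a, b⟩ | ⟨a⟩ | ⟨a⟩ <;>
  · simp only [Pr, midr, sz]
    grind (splits := 25)

theorem Ps_E (ok : Ok h L K) (α' β' α β : ℕ) (v : V) :
    (Pr h L K α' β' (.E α β) v ∨ Pr h L K α' β' v (.E α β)) ↔
      α' = α ∧ β' = β ∧ 1 ≤ α ∧ α ≤ L ∧ 1 ≤ β ∧ β ≤ K ∧
        ((α % 2 = 1 ∧ β % 2 = 0 ∧ (v = .A α (h - 1) ∨ v = .A α h)) ∨
         (α % 2 = 0 ∧ β % 2 = 1 ∧ (v = .B β 1 ∨ v = .B β 2))) := by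
  obtain ⟨h4, h2, L2, Le, K2, Ke⟩ := ok
  rcases v with ⟨a, b⟩ | ⟨a, b⟩ | ⟨a, b⟩ | ⟨a, b⟩ | ⟨a⟩ | ⟨a⟩ <;>
  · simp only [Pr]
    grind (splits := 25)

theorem Ps_X (ok : Ok h L K) (α' β' α : ℕ) (v : V) :
    (Pr h L K α' β' (.X α) v ∨ Pr h L K α' β' v (.X α)) ↔
      α' = α ∧ (β' = 0 ∨ β' = K + 1) ∧ 1 ≤ α ∧ α ≤ L ∧ α % 2 = 1 ∧
        (v = .A α 1 ∨ v = .A α h) := by
  obtain ⟨h4, h2, L2, Le, K2, Ke⟩ := ok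
  rcases v with ⟨a, b⟩ | ⟨a, b⟩ | ⟨a, b⟩ | ⟨a, b⟩ | ⟨a⟩ | ⟨a⟩ <;>
  · simp only [Pr]
    grind (splits := 25)

theorem Ps_Y (ok : Ok h L K) (α' β' β : ℕ) (v : V) :
    (Pr h L K α' β' (.Y β) v ∨ Pr h L K α' β' v (.Y β)) ↔
      β' = β ∧ (α' = 0 ∨ α' = L + 1) ∧ 1 ≤ β ∧ β ≤ K ∧ β % 2 = 1 ∧
        (v = .B β 1 ∨ v = .B β h) := by
  obtain ⟨h4, h2, L2, Le, K2, Ke⟩ := ok
  rcases v with ⟨a, b⟩ | ⟨a, b⟩ | ⟨a, b⟩ | ⟨a, b⟩ | ⟨a⟩ | ⟨a⟩ <;>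
  · simp only [Pr]
    grind (splits := 25)

theorem Ps_C (α' β' x y : ℕ) (v : V) :
    ¬ (Pr h L K α' β' (.C x y) v ∨ Pr h L K α' β' v (.C x y)) := by
  rcases v with ⟨a, b⟩ | ⟨a, b⟩ | ⟨a, b⟩ | ⟨a, b⟩ | ⟨a⟩ | ⟨a⟩ <;> simp [Pr]

theorem Lk.symm {x y : ℕ} {u v : V} (hh : Lk h L K x y u v) : Lk h L K x y v u := by
  obtain ⟨α, β, hc, hp⟩ := hh
  exact ⟨α, β, hc, hp.symm⟩

theorem not_Lk_C {x y x' y' : ℕ} {v : V} : ¬ Lk h L K x y (.C x' y') v := by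
  rintro ⟨α, β, hc, hp⟩
  exact Ps_C _ _ _ _ _ hp

theorem Lk_A (ok : Ok h L K) (x y α s : ℕ) (v : V) :
    Lk h L K x y (.A α s) v ↔ (x = α ∨ x = α + 1) ∧ (x + y) % 2 = 1 ∧ 1 ≤ y ∧ y ≤ K + 1 ∧
      1 ≤ α ∧ α ≤ L ∧ 1 ≤ s ∧ s ≤ sz h α ∧ (v = mid h K α s (y - 1) ∨ v = mid h K α s y) := by
  constructor
  · rintro ⟨α', β, ⟨h1, h2, h3, h4, h5, h6, h7⟩, hp⟩
    rw [Ps_A ok] at hp
    obtain ⟨rfl, h8, h9, h10, h11, h12, h13⟩ := hp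
    refine ⟨h1, h3, h6, h7, h8, h9, h11, h12, ?_⟩
    rcases h2 with rfl | rfl
    · right; exact h13
    · left; simpa using h13
  · rintro ⟨h1, h2, h3, h4, h5, h6, h7, h8, h9 | h9⟩
    · refine ⟨α, y - 1, ⟨h1, by omega, h2, by omega, by omega, h3, h4⟩, ?_⟩
      rw [Ps_A ok]
      exact ⟨rfl, h5, h6, by omega, h7, h8, h9⟩
    · refine ⟨α, y, ⟨h1, by omega, h2, by omega, by omega, h3, h4⟩, ?_⟩
      rw [Ps_A ok]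
      exact ⟨rfl, h5, h6, by omega, h7, h8, h9⟩

theorem Lk_B (ok : Ok h L K) (x y β s : ℕ) (v : V) :
    Lk h L K x y (.B β s) v ↔ (y = β ∨ y = β + 1) ∧ (x + y) % 2 = 1 ∧ 1 ≤ x ∧ x ≤ L + 1 ∧
      1 ≤ β ∧ β ≤ K ∧ 1 ≤ s ∧ s ≤ sz h β ∧ (v = midr h L β s (x - 1) ∨ v = midr h L β s x) := by
  constructor
  · rintro ⟨α, β', ⟨h1, h2, h3, h4, h5, h6, h7⟩, hp⟩
    rw [Ps_B ok] at hp
    obtain ⟨rfl, h8, h9, h10, h11, h12, h13⟩ := hp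
    refine ⟨h2, h3, h4, h5, h8, h9, h11, h12, ?_⟩
    rcases h1 with rfl | rfl
    · right; exact h13
    · left; simpa using h13
  · rintro ⟨h1, h2, h3, h4, h5, h6, h7, h8, h9 | h9⟩
    · refine ⟨x - 1, β, ⟨by omega, h1, h2, by omega, by omega, by omega, by omega⟩, ?_⟩
      rw [Ps_B ok]
      exact ⟨rfl, h5, h6, by omega, h7, h8, h9⟩
    · refine ⟨x, β, ⟨by omega, h1, h2, by omega, by omega, by omega, by omega⟩, ?_⟩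
      rw [Ps_B ok]
      exact ⟨rfl, h5, h6, by omega, h7, h8, h9⟩

theorem Lk_E (ok : Ok h L K) (x y α β : ℕ) (v : V) :
    Lk h L K x y (.E α β) v ↔ Cor L K α β x y ∧ 1 ≤ α ∧ α ≤ L ∧ 1 ≤ β ∧ β ≤ K ∧
        ((α % 2 = 1 ∧ β % 2 = 0 ∧ (v = .A α (h - 1) ∨ v = .A α h)) ∨
         (α % 2 = 0 ∧ β % 2 = 1 ∧ (v = .B β 1 ∨ v = .B β 2))) := by
  constructor
  · rintro ⟨α', β', hc, hp⟩
    rw [Ps_E ok] at hp
    obtain ⟨rfl, rfl, h⟩ := hp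
    exact ⟨hc, h⟩
  · rintro ⟨hc, hh⟩
    exact ⟨α, β, hc, (Ps_E ok _ _ _ _ _).mpr ⟨rfl, rfl, hh⟩⟩

theorem Lk_X (ok : Ok h L K) (x y α : ℕ) (v : V) :
    Lk h L K x y (.X α) v ↔ x = α + 1 ∧ (y = 1 ∨ y = K + 1) ∧ 1 ≤ α ∧ α ≤ L ∧ α % 2 = 1 ∧
        (v = .A α 1 ∨ v = .A α h) := by
  obtain ⟨h4, h2, L2, Le, K2, Ke⟩ := id ok
  constructor
  · rintro ⟨α', β', ⟨c1, c2, c3, c4, c5, c6, c7⟩, hp⟩
    rw [Ps_X ok] at hp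
    obtain ⟨rfl, h1, h5, h6, h7, h8⟩ := hp
    refine ⟨by omega, by omega, h5, h6, h7, h8⟩
  · rintro ⟨rfl, hy, h5, h6, h7, h8⟩
    rcases hy with rfl | rfl
    · exact ⟨α, 0, ⟨by omega, by omega, by omega, by omega, by omega, by omega, by omega⟩,
        (Ps_X ok _ _ _ _).mpr ⟨rfl, by omega, h5, h6, h7, h8⟩⟩
    · exact ⟨α, K + 1, ⟨by omega, by omega, by omega, by omega, by omega, by omega, by omega⟩,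
        (Ps_X ok _ _ _ _).mpr ⟨rfl, by omega, h5, h6, h7, h8⟩⟩

theorem Lk_Y (ok : Ok h L K) (x y β : ℕ) (v : V) :
    Lk h L K x y (.Y β) v ↔ y = β + 1 ∧ (x = 1 ∨ x = L + 1) ∧ 1 ≤ β ∧ β ≤ K ∧ β % 2 = 1 ∧
        (v = .B β 1 ∨ v = .B β h) := by
  obtain ⟨h4, h2, L2, Le, K2, Ke⟩ := id ok
  constructor
  · rintro ⟨α', β', ⟨c1, c2, c3, c4, c5, c6, c7⟩, hp⟩
    rw [Ps_Y ok] at hp
    obtain ⟨rfl, h1, h5, h6, h7, h8⟩ := hp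
    refine ⟨by omega, by omega, h5, h6, h7, h8⟩
  · rintro ⟨rfl, hy, h5, h6, h7, h8⟩
    rcases hy with rfl | rfl
    · exact ⟨0, β, ⟨by omega, by omega, by omega, by omega, by omega, by omega, by omega⟩,
        (Ps_Y ok _ _ _ _).mpr ⟨rfl, by omega, h5, h6, h7, h8⟩⟩
    · exact ⟨L + 1, β, ⟨by omega, by omega, by omega, by omega, by omega, by omega, by omega⟩,
        (Ps_Y ok _ _ _ _).mpr ⟨rfl, by omega, h5, h6, h7, h8⟩⟩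

theorem mid_ne (ok : Ok h L K) {α s y : ℕ} (hy : 1 ≤ y) :
    mid h K α s (y - 1) ≠ mid h K α s y := by
  obtain ⟨h4, h2, L2, Le, K2, Ke⟩ := ok
  simp only [mid]
  grind (splits := 25)

theorem midr_ne (ok : Ok h L K) {β s x : ℕ} (hx : 1 ≤ x) :
    midr h L β s (x - 1) ≠ midr h L β s x := by
  obtain ⟨h4, h2, L2, Le, K2, Ke⟩ := ok
  simp only [midr]
  grind (splits := 25)

end

end Pool.Agent.Helper40.Surf
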