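import Mathlib
import Pool.Agent.Helper40.Surf.Defs
set_option autoImplicit false

/-!
# The planar picture
-/

namespace Pool.Agent.Helper40.Surf

/-- position of the lines -/
noncomputable def ln (h : ℕ) : ℕ → ℝ
  | 0 => -h
  | n + 1 => ln h n + sz h n + 1

theorem ln_succ (h n : ℕ) : ln h (n + 1) = ln h n + sz h n + 1 := rfl

theorem ln_strictMono (h : ℕ) : StrictMono (ln h) := by
  apply strictMono_nat_of_lt_succ
  intro n
  rw [ln_succ]
  have : (0 : ℝ) ≤ sz h n := Nat.cast_nonneg _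
  linarith

theorem ln_lt {h m n : ℕ} : ln h m < ln h n ↔ m < n := (ln_strictMono h).lt_iff_lt
theorem ln_le {h m n : ℕ} : ln h m ≤ ln h n ↔ m ≤ n := (ln_strictMono h).le_iff_le
theorem ln_inj {h m n : ℕ} : ln h m = ln h n ↔ m = n := (ln_strictMono h).injective.eq_iff

theorem ln_one {h : ℕ} (h4 : 4 ≤ h) : ln h 1 = -1 := by
  rw [show (1 : ℕ) = 0 + 1 from rfl, ln_succ]
  have : sz h 0 = h - 2 := by simp [sz]
  rw [this, Nat.cast_sub (by omega)]
  simp only [ln]
  push_cast
  ring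

/-- an open band is determined by any of its points -/
theorem band_unique {h m n : ℕ} {w : ℝ} (h1 : ln h m < w) (h2 : w < ln h (m + 1))
    (h3 : ln h n < w) (h4 : w < ln h (n + 1)) : m = n := by
  have e1 : m < n + 1 := ln_lt.mp (h1.trans h4)
  have e2 : n < m + 1 := ln_lt.mp (h3.trans h2)
  omega

/-- a line is not in an open band -/
theorem line_not_band {h m n : ℕ} (h1 : ln h m < ln h n) (h2 : ln h n < ln h (m + 1)) : False := by
  have e1 := ln_lt.mp h1
  have e2 := ln_lt.mp h2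
  omega

/-- members of a band lie in the open band -/
theorem mem_band {h n s : ℕ} (hs : 1 ≤ s) (hs' : s ≤ sz h n) :
    ln h n < ln h n + s ∧ ln h n + s < ln h (n + 1) := by
  rw [ln_succ]
  have h1 : (1 : ℝ) ≤ s := by exact_mod_cast hs
  have h2 : (s : ℝ) ≤ sz h n := by exact_mod_cast hs'
  constructor <;> linarith

/-! ### the two-legged paths in a rectangle -/

/-- the open path from `(0,0)` to `(W,H)` through `(u,v)` -/
def Path (W H u v q1 q2 : ℝ) : Prop :=
  ∃ τ, 0 < τ ∧ τ ≤ 1 ∧ ((q1 = τ * u ∧ q2 = τ * v) ∨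
    (q1 = W - τ * (W - u) ∧ q2 = H - τ * (H - v)))

theorem Path.swap {W H u v q1 q2 : ℝ} (hp : Path W H u v q1 q2) : Path H W v u q2 q1 := by
  obtain ⟨τ, h1, h2, ⟨h3, h4⟩ | ⟨h3, h4⟩⟩ := hp
  · exact ⟨τ, h1, h2, Or.inl ⟨h4, h3⟩⟩
  · exact ⟨τ, h1, h2, Or.inr ⟨h4, h3⟩⟩

theorem path_x {W H u v u' v' q1 q2 q1' q2' : ℝ} (hp : Path W H u v q1 q2)
    (hp' : Path W H u' v' q1' q2') (h1 : 0 < u) (h2 : u ≤ u') (h3 : u' < W)
    (h4 : 0 < v') (h5 : v' ≤ v) (h6 : v < H) (hq : q2 = q2') : q1 ≤ q1' := by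
  obtain ⟨τ, t0, t1, hτ⟩ := hp
  obtain ⟨σ, s0, s1, hσ⟩ := hp'
  rcases hτ with ⟨e1, e2⟩ | ⟨e1, e2⟩ <;> rcases hσ with ⟨f1, f2⟩ | ⟨f1, f2⟩
  · -- both on the first leg
    have hτσ : τ ≤ σ := by
      have : τ * v ≤ σ * v := by
        rw [← e2, hq, f2]
        exact mul_le_mul_of_nonneg_left h5 s0.le
      exact le_of_mul_le_mul_right this (h4.trans_le h5)
    rw [e1, f1]
    exact (mul_le_mul_of_nonneg_right hτσ h1.le).trans (mul_le_mul_of_nonneg_left h2 s0.le)
  · have a1 : τ * u ≤ u := by nlinarith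
    have a2 : σ * (W - u') ≤ W - u' := by nlinarith
    rw [e1, f1]; linarith
  · -- degenerate
    have a1 : τ * (H - v) ≤ H - v := by nlinarith
    have a2 : σ * v' ≤ v' := by nlinarith
    have b1 : τ * (H - v) = H - v := by linarith
    have b2 : σ * v' = v' := by linarith
    have c1 : τ = 1 := by
      have : (τ - 1) * (H - v) = 0 := by linarith
      rcases mul_eq_zero.mp this with h | h <;> linarith
    have c2 : σ = 1 := by
      have : (σ - 1) * v' = 0 := by linarith
      rcases mul_eq_zero.mp this with h | h <;> linarith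
    rw [e1, f1, c1, c2]; linarith
  · have hστ : σ ≤ τ := by
      have : σ * (H - v') ≤ τ * (H - v') := by
        have a1 : τ * (H - v) = σ * (H - v') := by linarith
        rw [← a1]
        exact mul_le_mul_of_nonneg_left (by linarith) t0.le
      exact le_of_mul_le_mul_right this (by linarith)
    rw [e1, f1]
    have a1 : σ * (W - u') ≤ τ * (W - u') := mul_le_mul_of_nonneg_right hστ (by linarith)
    have a2 : τ * (W - u') ≤ τ * (W - u) := mul_le_mul_of_nonneg_left (by linarith) t0.le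
    linarith

theorem path_y {W H u v u' v' q1 q2 q1' q2' : ℝ} (hp : Path W H u v q1 q2)
    (hp' : Path W H u' v' q1' q2') (h1 : 0 < u) (h2 : u ≤ u') (h3 : u' < W)
    (h4 : 0 < v') (h5 : v' ≤ v) (h6 : v < H) (hq : q1 = q1') : q2' ≤ q2 :=
  path_x hp'.swap hp.swap h4 h5 h6 h1 h2 h3 hq.symm

theorem path_ne {W H u v u' v' q1 q2 : ℝ} (hp : Path W H u v q1 q2)
    (hp' : Path W H u' v' q1 q2) (h1 : 0 < u) (h2 : u < u') (h3 : u' < W)
    (h4 : 0 < v') (h5 : v' < v) (h6 : v < H) : False := by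
  obtain ⟨τ, t0, t1, hτ⟩ := hp
  obtain ⟨σ, s0, s1, hσ⟩ := hp'
  rcases hτ with ⟨e1, e2⟩ | ⟨e1, e2⟩ <;> rcases hσ with ⟨f1, f2⟩ | ⟨f1, f2⟩
  · have a1 : τ * u = σ * u' := by linarith
    have a2 : τ * v = σ * v' := by linarith
    have b1 : σ * u < σ * u' := mul_lt_mul_of_pos_left h2 s0
    have b2 : σ * v' < σ * v := mul_lt_mul_of_pos_left h5 s0
    have c1 : σ < τ := by
      have : σ * u < τ * u := by linarith
      exact lt_of_mul_lt_mul_right this h1.le
    have c2 : τ < σ := by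
      have : τ * v < σ * v := by linarith
      exact lt_of_mul_lt_mul_right this (by linarith)
    linarith
  · have a1 : τ * u ≤ u := by nlinarith
    have a2 : σ * (W - u') ≤ W - u' := by nlinarith
    linarith
  · have a1 : τ * (H - v) ≤ H - v := by nlinarith
    have a2 : σ * v' ≤ v' := by nlinarith
    linarith
  · have a1 : τ * (W - u) = σ * (W - u') := by linarith
    have a2 : τ * (H - v) = σ * (H - v') := by linarith
    have b1 : τ * (W - u') < τ * (W - u) := mul_lt_mul_of_pos_left (by linarith) t0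
    have b2 : τ * (H - v) < τ * (H - v') := mul_lt_mul_of_pos_left (by linarith) t0
    have c1 : τ < σ := by
      have : τ * (W - u') < σ * (W - u') := by linarith
      exact lt_of_mul_lt_mul_right this (by linarith)
    have c2 : σ < τ := by
      have : σ * (H - v') < τ * (H - v') := by linarith
      exact lt_of_mul_lt_mul_right this (by linarith)
    linarith

/-! ### the middle points of the paths in a cell -/

/-- number of middle points of a cell -/
def nr (h α β : ℕ) : ℕ := if (α + β) % 2 = 0 then sz h α else h - 1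

/-- first coordinate of the `r`-th middle point -/
noncomputable def mx (h α β r : ℕ) : ℝ :=
  if (α + β) % 2 = 0 then ln h α + r else if r ≤ h - 2 then ln h α + r else
    if α % 2 = 1 then ln h α + h else ln h α + h - 3 / 2

/-- second coordinate of the `r`-th middle point -/
noncomputable def my (h α β r : ℕ) : ℝ :=
  if (α + β) % 2 = 0 then ln h β + r else if r ≤ h - 2 then ln h β + sz h β + 1 - r else
    if α % 2 = 1 then ln h β + 1 / 2 else ln h β + 1

variable {h : ℕ}

theorem sz_cast_odd {n : ℕ} (hn : n % 2 = 1) : (sz h n : ℝ) = h := by simp [sz, hn]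
theorem sz_cast_even (h4 : 4 ≤ h) {n : ℕ} (hn : n % 2 = 0) : (sz h n : ℝ) = h - 2 := by
  have : sz h n = h - 2 := by simp [sz, hn]
  rw [this, Nat.cast_sub (by omega)]
  norm_num

theorem sz_ge (h n : ℕ) : h - 2 ≤ sz h n := by unfold sz; split_ifs <;> omega

theorem m_open (h4 : 4 ≤ h) {α β r : ℕ} (hr : 1 ≤ r) (hr' : r ≤ nr h α β) :
    (ln h α < mx h α β r ∧ mx h α β r < ln h (α + 1)) ∧
      (ln h β < my h α β r ∧ my h α β r < ln h (β + 1)) := by
  have hR : (4 : ℝ) ≤ h := by exact_mod_cast h4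
  have r1 : (1 : ℝ) ≤ r := by exact_mod_cast hr
  unfold nr at hr'
  by_cases hp : (α + β) % 2 = 0
  · rw [if_pos hp] at hr'
    have e : sz h α = sz h β := by
      unfold sz
      have : α % 2 = β % 2 := by omega
      rw [this]
    have r2 : (r : ℝ) ≤ sz h α := by exact_mod_cast hr'
    have r3 : (r : ℝ) ≤ sz h β := by rw [← e]; exact r2
    simp only [mx, my, if_pos hp, ln_succ]
    refine ⟨⟨by linarith, by linarith⟩, by linarith, by linarith⟩
  · rw [if_neg hp] at hr'
    by_cases hk : r ≤ h - 2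
    · have r2 : (r : ℝ) ≤ sz h α := by exact_mod_cast hk.trans (sz_ge h α)
      have r3 : (r : ℝ) ≤ sz h β := by exact_mod_cast hk.trans (sz_ge h β)
      simp only [mx, my, if_neg hp, if_pos hk, ln_succ]
      refine ⟨⟨by linarith, by linarith⟩, by linarith, by linarith⟩
    · simp only [mx, my, if_neg hp, if_neg hk, ln_succ]
      by_cases hα : α % 2 = 1
      · have hβ : β % 2 = 0 := by omega
        rw [if_pos hα, if_pos hα, sz_cast_odd hα, sz_cast_even h4 hβ]
        refine ⟨⟨by linarith, by linarith⟩, by linarith, by linarith⟩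
      · have hα' : α % 2 = 0 := by omega
        have hβ : β % 2 = 1 := by omega
        rw [if_neg hα, if_neg hα, sz_cast_even h4 hα', sz_cast_odd hβ]
        refine ⟨⟨by linarith, by linarith⟩, by linarith, by linarith⟩

theorem m_chain (h4 : 4 ≤ h) {α β r r' : ℕ} (hr' : r' ≤ nr h α β)
    (hrr : r < r') :
    mx h α β r < mx h α β r' ∧
      (if (α + β) % 2 = 0 then my h α β r < my h α β r' else my h α β r' < my h α β r) := by
  have hR : (4 : ℝ) ≤ h := by exact_mod_cast h4
  have r1 : (r : ℝ) < r' := by exact_mod_cast hrr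
  unfold nr at hr'
  by_cases hp : (α + β) % 2 = 0
  · simp only [mx, my, if_pos hp]
    constructor <;> linarith
  · rw [if_neg hp] at hr'
    simp only [mx, my, if_neg hp]
    have hk : r ≤ h - 2 := by omega
    rw [if_pos hk, if_pos hk]
    by_cases hk' : r' ≤ h - 2
    · rw [if_pos hk', if_pos hk']
      constructor <;> linarith
    · rw [if_neg hk', if_neg hk']
      have r2 : (r : ℝ) ≤ h - 2 := by
        have : ((h - 2 : ℕ) : ℝ) = h - 2 := by rw [Nat.cast_sub (by omega)]; norm_num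
        rw [← this]; exact_mod_cast hk
      by_cases hα : α % 2 = 1
      · have hβ : β % 2 = 0 := by omega
        rw [if_pos hα, if_pos hα, sz_cast_even h4 hβ]
        constructor <;> linarith
      · have hβ : β % 2 = 1 := by omega
        rw [if_neg hα, if_neg hα, sz_cast_odd hβ]
        constructor <;> linarith

/-- a point of the half-open segment from the corner `(x, y)` to the `r`-th middle point -/
structure InSeg (h α β r x y : ℕ) (τ q1 q2 : ℝ) : Prop where
  r1 : 1 ≤ r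
  r2 : r ≤ nr h α β
  hx : x = α ∨ x = α + 1
  hy : y = β ∨ y = β + 1
  hxy : (x + y) % 2 = 1
  t0 : 0 < τ
  t1 : τ ≤ 1
  e1 : q1 = ln h x + τ * (mx h α β r - ln h x)
  e2 : q2 = ln h y + τ * (my h α β r - ln h y)

theorem conv_open {a b c m τ : ℝ} (hc : c = a ∨ c = b) (hab : a < b) (h1 : a < m) (h2 : m < b)
    (t0 : 0 < τ) (t1 : τ ≤ 1) : a < c + τ * (m - c) ∧ c + τ * (m - c) < b := by
  rcases hc with rfl | rfl
  · constructor <;> nlinarith
  · constructor <;> nlinarith

theorem InSeg.open (h4 : 4 ≤ h) {α β r x y : ℕ} {τ q1 q2 : ℝ} (hs : InSeg h α β r x y τ q1 q2) :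
    (ln h α < q1 ∧ q1 < ln h (α + 1)) ∧ (ln h β < q2 ∧ q2 < ln h (β + 1)) := by
  obtain ⟨⟨m1, m2⟩, m3, m4⟩ := m_open h4 hs.r1 hs.r2
  rw [hs.e1, hs.e2]
  refine ⟨conv_open ?_ (ln_lt.mpr (Nat.lt_succ_self α)) m1 m2 hs.t0 hs.t1,
    conv_open ?_ (ln_lt.mpr (Nat.lt_succ_self β)) m3 m4 hs.t0 hs.t1⟩
  · rcases hs.hx with rfl | rfl <;> simp
  · rcases hs.hy with rfl | rfl <;> simp

theorem InSeg.pathI {α β r x y : ℕ} {τ q1 q2 : ℝ} (hs : InSeg h α β r x y τ q1 q2)
    (hp : (α + β) % 2 = 1) :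
    Path (ln h (α + 1) - ln h α) (ln h (β + 1) - ln h β) (mx h α β r - ln h α)
      (my h α β r - ln h β) (q1 - ln h α) (q2 - ln h β) := by
  obtain ⟨-, -, hx, hy, hxy, t0, t1, e1, e2⟩ := hs
  refine ⟨τ, t0, t1, ?_⟩
  rcases hx with rfl | rfl
  · obtain rfl : y = β := by omega
    left
    rw [e1, e2]
    constructor <;> ring
  · obtain rfl : y = β + 1 := by omega
    right
    rw [e1, e2]
    constructor <;> ring

theorem InSeg.pathII {α β r x y : ℕ} {τ q1 q2 : ℝ} (hs : InSeg h α β r x y τ q1 q2)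
    (hp : (α + β) % 2 = 0) :
    Path (ln h (α + 1) - ln h α) (ln h (β + 1) - ln h β) (ln h (α + 1) - mx h α β r)
      (my h α β r - ln h β) (ln h (α + 1) - q1) (q2 - ln h β) := by
  obtain ⟨-, -, hx, hy, hxy, t0, t1, e1, e2⟩ := hs
  refine ⟨τ, t0, t1, ?_⟩
  rcases hx with rfl | rfl
  · obtain rfl : y = β + 1 := by omega
    right
    rw [e1, e2]
    constructor <;> ring
  · obtain rfl : y = β := by omega
    left
    rw [e1, e2]
    constructor <;> ring

/-- order of the paths of a cell at a given height -/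
theorem seg_x (h4 : 4 ≤ h) {α β r x y r' x' y' : ℕ} {τ q1 q2 τ' q1' q2' : ℝ}
    (hs : InSeg h α β r x y τ q1 q2) (hs' : InSeg h α β r' x' y' τ' q1' q2')
    (hr : r ≤ r') (hq : q2 = q2') : q1 ≤ q1' := by
  obtain ⟨⟨a1, a2⟩, a3, a4⟩ := m_open h4 hs.r1 hs.r2
  obtain ⟨⟨b1, b2⟩, b3, b4⟩ := m_open h4 hs'.r1 hs'.r2
  have hm : mx h α β r ≤ mx h α β r' ∧
      (if (α + β) % 2 = 0 then my h α β r ≤ my h α β r' else my h α β r' ≤ my h α β r) := by
    rcases hr.eq_or_lt with rfl | hlt
    · refine ⟨le_rfl, ?_⟩; split_ifs <;> exact le_rfl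
    · obtain ⟨c1, c2⟩ := m_chain h4 hs'.r2 hlt
      refine ⟨c1.le, ?_⟩
      split_ifs at c2 ⊢ <;> exact c2.le
  obtain ⟨m1, m2⟩ := hm
  by_cases hp : (α + β) % 2 = 0
  · rw [if_pos hp] at m2
    have := path_x (hs'.pathII hp) (hs.pathII hp) (by linarith) (by linarith) (by linarith)
      (by linarith) (by linarith) (by linarith) (by linarith)
    linarith
  · rw [if_neg hp] at m2
    have hp' : (α + β) % 2 = 1 := by omega
    have := path_x (hs.pathI hp') (hs'.pathI hp') (by linarith) (by linarith) (by linarith)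
      (by linarith) (by linarith) (by linarith) (by linarith)
    linarith

/-- order of the paths of a cell at a given abscissa -/
theorem seg_y (h4 : 4 ≤ h) {α β r x y r' x' y' : ℕ} {τ q1 q2 τ' q1' q2' : ℝ}
    (hs : InSeg h α β r x y τ q1 q2) (hs' : InSeg h α β r' x' y' τ' q1' q2')
    (hr : if (α + β) % 2 = 0 then r ≤ r' else r' ≤ r) (hq : q1 = q1') : q2 ≤ q2' := by
  obtain ⟨⟨a1, a2⟩, a3, a4⟩ := m_open h4 hs.r1 hs.r2
  obtain ⟨⟨b1, b2⟩, b3, b4⟩ := m_open h4 hs'.r1 hs'.r2
  by_cases hp : (α + β) % 2 = 0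
  · rw [if_pos hp] at hr
    have hm : mx h α β r ≤ mx h α β r' ∧ my h α β r ≤ my h α β r' := by
      rcases hr.eq_or_lt with rfl | hlt
      · exact ⟨le_rfl, le_rfl⟩
      · obtain ⟨c1, c2⟩ := m_chain h4 hs'.r2 hlt
        rw [if_pos hp] at c2
        exact ⟨c1.le, c2.le⟩
    obtain ⟨m1, m2⟩ := hm
    have := path_y (hs'.pathII hp) (hs.pathII hp) (by linarith) (by linarith) (by linarith)
      (by linarith) (by linarith) (by linarith) (by linarith)
    linarith
  · rw [if_neg hp] at hr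
    have hp' : (α + β) % 2 = 1 := by omega
    have hm : mx h α β r' ≤ mx h α β r ∧ my h α β r ≤ my h α β r' := by
      rcases hr.eq_or_lt with rfl | hlt
      · exact ⟨le_rfl, le_rfl⟩
      · obtain ⟨c1, c2⟩ := m_chain h4 hs.r2 hlt
        rw [if_neg hp] at c2
        exact ⟨c1.le, c2.le⟩
    obtain ⟨m1, m2⟩ := hm
    have := path_y (hs'.pathI hp') (hs.pathI hp') (by linarith) (by linarith) (by linarith)
      (by linarith) (by linarith) (by linarith) (by linarith)
    linarith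

theorem seg_r_lt (h4 : 4 ≤ h) {α β r x y r' x' y' : ℕ} {τ q1 q2 τ' : ℝ}
    (hs : InSeg h α β r x y τ q1 q2) (hs' : InSeg h α β r' x' y' τ' q1 q2) : ¬ r < r' := by
  intro hlt
  obtain ⟨⟨a1, a2⟩, a3, a4⟩ := m_open h4 hs.r1 hs.r2
  obtain ⟨⟨b1, b2⟩, b3, b4⟩ := m_open h4 hs'.r1 hs'.r2
  obtain ⟨c1, c2⟩ := m_chain h4 hs'.r2 hlt
  by_cases hp : (α + β) % 2 = 0
  · rw [if_pos hp] at c2
    exact path_ne (hs'.pathII hp) (hs.pathII hp) (by linarith) (by linarith) (by linarith)
      (by linarith) (by linarith) (by linarith)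
  · rw [if_neg hp] at c2
    have hp' : (α + β) % 2 = 1 := by omega
    exact path_ne (hs.pathI hp') (hs'.pathI hp') (by linarith) (by linarith) (by linarith)
      (by linarith) (by linarith) (by linarith)

/-- uniqueness of the description of a planar point -/
theorem seg_unique (h4 : 4 ≤ h) {α β r x y α' β' r' x' y' : ℕ} {τ q1 q2 τ' : ℝ}
    (hs : InSeg h α β r x y τ q1 q2) (hs' : InSeg h α' β' r' x' y' τ' q1 q2) :
    α = α' ∧ β = β' ∧ r = r' ∧ τ = τ' ∧ ((x = x' ∧ y = y') ∨ τ = 1) := by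
  obtain ⟨⟨a1, a2⟩, a3, a4⟩ := hs.open h4
  obtain ⟨⟨b1, b2⟩, b3, b4⟩ := hs'.open h4
  obtain rfl := band_unique a1 a2 b1 b2
  obtain rfl := band_unique a3 a4 b3 b4
  have hr : r = r' := le_antisymm (not_lt.mp (seg_r_lt h4 hs' hs)) (not_lt.mp (seg_r_lt h4 hs hs'))
  subst hr
  obtain ⟨⟨m1, m2⟩, m3, m4⟩ := m_open h4 hs.r1 hs.r2
  obtain ⟨-, -, hx, hy, hxy, t0, t1, e1, e2⟩ := hs
  obtain ⟨-, -, hx', hy', hxy', t0', t1', e1', e2'⟩ := hs'
  refine ⟨rfl, rfl, rfl, ?_⟩
  by_cases hxx : x = x'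
  · subst hxx
    have hyy : y = y' := by omega
    have hne : mx h α β r - ln h x ≠ 0 := by
      rcases hx with rfl | rfl
      · intro h0; linarith
      · intro h0; linarith
    have : τ * (mx h α β r - ln h x) = τ' * (mx h α β r - ln h x) := by linarith
    exact ⟨mul_right_cancel₀ hne this, Or.inl ⟨rfl, hyy⟩⟩
  · have key : ∀ {σ σ' : ℝ}, 0 < σ → σ ≤ 1 → 0 < σ' → σ' ≤ 1 →
        ln h α + σ * (mx h α β r - ln h α) = ln h (α + 1) + σ' * (mx h α β r - ln h (α + 1)) →
        σ = 1 ∧ σ' = 1 := by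
      intro σ σ' s0 s1 s0' s1' he
      have c1 : σ * (mx h α β r - ln h α) ≤ mx h α β r - ln h α := by nlinarith
      have c2 : σ' * (ln h (α + 1) - mx h α β r) ≤ ln h (α + 1) - mx h α β r := by nlinarith
      have d1 : (1 - σ) * (mx h α β r - ln h α) = 0 := by nlinarith
      have d2 : (1 - σ') * (ln h (α + 1) - mx h α β r) = 0 := by nlinarith
      constructor
      · rcases mul_eq_zero.mp d1 with h0 | h0 <;> linarith
      · rcases mul_eq_zero.mp d2 with h0 | h0 <;> linarith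
    rcases hx with rfl | rfl <;> rcases hx' with rfl | rfl
    · exact absurd rfl hxx
    · obtain ⟨k1, k2⟩ := key t0 t1 t0' t1' (e1.symm.trans e1')
      exact ⟨by rw [k1, k2], Or.inr k1⟩
    · obtain ⟨k1, k2⟩ := key t0' t1' t0 t1 (e1'.symm.trans e1)
      exact ⟨by rw [k1, k2], Or.inr k2⟩
    · exact absurd rfl hxx

end Pool.Agent.Helper40.Surf
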