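import Mathlib
import Pool.Agent.Helper40.Surf.Planar
set_option autoImplicit false

/-!
# Carriers of points in the upper half, in the lower half and in the middle plane
-/

namespace Pool.Agent.Helper40.Surf

open Finset

variable {h : ℕ}

/-- index of the middle point used by column `(α, s)` in the cell `(α, β)` -/
def ci (h α β s : ℕ) : ℕ := if (α + β) % 2 = 0 then s else min s (h - 1)

/-- index of the middle point used by row `(β, s)` in the cell `(α, β)` -/
def ri (h α β s : ℕ) : ℕ := if (α + β) % 2 = 0 then s else min (sz h β + 1 - s) (h - 1)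

/-- `w` is a position in column band `α` and `(q1, q2)` a point on its path -/
def UE (h α : ℕ) (w q1 q2 : ℝ) : Prop :=
  (ln h α < w ∧ w < ln h (α + 1)) ∧
    ((∃ x y, (x = α ∨ x = α + 1) ∧ (x + y) % 2 = 1 ∧ q1 = ln h x ∧ q2 = ln h y) ∨
      ∃ (β s x y : ℕ) (τ : ℝ), w = ln h α + s ∧ InSeg h α β (ci h α β s) x y τ q1 q2)

/-- `w` is a position in row band `β` and `(q1, q2)` a point on its path -/
def UR (h β : ℕ) (w q1 q2 : ℝ) : Prop :=
  (ln h β < w ∧ w < ln h (β + 1)) ∧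
    ((∃ x y, (y = β ∨ y = β + 1) ∧ (x + y) % 2 = 1 ∧ q1 = ln h x ∧ q2 = ln h y) ∨
      ∃ (α s x y : ℕ) (τ : ℝ), w = ln h β + s ∧ InSeg h α β (ri h α β s) x y τ q1 q2)

theorem UE.strip (h4 : 4 ≤ h) {α : ℕ} {w q1 q2 : ℝ} (hu : UE h α w q1 q2) :
    ln h α ≤ q1 ∧ q1 ≤ ln h (α + 1) := by
  rcases hu.2 with ⟨x, y, hx, -, rfl, -⟩ | ⟨β, s, x, y, τ, -, hs⟩
  · rcases hx with rfl | rfl
    · exact ⟨le_rfl, ln_le.mpr (Nat.le_succ _)⟩
    · exact ⟨ln_le.mpr (Nat.le_succ _), le_rfl⟩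
  · exact ⟨(hs.open h4).1.1.le, (hs.open h4).1.2.le⟩

theorem UR.strip (h4 : 4 ≤ h) {β : ℕ} {w q1 q2 : ℝ} (hu : UR h β w q1 q2) :
    ln h β ≤ q2 ∧ q2 ≤ ln h (β + 1) := by
  rcases hu.2 with ⟨x, y, hy, -, -, rfl⟩ | ⟨β, s, x, y, τ, -, hs⟩
  · rcases hy with rfl | rfl
    · exact ⟨le_rfl, ln_le.mpr (Nat.le_succ _)⟩
    · exact ⟨ln_le.mpr (Nat.le_succ _), le_rfl⟩
  · exact ⟨(hs.open h4).2.1.le, (hs.open h4).2.2.le⟩

/-- paths of different columns do not cross -/
theorem UE_mono (h4 : 4 ≤ h) {α α' : ℕ} {w q1 q2 w' q1' q2' : ℝ} (hu : UE h α w q1 q2)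
    (hu' : UE h α' w' q1' q2') (hw : w < w') (hq : q2 = q2') : q1 ≤ q1' := by
  have hαα : α ≤ α' := by
    by_contra hlt
    push Not at hlt
    have : ln h (α' + 1) ≤ ln h α := ln_le.mpr hlt
    linarith [hu.1.1, hu'.1.2]
  rcases hαα.eq_or_lt with rfl | hlt
  · rcases hu.2 with ⟨x, y, hx, hxy, rfl, rfl⟩ | ⟨β, s, x, y, τ, rfl, hs⟩
    · rcases hu'.2 with ⟨x', y', hx', hxy', rfl, rfl⟩ | ⟨β', s', x', y', τ', rfl, hs'⟩
      · rw [ln_inj] at hq
        subst hq
        have : x = x' := by omega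
        rw [this]
      · have := (hs'.open h4).2
        rw [← hq] at this
        exact (line_not_band this.1 this.2).elim
    · rcases hu'.2 with ⟨x', y', hx', hxy', rfl, rfl⟩ | ⟨β', s', x', y', τ', rfl, hs'⟩
      · have := (hs.open h4).2
        rw [hq] at this
        exact (line_not_band this.1 this.2).elim
      · have o1 := (hs.open h4).2
        have o2 := (hs'.open h4).2
        rw [← hq] at o2
        obtain rfl := band_unique o1.1 o1.2 o2.1 o2.2
        have hss : s < s' := by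
          have : (s : ℝ) < s' := by linarith
          exact_mod_cast this
        refine seg_x h4 hs hs' ?_ hq
        unfold ci
        split_ifs <;> omega
  · have e1 := (hu.strip h4).2
    have e2 := (hu'.strip h4).1
    have e3 : ln h (α + 1) ≤ ln h α' := ln_le.mpr hlt
    linarith

/-- paths of different rows do not cross -/
theorem UR_mono (h4 : 4 ≤ h) {β β' : ℕ} {w q1 q2 w' q1' q2' : ℝ} (hu : UR h β w q1 q2)
    (hu' : UR h β' w' q1' q2') (hw : w < w') (hq : q1 = q1') : q2 ≤ q2' := by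
  have hββ : β ≤ β' := by
    by_contra hlt
    push Not at hlt
    have : ln h (β' + 1) ≤ ln h β := ln_le.mpr hlt
    linarith [hu.1.1, hu'.1.2]
  rcases hββ.eq_or_lt with rfl | hlt
  · rcases hu.2 with ⟨x, y, hx, hxy, rfl, rfl⟩ | ⟨α, s, x, y, τ, rfl, hs⟩
    · rcases hu'.2 with ⟨x', y', hx', hxy', rfl, rfl⟩ | ⟨α', s', x', y', τ', rfl, hs'⟩
      · rw [ln_inj] at hq
        subst hq
        have : y = y' := by omega
        rw [this]
      · have := (hs'.open h4).1
        rw [← hq] at this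
        exact (line_not_band this.1 this.2).elim
    · rcases hu'.2 with ⟨x', y', hx', hxy', rfl, rfl⟩ | ⟨α', s', x', y', τ', rfl, hs'⟩
      · have := (hs.open h4).1
        rw [hq] at this
        exact (line_not_band this.1 this.2).elim
      · have o1 := (hs.open h4).1
        have o2 := (hs'.open h4).1
        rw [← hq] at o2
        obtain rfl := band_unique o1.1 o1.2 o2.1 o2.2
        have hss : s < s' := by
          have : (s : ℝ) < s' := by linarith
          exact_mod_cast this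
        refine seg_y h4 hs hs' ?_ hq
        unfold ri
        split_ifs <;> omega
  · have e1 := (hu.strip h4).2
    have e2 := (hu'.strip h4).1
    have e3 : ln h (β + 1) ≤ ln h β' := ln_le.mpr hlt
    linarith

/-! ### carriers -/

/-- the vertices whose convex hull has the `r`-th middle point in its relative interior -/
def MV (h α β r : ℕ) : Finset V :=
  if (α + β) % 2 = 0 then {V.A α r, V.B β r} else
    if r ≤ h - 2 then {V.A α r, V.B β (sz h β + 1 - r)} else {V.E α β}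

/-- carrier of a point of the middle plane -/
def QR (h : ℕ) (q1 q2 : ℝ) (F : Finset V) : Prop :=
  (∃ x y, (x + y) % 2 = 1 ∧ q1 = ln h x ∧ q2 = ln h y ∧ F = {V.C x y}) ∨
    ∃ α β r x y τ, InSeg h α β r x y τ q1 q2 ∧
      ((τ = 1 ∧ F = MV h α β r) ∨ (τ ≠ 1 ∧ F = insert (V.C x y) (MV h α β r)))

/-- carrier of a point on the line of the columns -/
def AR (h : ℕ) (w : ℝ) (F : Finset V) : Prop :=
  (∃ α s : ℕ, 1 ≤ s ∧ s ≤ sz h α ∧ w = ln h α + s ∧ F = {V.A α s}) ∨
    ∃ α s : ℕ, 1 ≤ s ∧ s + 1 ≤ sz h α ∧ ln h α + s < w ∧ w < ln h α + s + 1 ∧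
      F = {V.A α s, V.A α (s + 1)}

/-- carrier of a point on the line of the rows -/
def BR (h : ℕ) (w : ℝ) (F : Finset V) : Prop :=
  (∃ β s : ℕ, 1 ≤ s ∧ s ≤ sz h β ∧ w = ln h β + s ∧ F = {V.B β s}) ∨
    ∃ β s : ℕ, 1 ≤ s ∧ s + 1 ≤ sz h β ∧ ln h β + s < w ∧ w < ln h β + s + 1 ∧
      F = {V.B β s, V.B β (s + 1)}

theorem QR_unique (h4 : 4 ≤ h) {q1 q2 : ℝ} {F F' : Finset V} (hq : QR h q1 q2 F)
    (hq' : QR h q1 q2 F') : F = F' := by
  rcases hq with ⟨x, y, hxy, e1, e2, rfl⟩ | ⟨α, β, r, x, y, τ, hs, hF⟩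
  · rcases hq' with ⟨x', y', hxy', e1', e2', rfl⟩ | ⟨α', β', r', x', y', τ', hs', hF'⟩
    · have : x = x' := ln_inj.mp (e1.symm.trans e1')
      have : y = y' := ln_inj.mp (e2.symm.trans e2')
      subst_vars; rfl
    · have := (hs'.open h4).1
      rw [e1] at this
      exact (line_not_band this.1 this.2).elim
  · rcases hq' with ⟨x', y', hxy', e1', e2', rfl⟩ | ⟨α', β', r', x', y', τ', hs', hF'⟩
    · have := (hs.open h4).1
      rw [e1'] at this
      exact (line_not_band this.1 this.2).elim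
    · obtain ⟨rfl, rfl, rfl, rfl, hc⟩ := seg_unique h4 hs hs'
      rcases hF with ⟨ht, rfl⟩ | ⟨ht, rfl⟩
      · rcases hF' with ⟨-, rfl⟩ | ⟨ht', -⟩
        · rfl
        · exact absurd ht ht'
      · rcases hF' with ⟨ht', -⟩ | ⟨-, rfl⟩
        · exact absurd ht' ht
        · obtain ⟨rfl, rfl⟩ := hc.resolve_right ht
          rfl

theorem pos_unique {n n' s s' : ℕ} (h1 : 1 ≤ s) (h2 : s ≤ sz h n) (h3 : 1 ≤ s')
    (h4 : s' ≤ sz h n') (he : ln h n + s = ln h n' + s') : n = n' ∧ s = s' := by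
  have e1 := mem_band h1 h2
  have e2 := mem_band h3 h4
  rw [← he] at e2
  obtain rfl := band_unique e1.1 e1.2 e2.1 e2.2
  refine ⟨rfl, ?_⟩
  have : (s : ℝ) = s' := by linarith
  exact_mod_cast this

theorem not_between {n n' s s' : ℕ} (h1 : 1 ≤ s) (h2 : s ≤ sz h n) (h3 : 1 ≤ s')
    (h4 : s' + 1 ≤ sz h n') (he : ln h n' + s' < ln h n + s) (he' : ln h n + s < ln h n' + s' + 1) :
    False := by
  have e1 := mem_band h1 h2
  have e2 := mem_band h3 (by omega : s' ≤ sz h n')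
  have e3 := mem_band (h := h) (n := n') (s := s' + 1) (by omega) h4
  push_cast at e3
  obtain rfl := band_unique e1.1 e1.2 (by linarith [e2.1] : ln h n' < ln h n + s) (by linarith [e3.2])
  have a1 : (s' : ℝ) < s := by linarith
  have a2 : (s : ℝ) < s' + 1 := by linarith
  have b1 : s' < s := by exact_mod_cast a1
  have b2 : s < s' + 1 := by exact_mod_cast a2
  omega

theorem between_unique {n n' s s' : ℕ} {w : ℝ} (h1 : 1 ≤ s) (h2 : s + 1 ≤ sz h n) (h3 : 1 ≤ s')
    (h4 : s' + 1 ≤ sz h n') (a1 : ln h n + s < w) (a2 : w < ln h n + s + 1)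
    (b1 : ln h n' + s' < w) (b2 : w < ln h n' + s' + 1) : n = n' ∧ s = s' := by
  have e1 := mem_band h1 (by omega : s ≤ sz h n)
  have e2 := mem_band h3 (by omega : s' ≤ sz h n')
  have e3 := mem_band (h := h) (n := n') (s := s' + 1) (by omega) h4
  have e4 := mem_band (h := h) (n := n) (s := s + 1) (by omega) h2
  push_cast at e3 e4
  obtain rfl := band_unique (h := h) (m := n) (n := n') (w := w) (by linarith [e1.1])
    (by linarith [e4.2]) (by linarith [e2.1]) (by linarith [e3.2])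
  refine ⟨rfl, ?_⟩
  have c1 : (s' : ℝ) < s + 1 := by linarith
  have c2 : (s : ℝ) < s' + 1 := by linarith
  have d1 : s' < s + 1 := by exact_mod_cast c1
  have d2 : s < s' + 1 := by exact_mod_cast c2
  omega

theorem AR_unique {w : ℝ} {F F' : Finset V} (hq : AR h w F) (hq' : AR h w F') : F = F' := by
  rcases hq with ⟨α, s, s1, s2, rfl, rfl⟩ | ⟨α, s, s1, s2, w1, w2, rfl⟩
  · rcases hq' with ⟨α', s', s1', s2', he, rfl⟩ | ⟨α', s', s1', s2', w1', w2', rfl⟩
    · obtain ⟨rfl, rfl⟩ := pos_unique s1 s2 s1' s2' he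
      rfl
    · exact (not_between s1 s2 s1' s2' w1' w2').elim
  · rcases hq' with ⟨α', s', s1', s2', rfl, rfl⟩ | ⟨α', s', s1', s2', w1', w2', rfl⟩
    · exact (not_between s1' s2' s1 s2 w1 w2).elim
    · obtain ⟨rfl, rfl⟩ := between_unique s1 s2 s1' s2' w1 w2 w1' w2'
      rfl

theorem BR_unique {w : ℝ} {F F' : Finset V} (hq : BR h w F) (hq' : BR h w F') : F = F' := by
  rcases hq with ⟨α, s, s1, s2, rfl, rfl⟩ | ⟨α, s, s1, s2, w1, w2, rfl⟩
  · rcases hq' with ⟨α', s', s1', s2', he, rfl⟩ | ⟨α', s', s1', s2', w1', w2', rfl⟩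
    · obtain ⟨rfl, rfl⟩ := pos_unique s1 s2 s1' s2' he
      rfl
    · exact (not_between s1 s2 s1' s2' w1' w2').elim
  · rcases hq' with ⟨α', s', s1', s2', rfl, rfl⟩ | ⟨α', s', s1', s2', w1', w2', rfl⟩
    · exact (not_between s1' s2' s1 s2 w1 w2).elim
    · obtain ⟨rfl, rfl⟩ := between_unique s1 s2 s1' s2' w1 w2 w1' w2'
      rfl

end Pool.Agent.Helper40.Surf
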