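import Mathlib
set_option autoImplicit false
set_option linter.unusedSectionVars false

/-!
# Triangulated surfaces in 3-space: from vertex-indexed data to simplicial complexes
-/

namespace Pool.Agent.Helper40.Surf

open Finset Relation

/-- Euclidean 3-space -/
abbrev E3 := EuclideanSpace ℝ (Fin 3)

section abstract_part

variable {V : Type*} [DecidableEq V]

/-- adjacency in the link of `v` -/
def LA (T : Finset (Finset V)) (v a b : V) : Prop :=
  ∃ t ∈ T, v ∈ t ∧ a ∈ t ∧ b ∈ t ∧ a ≠ v ∧ b ≠ v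

/-- adjacency (or equality) of vertices -/
def GA (T : Finset (Finset V)) (a b : V) : Prop := ∃ t ∈ T, a ∈ t ∧ b ∈ t

/-- `T` is the set of triangles of a closed connected combinatorial surface -/
structure IsComb (T : Finset (Finset V)) : Prop where
  nonempty : T.Nonempty
  card3 : ∀ t ∈ T, t.card = 3
  two : ∀ t ∈ T, ∀ v ∈ t, ∃ v', v' ∉ t ∧ insert v' (t.erase v) ∈ T ∧
    ∀ w, w ∉ t → insert w (t.erase v) ∈ T → w = v'
  link : ∀ v a b, LA T v a a → LA T v b b → ReflTransGen (LA T v) a b
  conn : ∀ a b, GA T a a → GA T b b → ReflTransGen (GA T) a b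

/-- the triangles of `T`, with vertices placed by `pos`, form an embedded complex -/
structure IsGeom (pos : V → E3) (T : Finset (Finset V)) : Prop where
  indep : ∀ t ∈ T, AffineIndependent ℝ (fun v : t => pos v)
  inter : ∀ t ∈ T, ∀ t' ∈ T,
    convexHull ℝ (pos '' (t : Set V)) ∩ convexHull ℝ (pos '' (t' : Set V)) ⊆
      convexHull ℝ (pos '' ((t : Set V) ∩ (t' : Set V)))

theorem injOn_of_indep {pos : V → E3} {t : Finset V}
    (h : AffineIndependent ℝ (fun v : t => pos v)) : Set.InjOn pos (t : Set V) := by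
  intro a ha b hb hab
  have := h.injective (a₁ := ⟨a, ha⟩) (a₂ := ⟨b, hb⟩) hab
  simpa using this

theorem indep_image {pos : V → E3} {t : Finset V} [DecidableEq E3]
    (h : AffineIndependent ℝ (fun v : t => pos v)) :
    AffineIndependent ℝ ((↑) : ((t.image pos : Finset E3)) → E3) := by
  have h1 : AffineIndependent ℝ (fun v : (Set.range fun v : t => pos v) => (v : E3)) := h.range
  have h2 : (Set.range fun v : t => pos v) = ((t.image pos : Finset E3) : Set E3) := by
    ext x; simp
  rw [h2] at h1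
  exact h1

theorem mem_of_mem_hull {pos : V → E3} {t : Finset V}
    (h : AffineIndependent ℝ (fun v : t => pos v)) {v : V} (hv : v ∈ t) {s : Set V}
    (hs : s ⊆ (t : Set V)) (hm : pos v ∈ convexHull ℝ (pos '' s)) : v ∈ s := by
  classical
  by_contra hvs
  have h1 := indep_image h
  set S : Finset E3 := (t.filter (· ∈ s)).image pos with hS
  have e1 : pos '' s = (S : Set E3) := by
    ext x
    simp only [hS, Set.mem_image, coe_image, coe_filter]
    constructor
    · rintro ⟨y, hy, rfl⟩; exact ⟨y, ⟨hs hy, hy⟩, rfl⟩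
    · rintro ⟨y, hy, rfl⟩; exact ⟨y, hy.2, rfl⟩
  have hsub : S ⊆ t.image pos := Finset.image_subset_image (Finset.filter_subset _ _)
  have hsub2 : ({pos v} : Finset E3) ⊆ t.image pos := by
    simp only [singleton_subset_iff, mem_image]; exact ⟨v, hv, rfl⟩
  have h2 := h1.convexHull_inter (t₁ := {pos v}) (t₂ := S) hsub2 hsub
  have h3 : ({pos v} : Set E3) ∩ (S : Set E3) = ∅ := by
    rw [Set.singleton_inter_eq_empty]
    intro hmem
    rw [← e1] at hmem
    obtain ⟨y, hy, hyv⟩ := hmem
    have := injOn_of_indep h (hs hy) hv hyv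
    exact hvs (this ▸ hy)
  have h4 : pos v ∈ convexHull ℝ (({pos v} : Finset E3) : Set E3) ∩ convexHull ℝ (S : Set E3) := by
    refine ⟨?_, e1 ▸ hm⟩
    simp
  rw [← h2, Finset.coe_singleton, h3] at h4
  simp at h4

theorem IsGeom.injOn {pos : V → E3} {T : Finset (Finset V)} (h : IsGeom pos T)
    {t t' : Finset V} (ht : t ∈ T) (ht' : t' ∈ T) {v v' : V} (hv : v ∈ t) (hv' : v' ∈ t')
    (he : pos v = pos v') : v = v' := by
  have h1 : pos v ∈ convexHull ℝ (pos '' ((t : Set V) ∩ (t' : Set V))) := by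
    refine h.inter t ht t' ht' ⟨subset_convexHull ℝ _ ⟨v, hv, rfl⟩, ?_⟩
    rw [he]
    exact subset_convexHull ℝ _ ⟨v', hv', rfl⟩
  have h2 := mem_of_mem_hull (h.indep t ht) hv Set.inter_subset_left h1
  exact injOn_of_indep (h.indep t' ht') h2.2 hv' he


section transfer

open Classical in
/-- the triangles as sets of points -/
noncomputable def img (pos : V → E3) (T : Finset (Finset V)) : Finset (Finset E3) :=
  T.image (fun t => t.image pos)

theorem mem_img {pos : V → E3} {T : Finset (Finset V)} {s : Finset E3} :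
    s ∈ img pos T ↔ ∃ t ∈ T, (open Classical in t.image pos) = s := by
  classical
  unfold img
  simp only [Finset.mem_image]

open Classical in
theorem IsGeom.img {pos : V → E3} {T : Finset (Finset V)} (h : IsGeom pos T) :
    IsGeom id (img pos T) where
  indep := by
    intro s hs
    obtain ⟨t, ht, rfl⟩ := mem_img.mp hs
    exact indep_image (h.indep t ht)
  inter := by
    intro s hs s' hs'
    obtain ⟨t, ht, rfl⟩ := mem_img.mp hs
    obtain ⟨t', ht', rfl⟩ := mem_img.mp hs'
    simp only [Set.image_id, coe_image]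
    refine (h.inter t ht t' ht').trans (convexHull_mono ?_)
    rintro _ ⟨x, ⟨hx, hx'⟩, rfl⟩
    exact ⟨⟨x, hx, rfl⟩, ⟨x, hx', rfl⟩⟩

open Classical in
theorem IsComb.img {pos : V → E3} {T : Finset (Finset V)} (h : IsComb T) (g : IsGeom pos T) :
    IsComb (img pos T) where
  nonempty := by
    obtain ⟨t, ht⟩ := h.nonempty
    exact ⟨_, mem_img.mpr ⟨t, ht, rfl⟩⟩
  card3 := by
    intro s hs
    obtain ⟨t, ht, rfl⟩ := mem_img.mp hs
    rw [card_image_of_injOn (injOn_of_indep (g.indep t ht)), h.card3 t ht]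
  two := by
    intro s hs w hw
    obtain ⟨t, ht, rfl⟩ := mem_img.mp hs
    obtain ⟨v, hv, rfl⟩ := Finset.mem_image.mp hw
    obtain ⟨v', hv', hT, hu⟩ := h.two t ht v hv
    have herase : (t.image pos).erase (pos v) = (t.erase v).image pos := by
      ext x
      simp only [mem_erase, mem_image, ne_eq]
      constructor
      · rintro ⟨h1, y, hy, rfl⟩
        exact ⟨y, ⟨fun e => h1 (by rw [e]), hy⟩, rfl⟩
      · rintro ⟨y, ⟨h1, hy⟩, rfl⟩
        exact ⟨fun e => h1 (g.injOn ht ht hy hv e), y, hy, rfl⟩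
    refine ⟨pos v', ?_, ?_, ?_⟩
    · intro hm
      obtain ⟨y, hy, hyv⟩ := Finset.mem_image.mp hm
      have := g.injOn ht hT hy (mem_insert_self v' _) hyv
      exact hv' (this ▸ hy)
    · rw [herase, ← image_insert]
      exact mem_img.mpr ⟨_, hT, rfl⟩
    · intro w hw2 hw3
      rw [herase] at hw3
      obtain ⟨s, hs, hse⟩ := mem_img.mp hw3
      have hw4 : w ∈ s.image pos := by rw [hse]; exact mem_insert_self _ _
      obtain ⟨u, hu1, rfl⟩ := Finset.mem_image.mp hw4
      have hsub : t.erase v ⊆ s := by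
        intro x hx
        have hx1 : pos x ∈ s.image pos := by
          rw [hse]; exact mem_insert_of_mem (mem_image_of_mem _ hx)
        obtain ⟨y, hy, hyx⟩ := Finset.mem_image.mp hx1
        have := g.injOn hs ht hy (mem_of_mem_erase hx) hyx
        exact this ▸ hy
      have hut : u ∉ t := fun e => hw2 (mem_image_of_mem _ e)
      have hins : insert u (t.erase v) = s := by
        apply eq_of_subset_of_card_le
        · intro x hx
          rcases mem_insert.mp hx with rfl | hx
          · exact hu1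
          · exact hsub hx
        · rw [h.card3 s hs, card_insert_of_notMem (fun e => hut (mem_of_mem_erase e)),
            card_erase_of_mem hv, h.card3 t ht]
      rw [hu u hut (hins ▸ hs)]
  link := by
    rintro v a b ⟨s, hs, hv, ha, -, hav, -⟩ ⟨s', hs', hv', hb, -, hbv, -⟩
    obtain ⟨t, ht, rfl⟩ := mem_img.mp hs
    obtain ⟨t', ht', rfl⟩ := mem_img.mp hs'
    obtain ⟨v0, hv0, rfl⟩ := Finset.mem_image.mp hv
    obtain ⟨a0, ha0, rfl⟩ := Finset.mem_image.mp ha
    obtain ⟨b0, hb0, rfl⟩ := Finset.mem_image.mp hb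
    obtain ⟨v1, hv1, hv10⟩ := Finset.mem_image.mp hv'
    have hvv := g.injOn ht' ht hv1 hv0 hv10
    subst hvv
    have ha1 : a0 ≠ v1 := fun e => hav (by rw [e])
    have hb1 : b0 ≠ v1 := fun e => hbv (by rw [e])
    have := h.link v1 a0 b0 ⟨t, ht, hv0, ha0, ha0, ha1, ha1⟩ ⟨t', ht', hv1, hb0, hb0, hb1, hb1⟩
    refine ReflTransGen.lift pos ?_ _ _ this
    rintro c d ⟨r, hr, h1, h2, h3, h4, h5⟩
    refine ⟨r.image pos, mem_img.mpr ⟨r, hr, rfl⟩, mem_image_of_mem _ h1, mem_image_of_mem _ h2,
      mem_image_of_mem _ h3, fun e => h4 (g.injOn hr hr h2 h1 e),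
      fun e => h5 (g.injOn hr hr h3 h1 e)⟩
  conn := by
    rintro a b ⟨s, hs, ha, -⟩ ⟨s', hs', hb, -⟩
    obtain ⟨t, ht, rfl⟩ := mem_img.mp hs
    obtain ⟨t', ht', rfl⟩ := mem_img.mp hs'
    obtain ⟨a0, ha0, rfl⟩ := Finset.mem_image.mp ha
    obtain ⟨b0, hb0, rfl⟩ := Finset.mem_image.mp hb
    have := h.conn a0 b0 ⟨t, ht, ha0, ha0⟩ ⟨t', ht', hb0, hb0⟩
    refine ReflTransGen.lift pos ?_ _ _ this
    rintro c d ⟨r, hr, h1, h2⟩
    exact ⟨r.image pos, mem_img.mpr ⟨r, hr, rfl⟩, mem_image_of_mem _ h1, mem_image_of_mem _ h2⟩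

open Classical in
theorem card_img {pos : V → E3} {T : Finset (Finset V)} (h : IsComb T) (g : IsGeom pos T) :
    (img pos T).card = T.card := by
  unfold Surf.img
  apply card_image_of_injOn
  intro t ht t' ht' he
  simp only at he
  apply eq_of_subset_of_card_le
  · intro x hx
    have hx1 : pos x ∈ t'.image pos := by rw [← he]; exact mem_image_of_mem _ hx
    obtain ⟨y, hy, hyx⟩ := Finset.mem_image.mp hx1
    have := g.injOn ht' ht hy hx hyx
    exact this ▸ hy
  · rw [h.card3 t ht, h.card3 t' ht']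

open Classical in
theorem card_verts_img {pos : V → E3} {T : Finset (Finset V)} :
    ((img pos T).biUnion id).card ≤ (T.biUnion id).card := by
  refine le_trans (card_le_card ?_) (card_image_le (f := pos))
  intro x hx
  obtain ⟨s, hs, hxs⟩ := mem_biUnion.mp hx
  obtain ⟨t, ht, rfl⟩ := mem_img.mp hs
  obtain ⟨y, hy, rfl⟩ := Finset.mem_image.mp hxs
  exact mem_image_of_mem _ (mem_biUnion.mpr ⟨t, ht, hy⟩)

end transfer

end abstract_part

end Pool.Agent.Helper40.Surf
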