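import Mathlib
import Pool.Agent.Helper40.Surf.Defs
import Pool.Agent.Helper40.Surf.Frame
set_option autoImplicit false

/-!
# Every edge is in exactly two triangles
-/

namespace Pool.Agent.Helper40.Surf

open Finset

variable {h L K : ℕ}

theorem two_b (ok : Ok h L K) {x y : ℕ} {u v : V} (hl : Lk h L K x y u v) :
    ∃ v', v' ≠ v ∧ Lk h L K x y u v' ∧ ∀ w, Lk h L K x y u w → w = v ∨ w = v' := by
  obtain ⟨h4, h2, L2, Le, K2, Ke⟩ := id ok
  rcases u with ⟨a, b⟩ | ⟨a, b⟩ | ⟨a, b⟩ | ⟨a, b⟩ | ⟨a⟩ | ⟨a⟩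
  · rw [Lk_A ok] at hl
    obtain ⟨c1, c2, c3, c4, c5, c6, c7, c8, hv⟩ := hl
    have hne := mid_ne ok (α := a) (s := b) c3
    rcases hv with rfl | rfl
    · refine ⟨mid h K a b y, hne.symm, (Lk_A ok _ _ _ _ _).mpr
        ⟨c1, c2, c3, c4, c5, c6, c7, c8, Or.inr rfl⟩, fun w hw => ?_⟩
      exact ((Lk_A ok _ _ _ _ _).mp hw).2.2.2.2.2.2.2.2
    · refine ⟨mid h K a b (y - 1), hne, (Lk_A ok _ _ _ _ _).mpr
        ⟨c1, c2, c3, c4, c5, c6, c7, c8, Or.inl rfl⟩, fun w hw => ?_⟩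
      exact ((Lk_A ok _ _ _ _ _).mp hw).2.2.2.2.2.2.2.2.symm
  · rw [Lk_B ok] at hl
    obtain ⟨c1, c2, c3, c4, c5, c6, c7, c8, hv⟩ := hl
    have hne := midr_ne ok (β := a) (s := b) c3
    rcases hv with rfl | rfl
    · refine ⟨midr h L a b x, hne.symm, (Lk_B ok _ _ _ _ _).mpr
        ⟨c1, c2, c3, c4, c5, c6, c7, c8, Or.inr rfl⟩, fun w hw => ?_⟩
      exact ((Lk_B ok _ _ _ _ _).mp hw).2.2.2.2.2.2.2.2
    · refine ⟨midr h L a b (x - 1), hne, (Lk_B ok _ _ _ _ _).mpr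
        ⟨c1, c2, c3, c4, c5, c6, c7, c8, Or.inl rfl⟩, fun w hw => ?_⟩
      exact ((Lk_B ok _ _ _ _ _).mp hw).2.2.2.2.2.2.2.2.symm
  · exact absurd hl not_Lk_C
  · have hne1 : V.A a (h - 1) ≠ V.A a h := by
      intro e; injection e; omega
    have hne2 : V.B b 1 ≠ V.B b 2 := by
      intro e; injection e; omega
    simp only [Lk_E ok] at hl ⊢
    obtain ⟨c1, c2, c3, c4, c5, ⟨c6, c7, rfl | rfl⟩ | ⟨c6, c7, rfl | rfl⟩⟩ := hl
    · exact ⟨V.A a h, hne1.symm, ⟨c1, c2, c3, c4, c5, Or.inl ⟨c6, c7, Or.inr rfl⟩⟩, by grind⟩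
    · exact ⟨V.A a (h - 1), hne1, ⟨c1, c2, c3, c4, c5, Or.inl ⟨c6, c7, Or.inl rfl⟩⟩, by grind⟩
    · exact ⟨V.B b 2, hne2.symm, ⟨c1, c2, c3, c4, c5, Or.inr ⟨c6, c7, Or.inr rfl⟩⟩, by grind⟩
    · exact ⟨V.B b 1, hne2, ⟨c1, c2, c3, c4, c5, Or.inr ⟨c6, c7, Or.inl rfl⟩⟩, by grind⟩
  · have hne1 : V.A a 1 ≠ V.A a h := by
      intro e; injection e; omega
    simp only [Lk_X ok] at hl ⊢
    obtain ⟨c1, c2, c3, c4, c5, rfl | rfl⟩ := hl
    · exact ⟨V.A a h, hne1.symm, ⟨c1, c2, c3, c4, c5, Or.inr rfl⟩, by grind⟩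
    · exact ⟨V.A a 1, hne1, ⟨c1, c2, c3, c4, c5, Or.inl rfl⟩, by grind⟩
  · have hne1 : V.B a 1 ≠ V.B a h := by
      intro e; injection e; omega
    simp only [Lk_Y ok] at hl ⊢
    obtain ⟨c1, c2, c3, c4, c5, rfl | rfl⟩ := hl
    · exact ⟨V.B a h, hne1.symm, ⟨c1, c2, c3, c4, c5, Or.inr rfl⟩, by grind⟩
    · exact ⟨V.B a 1, hne1, ⟨c1, c2, c3, c4, c5, Or.inl rfl⟩, by grind⟩

theorem mid_inj (ok : Ok h L K) {α s β β' : ℕ} (hb : β ≤ K + 1) (hb' : β' ≤ K + 1)
    (he : mid h K α s β = mid h K α s β') :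
    β = β' ∨ (β = 0 ∧ β' = K + 1) ∨ (β = K + 1 ∧ β' = 0) := by
  obtain ⟨h4, h2, L2, Le, K2, Ke⟩ := ok
  simp only [mid] at he
  grind (splits := 25)

theorem midr_inj (ok : Ok h L K) {β s α α' : ℕ} (hb : α ≤ L + 1) (hb' : α' ≤ L + 1)
    (he : midr h L β s α = midr h L β s α') :
    α = α' ∨ (α = 0 ∧ α' = L + 1) ∨ (α = L + 1 ∧ α' = 0) := by
  obtain ⟨h4, h2, L2, Le, K2, Ke⟩ := ok
  simp only [midr] at he
  grind (splits := 25)

theorem mid_ends (ok : Ok h L K) (α s : ℕ) : mid h K α s 0 = mid h K α s (K + 1) := by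
  simp [mid]

theorem midr_ends (ok : Ok h L K) (β s : ℕ) : midr h L β s 0 = midr h L β s (L + 1) := by
  simp [midr]

/-- the two centres of a pair containing a column -/
theorem two_aA (ok : Ok h L K) {x y α s : ℕ} {v : V} (hl : Lk h L K x y (.A α s) v) :
    ∃ x' y', ¬ (x' = x ∧ y' = y) ∧ Lk h L K x' y' (.A α s) v ∧
      ∀ x'' y'', Lk h L K x'' y'' (.A α s) v → (x'' = x ∧ y'' = y) ∨ (x'' = x' ∧ y'' = y') := by
  obtain ⟨h4, h2, L2, Le, K2, Ke⟩ := id ok
  simp only [Lk_A ok] at hl ⊢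
  obtain ⟨c1, c2, c3, c4, c5, c6, c7, c8, hv⟩ := hl
  obtain ⟨β, hβ, hv⟩ : ∃ β, (β = y - 1 ∨ β = y) ∧ v = mid h K α s β := by
    rcases hv with hv | hv
    · exact ⟨_, Or.inl rfl, hv⟩
    · exact ⟨_, Or.inr rfl, hv⟩
  have hβK : β ≤ K + 1 := by omega
  have key : ∀ β', β' ≤ K + 1 → v = mid h K α s β' →
      β' = β ∨ (β = 0 ∧ β' = K + 1) ∨ (β = K + 1 ∧ β' = 0) := by
    intro β' h' e
    rcases mid_inj ok hβK h' (hv.symm.trans e) with h1 | h1 | h1
    · left; exact h1.symm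
    · right; left; exact h1
    · right; right; exact h1
  have ends := mid_ends ok α s
  by_cases hin : β = 0 ∨ β = K + 1
  · -- closing pair: the other centre is at the other end
    have e0 : v = mid h K α s 0 := by
      rcases hin with rfl | rfl
      · exact hv
      · rw [hv, ends]
    have e1 : v = mid h K α s (K + 1) := by rw [e0, ends]
    refine ⟨x, K + 2 - y, by omega, ⟨c1, by omega, by omega, by omega, c5, c6, c7, c8, ?_⟩, ?_⟩
    · have : y = 1 ∨ y = K + 1 := by omega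
      rcases this with rfl | rfl
      · right
        have : K + 2 - 1 = K + 1 := by omega
        rw [this]; exact e1
      · left
        have : K + 2 - (K + 1) - 1 = 0 := by omega
        rw [this]; exact e0
    · rintro x'' y'' ⟨d1, d2, d3, d4, d5, d6, d7, d8, d9⟩
      have : y'' = 1 ∨ y'' = K + 1 := by
        rcases d9 with d9 | d9
        · rcases key _ (by omega) d9 with e | e | e <;> omega
        · rcases key _ (by omega) d9 with e | e | e <;> omega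
      omega
  · refine ⟨2 * α + 1 - x, 2 * β + 1 - y, by omega,
      ⟨by omega, by omega, by omega, by omega, c5, c6, c7, c8, ?_⟩, ?_⟩
    · have : 2 * β + 1 - y = β ∨ 2 * β + 1 - y - 1 = β := by omega
      rcases this with e | e
      · right; rw [e]; exact hv
      · left; rw [e]; exact hv
    · rintro x'' y'' ⟨d1, d2, d3, d4, d5, d6, d7, d8, d9⟩
      have : y'' = β ∨ y'' = β + 1 := by
        rcases d9 with d9 | d9
        · rcases key _ (by omega) d9 with e | e | e <;> omega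
        · rcases key _ (by omega) d9 with e | e | e <;> omega
      omega

/-- the two centres of a pair containing a row -/
theorem two_aB (ok : Ok h L K) {x y β s : ℕ} {v : V} (hl : Lk h L K x y (.B β s) v) :
    ∃ x' y', ¬ (x' = x ∧ y' = y) ∧ Lk h L K x' y' (.B β s) v ∧
      ∀ x'' y'', Lk h L K x'' y'' (.B β s) v → (x'' = x ∧ y'' = y) ∨ (x'' = x' ∧ y'' = y') := by
  obtain ⟨h4, h2, L2, Le, K2, Ke⟩ := id ok
  simp only [Lk_B ok] at hl ⊢
  obtain ⟨c1, c2, c3, c4, c5, c6, c7, c8, hv⟩ := hl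
  obtain ⟨α, hα, hv⟩ : ∃ α, (α = x - 1 ∨ α = x) ∧ v = midr h L β s α := by
    rcases hv with hv | hv
    · exact ⟨_, Or.inl rfl, hv⟩
    · exact ⟨_, Or.inr rfl, hv⟩
  have hαL : α ≤ L + 1 := by omega
  have key : ∀ α', α' ≤ L + 1 → v = midr h L β s α' →
      α' = α ∨ (α = 0 ∧ α' = L + 1) ∨ (α = L + 1 ∧ α' = 0) := by
    intro α' h' e
    rcases midr_inj ok hαL h' (hv.symm.trans e) with h1 | h1 | h1
    · left; exact h1.symm
    · right; left; exact h1
    · right; right; exact h1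
  have ends := midr_ends ok β s
  by_cases hin : α = 0 ∨ α = L + 1
  · have e0 : v = midr h L β s 0 := by
      rcases hin with rfl | rfl
      · exact hv
      · rw [hv, ends]
    have e1 : v = midr h L β s (L + 1) := by rw [e0, ends]
    refine ⟨L + 2 - x, y, by omega, ⟨c1, by omega, by omega, by omega, c5, c6, c7, c8, ?_⟩, ?_⟩
    · have : x = 1 ∨ x = L + 1 := by omega
      rcases this with rfl | rfl
      · right
        have : L + 2 - 1 = L + 1 := by omega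
        rw [this]; exact e1
      · left
        have : L + 2 - (L + 1) - 1 = 0 := by omega
        rw [this]; exact e0
    · rintro x'' y'' ⟨d1, d2, d3, d4, d5, d6, d7, d8, d9⟩
      have : x'' = 1 ∨ x'' = L + 1 := by
        rcases d9 with d9 | d9
        · rcases key _ (by omega) d9 with e | e | e <;> omega
        · rcases key _ (by omega) d9 with e | e | e <;> omega
      omega
  · refine ⟨2 * α + 1 - x, 2 * β + 1 - y, by omega,
      ⟨by omega, by omega, by omega, by omega, c5, c6, c7, c8, ?_⟩, ?_⟩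
    · have : 2 * α + 1 - x = α ∨ 2 * α + 1 - x - 1 = α := by omega
      rcases this with e | e
      · right; rw [e]; exact hv
      · left; rw [e]; exact hv
    · rintro x'' y'' ⟨d1, d2, d3, d4, d5, d6, d7, d8, d9⟩
      have : x'' = α ∨ x'' = α + 1 := by
        rcases d9 with d9 | d9
        · rcases key _ (by omega) d9 with e | e | e <;> omega
        · rcases key _ (by omega) d9 with e | e | e <;> omega
      omega

theorem two_a (ok : Ok h L K) {x y : ℕ} {u v : V} (hl : Lk h L K x y u v) :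
    ∃ x' y', ¬ (x' = x ∧ y' = y) ∧ Lk h L K x' y' u v ∧
      ∀ x'' y'', Lk h L K x'' y'' u v → (x'' = x ∧ y'' = y) ∨ (x'' = x' ∧ y'' = y') := by
  have swap : ∀ u v : V, (∃ x' y', ¬ (x' = x ∧ y' = y) ∧ Lk h L K x' y' u v ∧
      ∀ x'' y'', Lk h L K x'' y'' u v → (x'' = x ∧ y'' = y) ∨ (x'' = x' ∧ y'' = y')) →
      ∃ x' y', ¬ (x' = x ∧ y' = y) ∧ Lk h L K x' y' v u ∧
      ∀ x'' y'', Lk h L K x'' y'' v u → (x'' = x ∧ y'' = y) ∨ (x'' = x' ∧ y'' = y') := by
    rintro u v ⟨x', y', h1, h2, h3⟩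
    exact ⟨x', y', h1, h2.symm, fun x'' y'' h' => h3 _ _ h'.symm⟩
  rcases u with ⟨a, b⟩ | ⟨a, b⟩ | ⟨a, b⟩ | ⟨a, b⟩ | ⟨a⟩ | ⟨a⟩
  · exact two_aA ok hl
  · exact two_aB ok hl
  · exact absurd hl not_Lk_C
  · apply swap
    have h1 := (Lk_E ok _ _ _ _ _).mp hl
    rcases h1 with ⟨-, -, -, -, -, ⟨-, -, rfl | rfl⟩ | ⟨-, -, rfl | rfl⟩⟩
    · exact two_aA ok hl.symm
    · exact two_aA ok hl.symm
    · exact two_aB ok hl.symm
    · exact two_aB ok hl.symm
  · apply swap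
    have h1 := (Lk_X ok _ _ _ _).mp hl
    rcases h1 with ⟨-, -, -, -, -, rfl | rfl⟩
    · exact two_aA ok hl.symm
    · exact two_aA ok hl.symm
  · apply swap
    have h1 := (Lk_Y ok _ _ _ _).mp hl
    rcases h1 with ⟨-, -, -, -, -, rfl | rfl⟩
    · exact two_aB ok hl.symm
    · exact two_aB ok hl.symm

theorem not_Lk_self {x y : ℕ} {u : V} : ¬ Lk h L K x y u u := by
  rintro ⟨α, β, -, hp⟩
  rcases u with ⟨a, b⟩ | ⟨a, b⟩ | ⟨a, b⟩ | ⟨a, b⟩ | ⟨a⟩ | ⟨a⟩ <;> simp [Pr] at hp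

/-- not a centre -/
def NC : V → Prop
  | .C _ _ => False
  | _ => True

theorem NC_of_Lk {x y : ℕ} {u v : V} (hl : Lk h L K x y u v) : NC u := by
  rcases u with ⟨a, b⟩ | ⟨a, b⟩ | ⟨a, b⟩ | ⟨a, b⟩ | ⟨a⟩ | ⟨a⟩ <;>
    first | exact trivial | exact absurd hl not_Lk_C

theorem NC.ne {x y : ℕ} {u : V} (hu : NC u) : u ≠ .C x y := by
  rintro rfl; exact hu

/-- a finite set containing all vertices -/
def VV (h L K : ℕ) : Finset V :=
  ((range (L + 1) ×ˢ range (h + 1)).image fun p => V.A p.1 p.2) ∪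
  ((range (K + 1) ×ˢ range (h + 1)).image fun p => V.B p.1 p.2) ∪
  ((range (L + 2) ×ˢ range (K + 2)).image fun p => V.C p.1 p.2) ∪
  ((range (L + 1) ×ˢ range (K + 1)).image fun p => V.E p.1 p.2) ∪
  ((range (L + 1)).image fun p => V.X p) ∪
  ((range (K + 1)).image fun p => V.Y p)

theorem sz_le (h n : ℕ) : sz h n ≤ h := by
  unfold sz; split_ifs <;> omega

theorem mem_VV_of_Lk (ok : Ok h L K) {x y : ℕ} {u v : V} (hl : Lk h L K x y u v) :
    u ∈ VV h L K := by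
  have := sz_le h
  rcases u with ⟨a, b⟩ | ⟨a, b⟩ | ⟨a, b⟩ | ⟨a, b⟩ | ⟨a⟩ | ⟨a⟩
  · rw [Lk_A ok] at hl
    have := this a
    simp [VV]; omega
  · rw [Lk_B ok] at hl
    have := this a
    simp [VV]; omega
  · exact absurd hl not_Lk_C
  · rw [Lk_E ok] at hl
    simp [VV]; omega
  · rw [Lk_X ok] at hl
    simp [VV]; omega
  · rw [Lk_Y ok] at hl
    simp [VV]; omega

theorem mem_VV_C {x y : ℕ} {u v : V} (hl : Lk h L K x y u v) : V.C x y ∈ VV h L K := by
  obtain ⟨α, β, ⟨c1, c2, c3, c4, c5, c6, c7⟩, -⟩ := hl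
  simp [VV]; omega

open Classical in
/-- the set of triangles -/
noncomputable def TT (h L K : ℕ) : Finset (Finset V) :=
  (VV h L K).powerset.filter fun t => ∃ x y u v, Lk h L K x y u v ∧ t = {V.C x y, u, v}

theorem mem_TT (ok : Ok h L K) {t : Finset V} :
    t ∈ TT h L K ↔ ∃ x y u v, Lk h L K x y u v ∧ t = {V.C x y, u, v} := by
  classical
  unfold TT
  rw [mem_filter]
  constructor
  · exact fun hh => hh.2
  · rintro ⟨x, y, u, v, hl, rfl⟩
    refine ⟨?_, x, y, u, v, hl, rfl⟩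
    rw [mem_powerset]
    intro w hw
    simp only [mem_insert, mem_singleton] at hw
    rcases hw with rfl | rfl | rfl
    · exact mem_VV_C hl
    · exact mem_VV_of_Lk ok hl
    · exact mem_VV_of_Lk ok hl.symm

/-- recover the link relation from a triangle -/
theorem Lk_of_mem (ok : Ok h L K) {x y : ℕ} {u v : V} (hu : NC u) (hv : NC v) (huv : u ≠ v)
    (hm : ({V.C x y, u, v} : Finset V) ∈ TT h L K) : Lk h L K x y u v := by
  obtain ⟨x', y', u', v', hl, he⟩ := (mem_TT ok).mp hm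
  have hu' := NC_of_Lk hl
  have hv' := NC_of_Lk hl.symm
  have e1 : V.C x y ∈ ({V.C x' y', u', v'} : Finset V) := by rw [← he]; simp
  have e2 : u ∈ ({V.C x' y', u', v'} : Finset V) := by rw [← he]; simp
  have e3 : v ∈ ({V.C x' y', u', v'} : Finset V) := by rw [← he]; simp
  simp only [mem_insert, mem_singleton] at e1 e2 e3
  have hC : V.C x y = V.C x' y' := by
    rcases e1 with e | e | e
    · exact e
    · exact absurd e.symm hu'.ne
    · exact absurd e.symm hv'.ne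
  injection hC with hx hy
  subst hx hy
  have e2' := e2.resolve_left hu.ne
  have e3' := e3.resolve_left hv.ne
  rcases e2' with rfl | rfl <;> rcases e3' with rfl | rfl
  · exact absurd rfl huv
  · exact hl
  · exact hl.symm
  · exact absurd rfl huv

end Pool.Agent.Helper40.Surf
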