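import Mathlib
import Pool.Agent.Helper40.Surf.Two
set_option autoImplicit false

/-!
# Vertex links are connected
-/

namespace Pool.Agent.Helper40.Surf

open Finset Relation

variable {h L K : ℕ}

theorem sz_odd {n : ℕ} (hn : n % 2 = 1) : sz h n = h := by simp [sz, hn]
theorem sz_even {n : ℕ} (hn : n % 2 = 0) : sz h n = h - 2 := by simp [sz, hn]

section edges
variable {α β x y s s' : ℕ}

theorem lkAB (hc : Cor L K α β x y) (h1 : 1 ≤ α ∧ α ≤ L ∧ 1 ≤ β ∧ β ≤ K)
    (hp : (α + β) % 2 = 0) (hs : 1 ≤ s) (hs' : s ≤ sz h α) :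
    Lk h L K x y (.A α s) (.B β s) := by
  refine ⟨α, β, hc, Or.inl ?_⟩
  have : sz h α = sz h β := by
    unfold sz
    have : α % 2 = β % 2 := by omega
    rw [this]
  simp only [Pr, if_pos hp]
  refine ⟨trivial, trivial, ?_⟩
  constructorm* _ ∧ _ <;> first | trivial | omega

theorem lkAB' (hc : Cor L K α β x y) (h1 : 1 ≤ α ∧ α ≤ L ∧ 1 ≤ β ∧ β ≤ K)
    (hp : (α + β) % 2 = 1) (hs : 1 ≤ s) (hs' : s ≤ sz h α) (ht : 1 ≤ s') (ht' : s' ≤ sz h β)
    (he : s + s' = sz h β + 1) :
    Lk h L K x y (.A α s) (.B β s') := by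
  refine ⟨α, β, hc, Or.inl ?_⟩
  have : ¬ (α + β) % 2 = 0 := by omega
  simp only [Pr, if_neg this]
  refine ⟨trivial, trivial, ?_⟩
  constructorm* _ ∧ _ <;> first | trivial | omega

theorem lkAE (hc : Cor L K α β x y) (h1 : 1 ≤ α ∧ α ≤ L ∧ 1 ≤ β ∧ β ≤ K)
    (hp : α % 2 = 1 ∧ β % 2 = 0) (hs : s = h - 1 ∨ s = h) :
    Lk h L K x y (.A α s) (.E α β) := by
  refine ⟨α, β, hc, Or.inl ?_⟩
  simp only [Pr]
  constructorm* _ ∧ _ <;> first | trivial | omega

theorem lkBE (hc : Cor L K α β x y) (h1 : 1 ≤ α ∧ α ≤ L ∧ 1 ≤ β ∧ β ≤ K)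
    (hp : α % 2 = 0 ∧ β % 2 = 1) (hs : s = 1 ∨ s = 2) :
    Lk h L K x y (.B β s) (.E α β) := by
  refine ⟨α, β, hc, Or.inl ?_⟩
  simp only [Pr]
  constructorm* _ ∧ _ <;> first | trivial | omega

theorem lkAA (hc : Cor L K α β x y) (h1 : 1 ≤ α ∧ α ≤ L) (hb : β = 0 ∨ β = K + 1)
    (hs : 1 ≤ s) (hs' : s + 1 ≤ sz h α) (hp : (s + α) % 2 = 1) (he : s' = s + 1) :
    Lk h L K x y (.A α s) (.A α s') := by
  refine ⟨α, β, hc, Or.inl ?_⟩
  simp only [Pr]
  constructorm* _ ∧ _ <;> first | trivial | omega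

theorem lkBB (hc : Cor L K α β x y) (h1 : 1 ≤ β ∧ β ≤ K) (hb : α = 0 ∨ α = L + 1)
    (hs : 1 ≤ s) (hs' : s + 1 ≤ sz h β) (hp : (s + β) % 2 = 1) (he : s' = s + 1) :
    Lk h L K x y (.B β s) (.B β s') := by
  refine ⟨α, β, hc, Or.inl ?_⟩
  simp only [Pr]
  constructorm* _ ∧ _ <;> first | trivial | omega

theorem lkAX (hc : Cor L K α β x y) (h1 : 1 ≤ α ∧ α ≤ L) (hb : β = 0 ∨ β = K + 1)
    (hp : α % 2 = 1) (hs : s = 1 ∨ s = h) :
    Lk h L K x y (.A α s) (.X α) := by
  refine ⟨α, β, hc, Or.inl ?_⟩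
  simp only [Pr]
  constructorm* _ ∧ _ <;> first | trivial | omega

theorem lkBY (hc : Cor L K α β x y) (h1 : 1 ≤ β ∧ β ≤ K) (hb : α = 0 ∨ α = L + 1)
    (hp : β % 2 = 1) (hs : s = 1 ∨ s = h) :
    Lk h L K x y (.B β s) (.Y β) := by
  refine ⟨α, β, hc, Or.inl ?_⟩
  simp only [Pr]
  constructorm* _ ∧ _ <;> first | trivial | omega

end edges

/-- connected in the link of the centre `(x, y)` -/
def Rc (h L K x y : ℕ) (a b : V) : Prop := EqvGen (Lk h L K x y) a b

theorem Rc.of {x y : ℕ} {a b : V} (hl : Lk h L K x y a b) : Rc h L K x y a b := EqvGen.rel _ _ hl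

theorem Rc.trans {x y : ℕ} {a b c : V} (h1 : Rc h L K x y a b) (h2 : Rc h L K x y b c) :
    Rc h L K x y a c := EqvGen.trans _ _ _ h1 h2

theorem Rc.symm {x y : ℕ} {a b : V} (h1 : Rc h L K x y a b) :
    Rc h L K x y b a := EqvGen.symm _ _ h1

theorem Rc.refl {x y : ℕ} {a : V} : Rc h L K x y a a := EqvGen.refl _

/-- a chain with consecutive steps -/
theorem chain1 {x y n : ℕ} {f : ℕ → V}
    (hf : ∀ s, 1 ≤ s → s + 1 ≤ n → Rc h L K x y (f s) (f (s + 1))) :
    ∀ s, 1 ≤ s → s ≤ n → Rc h L K x y (f s) (f 1) := by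
  intro s hs
  induction s, hs using Nat.le_induction with
  | base => intro _; exact Rc.refl
  | succ k hk ih => intro hkn; exact (hf k hk hkn).symm.trans (ih (by omega))

/-- a chain with steps of length two -/
theorem chain2 {x y n : ℕ} {f : ℕ → V} (h0 : Rc h L K x y (f 1) (f 2))
    (hf : ∀ s, 1 ≤ s → s + 2 ≤ n → Rc h L K x y (f (s + 2)) (f s)) :
    ∀ s, 1 ≤ s → s ≤ n → Rc h L K x y (f s) (f 1) := by
  intro s
  induction s using Nat.strong_induction_on with
  | _ s ih =>
    intro hs hn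
    by_cases h1 : s = 1
    · subst h1; exact Rc.refl
    by_cases h2 : s = 2
    · subst h2; exact h0.symm
    obtain ⟨r, rfl⟩ : ∃ r, s = r + 2 := ⟨s - 2, by omega⟩
    exact (hf r (by omega) hn).trans (ih r (by omega) (by omega) (by omega))

/-- the hub chain at a centre with `x` even -/
theorem chain_even (ok : Ok h L K) {x y : ℕ} (hx : x % 2 = 0) (hx1 : 1 ≤ x) (hx2 : x ≤ L + 1)
    (hy : y % 2 = 1) (hy2 : y ≤ K + 1) :
    ∀ s, 1 ≤ s → s ≤ h → Rc h L K x y (.A (x - 1) s) (.A (x - 1) 1) := by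
  obtain ⟨h4, h2, L2, Le, K2, Ke⟩ := id ok
  obtain ⟨w, rfl⟩ : ∃ w, x = w + 1 := ⟨x - 1, by omega⟩
  rw [Nat.add_sub_cancel]
  have so1 : sz h w = h := sz_odd (by omega)
  have se1 : sz h (w + 1) = h - 2 := sz_even hx
  have e12 : y ≤ K → Rc h L K (w + 1) y (.A w 1) (.A w 2) := by
    intro hyK
    have soy : sz h y = h := sz_odd hy
    have c1 : Cor L K w y (w + 1) y := by unfold Cor; omega
    have c2 : Cor L K (w + 1) y (w + 1) y := by unfold Cor; omega
    refine (Rc.of (lkAB c1 (by omega) (by omega) (by omega) (by omega))).trans ?_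
    refine (Rc.of (lkBE c2 (by omega) (by omega) (Or.inl rfl))).trans ?_
    refine (Rc.of (lkBE c2 (by omega) (by omega) (Or.inr rfl)).symm).trans ?_
    exact Rc.of (lkAB c1 (by omega) (by omega) (by omega) (by omega)).symm
  by_cases hy1 : y = 1
  · subst hy1
    apply chain1 (f := fun s => V.A w s)
    intro s hs hn
    by_cases hs1 : s = 1
    · subst hs1; exact e12 (by omega)
    by_cases hse : s % 2 = 0
    · exact Rc.of (lkAA (β := 0) (by unfold Cor; omega) (by omega) (Or.inl rfl) hs (by omega)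
        (by omega) rfl)
    · have so : sz h 1 = h := sz_odd rfl
      have c1 : Cor L K w 1 (w + 1) 1 := by unfold Cor; omega
      have c2 : Cor L K (w + 1) 1 (w + 1) 1 := by unfold Cor; omega
      have c3 : Cor L K (w + 1) 0 (w + 1) 1 := by unfold Cor; omega
      refine (Rc.of (lkAB c1 (by omega) (by omega) (by omega) (by omega))).trans ?_
      refine (Rc.of (lkAB' (s := h + 1 - s) c2 (by omega) (by omega) (by omega) (by omega)
        (by omega) (by omega) (by omega)).symm).trans ?_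
      refine (Rc.of (lkAA (s := h - s) c3 (by omega) (Or.inl rfl) (by omega) (by omega)
        (by omega) (by omega)).symm).trans ?_
      refine (Rc.of (lkAB' (s' := s + 1) c2 (by omega) (by omega) (by omega) (by omega)
        (by omega) (by omega) (by omega))).trans ?_
      exact Rc.of (lkAB c1 (by omega) (by omega) (by omega) (by omega)).symm
  by_cases hyK : y = K + 1
  · subst hyK
    have sK : sz h K = h - 2 := sz_even Ke
    have c1 : Cor L K w K (w + 1) (K + 1) := by unfold Cor; omega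
    have c2 : Cor L K (w + 1) K (w + 1) (K + 1) := by unfold Cor; omega
    have c3 : Cor L K (w + 1) (K + 1) (w + 1) (K + 1) := by unfold Cor; omega
    have c4 : Cor L K w (K + 1) (w + 1) (K + 1) := by unfold Cor; omega
    apply chain1 (f := fun s => V.A w s)
    intro s hs hn
    by_cases hse : s % 2 = 0
    · exact Rc.of (lkAA c4 (by omega) (Or.inr rfl) hs (by omega) (by omega) rfl)
    by_cases hs1 : s = h - 1
    · refine (Rc.of (lkAE c1 (by omega) (by omega) (by omega))).trans ?_
      exact Rc.of (lkAE c1 (by omega) (by omega) (by omega)).symm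
    · refine (Rc.of (lkAB' (s' := h - 1 - s) c1 (by omega) (by omega) (by omega) (by omega)
        (by omega) (by omega) (by omega))).trans ?_
      refine (Rc.of (lkAB c2 (by omega) (by omega) (by omega) (by omega)).symm).trans ?_
      refine (Rc.of (lkAA (s := h - 2 - s) c3 (by omega) (Or.inr rfl) (by omega) (by omega)
        (by omega) (by omega)).symm).trans ?_
      refine (Rc.of (lkAB c2 (by omega) (by omega) (by omega) (by omega))).trans ?_
      exact Rc.of (lkAB' (s := s + 1) c1 (by omega) (by omega) (by omega) (by omega)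
        (by omega) (by omega) (by omega)).symm
  · obtain ⟨z, rfl⟩ : ∃ z, y = z + 1 := ⟨y - 1, by omega⟩
    have sz1 : sz h z = h - 2 := sz_even (by omega)
    have sz2 : sz h (z + 1) = h := sz_odd hy
    have c1 : Cor L K w (z + 1) (w + 1) (z + 1) := by unfold Cor; omega
    have c2 : Cor L K (w + 1) (z + 1) (w + 1) (z + 1) := by unfold Cor; omega
    have c3 : Cor L K (w + 1) z (w + 1) (z + 1) := by unfold Cor; omega
    have c4 : Cor L K w z (w + 1) (z + 1) := by unfold Cor; omega
    apply chain2 (f := fun s => V.A w s) (e12 (by omega))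
    intro s hs hn
    refine (Rc.of (lkAB c1 (by omega) (by omega) (by omega) (by omega))).trans ?_
    refine (Rc.of (lkAB' (s := h - 1 - s) c2 (by omega) (by omega) (by omega) (by omega)
        (by omega) (by omega) (by omega)).symm).trans ?_
    refine (Rc.of (lkAB c3 (by omega) (by omega) (by omega) (by omega))).trans ?_
    exact Rc.of (lkAB' (s := s) c4 (by omega) (by omega) (by omega) (by omega)
        (by omega) (by omega) (by omega)).symm

/-- the hub chain at a centre with `x` odd, `x < L` -/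
theorem chain_odd (ok : Ok h L K) {x y : ℕ} (hx : x % 2 = 1) (hx1 : 1 ≤ x) (hx2 : x < L)
    (hy : y % 2 = 0) (hy1 : 1 ≤ y) (hy2 : y ≤ K + 1) :
    ∀ s, 1 ≤ s → s ≤ h → Rc h L K x y (.A x s) (.A x 1) := by
  obtain ⟨h4, h2, L2, Le, K2, Ke⟩ := id ok
  obtain ⟨z, rfl⟩ : ∃ z, y = z + 1 := ⟨y - 1, by omega⟩
  have so1 : sz h x = h := sz_odd hx
  have soz : sz h z = h := sz_odd (by omega)
  have se1 : sz h (z + 1) = h - 2 := sz_even hy
  have c1 : Cor L K x z x (z + 1) := by unfold Cor; omega
  have c2 : Cor L K x (z + 1) x (z + 1) := by unfold Cor; omega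
  by_cases hx3 : x = 1
  · subst hx3
    have c3 : Cor L K 0 z 1 (z + 1) := by unfold Cor; omega
    have c4 : Cor L K 0 (z + 1) 1 (z + 1) := by unfold Cor; omega
    apply chain1 (f := fun s => V.A 1 s)
    intro s hs hn
    by_cases hse : s % 2 = 0
    · refine (Rc.of (lkAB c1 (by omega) (by omega) (by omega) (by omega))).trans ?_
      refine (Rc.of (lkBB c3 (by omega) (Or.inl rfl) hs (by omega) (by omega) rfl)).trans ?_
      exact (Rc.of (lkAB c1 (by omega) (by omega) (by omega) (by omega))).symm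
    by_cases hs1 : s = h - 1
    · refine (Rc.of (lkAE c2 (by omega) (by omega) (by omega))).trans ?_
      exact Rc.of (lkAE c2 (by omega) (by omega) (by omega)).symm
    · refine (Rc.of (lkAB' (s' := h - 1 - s) c2 (by omega) (by omega) (by omega) (by omega)
        (by omega) (by omega) (by omega))).trans ?_
      refine (Rc.of (lkBB (s := h - 2 - s) c4 (by omega) (Or.inl rfl) (by omega) (by omega)
        (by omega) (by omega)).symm).trans ?_
      exact Rc.of (lkAB' (s := s + 1) c2 (by omega) (by omega) (by omega) (by omega)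
        (by omega) (by omega) (by omega)).symm
  · obtain ⟨w, rfl⟩ : ∃ w, x = w + 1 := ⟨x - 1, by omega⟩
    have sw : sz h w = h - 2 := sz_even (by omega)
    have c3 : Cor L K w z (w + 1) (z + 1) := by unfold Cor; omega
    have c4 : Cor L K w (z + 1) (w + 1) (z + 1) := by unfold Cor; omega
    refine chain2 (f := fun s => V.A (w + 1) s) ?_ ?_
    · refine (Rc.of (lkAB c1 (by omega) (by omega) (by omega) (by omega))).trans ?_
      refine (Rc.of (lkBE c3 (by omega) (by omega) (Or.inl rfl))).trans ?_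
      refine (Rc.of (lkBE c3 (by omega) (by omega) (Or.inr rfl)).symm).trans ?_
      exact Rc.of (lkAB c1 (by omega) (by omega) (by omega) (by omega)).symm
    · intro s hs hn
      refine (Rc.of (lkAB c1 (by omega) (by omega) (by omega) (by omega))).trans ?_
      refine (Rc.of (lkAB' (s := h - 1 - s) c3 (by omega) (by omega) (by omega) (by omega)
          (by omega) (by omega) (by omega)).symm).trans ?_
      refine (Rc.of (lkAB c4 (by omega) (by omega) (by omega) (by omega))).trans ?_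
      exact Rc.of (lkAB' (s := s) c2 (by omega) (by omega) (by omega) (by omega)
          (by omega) (by omega) (by omega)).symm

/-- the hub chain at a centre with `x = L + 1` -/
theorem chain_last (ok : Ok h L K) {y : ℕ}
    (hy : y % 2 = 0) (hy1 : 1 ≤ y) (hy2 : y ≤ K + 1) :
    ∀ s, 1 ≤ s → s ≤ h → Rc h L K (L + 1) y (.B (y - 1) s) (.B (y - 1) 1) := by
  obtain ⟨h4, h2, L2, Le, K2, Ke⟩ := id ok
  obtain ⟨z, rfl⟩ : ∃ z, y = z + 1 := ⟨y - 1, by omega⟩
  rw [Nat.add_sub_cancel]
  have soz : sz h z = h := sz_odd (by omega)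
  have sL : sz h L = h - 2 := sz_even Le
  have se1 : sz h (z + 1) = h - 2 := sz_even hy
  have c1 : Cor L K (L + 1) z (L + 1) (z + 1) := by unfold Cor; omega
  have c2 : Cor L K L z (L + 1) (z + 1) := by unfold Cor; omega
  have c3 : Cor L K L (z + 1) (L + 1) (z + 1) := by unfold Cor; omega
  have c4 : Cor L K (L + 1) (z + 1) (L + 1) (z + 1) := by unfold Cor; omega
  apply chain1 (f := fun s => V.B z s)
  intro s hs hn
  by_cases hse : s % 2 = 0
  · exact Rc.of (lkBB c1 (by omega) (Or.inr rfl) hs (by omega) (by omega) rfl)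
  by_cases hs1 : s = 1
  · subst hs1
    refine (Rc.of (lkBE c2 (by omega) (by omega) (Or.inl rfl))).trans ?_
    exact Rc.of (lkBE c2 (by omega) (by omega) (Or.inr rfl)).symm
  · refine (Rc.of (lkAB' (s := h + 1 - s) c2 (by omega) (by omega) (by omega) (by omega)
        (by omega) (by omega) (by omega)).symm).trans ?_
    refine (Rc.of (lkAB c3 (by omega) (by omega) (by omega) (by omega))).trans ?_
    refine (Rc.of (lkBB (s := h - s) c4 (by omega) (Or.inr rfl) (by omega) (by omega)
        (by omega) (by omega)).symm).trans ?_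
    refine (Rc.of (lkAB c3 (by omega) (by omega) (by omega) (by omega)).symm).trans ?_
    exact Rc.of (lkAB' (s' := s + 1) c2 (by omega) (by omega) (by omega) (by omega)
        (by omega) (by omega) (by omega))

end Pool.Agent.Helper40.Surf
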