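import Mathlib
import Pool.Agent.Helper40.Surf.Link
set_option autoImplicit false

/-!
# The combinatorial surface
-/

namespace Pool.Agent.Helper40.Surf

open Finset Relation

variable {h L K : ℕ}

theorem hubA_even (ok : Ok h L K) {x y α s : ℕ} {b : V} (hx : x % 2 = 0)
    (hl : Lk h L K x y (.A α s) b) : Rc h L K x y (.A α s) (.A (x - 1) 1) := by
  obtain ⟨h4, h2, L2, Le, K2, Ke⟩ := id ok
  obtain ⟨c1, c2, c3, c4, c5, c6, c7, c8, -⟩ := (Lk_A ok _ _ _ _ _).mp hl
  have hub := chain_even ok (x := x) (y := y) hx (by omega) (by omega) (by omega) (by omega)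
  obtain ⟨w, rfl⟩ : ∃ w, x = w + 1 := ⟨x - 1, by omega⟩
  rw [Nat.add_sub_cancel] at hub ⊢
  have so1 : sz h w = h := sz_odd (by omega)
  have se1 : sz h (w + 1) = h - 2 := sz_even hx
  rcases c1 with c1 | c1
  · subst c1
    by_cases hyK : y ≤ K
    · have soy : sz h y = h := sz_odd (by omega)
      have k1 : Cor L K (w + 1) y (w + 1) y := by unfold Cor; omega
      have k2 : Cor L K w y (w + 1) y := by unfold Cor; omega
      refine (Rc.of (lkAB' (s' := h + 1 - s) k1 (by omega) (by omega) (by omega) (by omega)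
        (by omega) (by omega) (by omega))).trans ?_
      refine (Rc.of (lkAB k2 (by omega) (by omega) (by omega) (by omega)).symm).trans ?_
      exact hub _ (by omega) (by omega)
    · have hy : y = K + 1 := by omega
      subst hy
      have sK : sz h K = h - 2 := sz_even Ke
      have k1 : Cor L K (w + 1) K (w + 1) (K + 1) := by unfold Cor; omega
      have k2 : Cor L K w K (w + 1) (K + 1) := by unfold Cor; omega
      refine (Rc.of (lkAB k1 (by omega) (by omega) (by omega) (by omega))).trans ?_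
      refine (Rc.of (lkAB' (s := h - 1 - s) k2 (by omega) (by omega) (by omega) (by omega)
        (by omega) (by omega) (by omega)).symm).trans ?_
      exact hub _ (by omega) (by omega)
  · obtain rfl : w = α := by omega
    exact hub s c7 (by omega)

theorem hubB_even (ok : Ok h L K) {x y β s : ℕ} {b : V} (hx : x % 2 = 0)
    (hl : Lk h L K x y (.B β s) b) : Rc h L K x y (.B β s) (.A (x - 1) 1) := by
  obtain ⟨h4, h2, L2, Le, K2, Ke⟩ := id ok
  obtain ⟨c1, c2, c3, c4, c5, c6, c7, c8, -⟩ := (Lk_B ok _ _ _ _ _).mp hl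
  have hub := chain_even ok (x := x) (y := y) hx (by omega) (by omega) (by omega) (by omega)
  obtain ⟨w, rfl⟩ : ∃ w, x = w + 1 := ⟨x - 1, by omega⟩
  rw [Nat.add_sub_cancel] at hub ⊢
  have so1 : sz h w = h := sz_odd (by omega)
  rcases c1 with c1 | c1
  · subst c1
    have soy : sz h y = h := sz_odd (by omega)
    have k2 : Cor L K w y (w + 1) y := by unfold Cor; omega
    refine (Rc.of (lkAB k2 (by omega) (by omega) (by omega) (by omega)).symm).trans ?_
    exact hub _ (by omega) (by omega)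
  · subst c1
    have seb : sz h β = h - 2 := sz_even (by omega)
    have k2 : Cor L K w β (w + 1) (β + 1) := by unfold Cor; omega
    refine (Rc.of (lkAB' (s := h - 1 - s) k2 (by omega) (by omega) (by omega) (by omega)
        (by omega) (by omega) (by omega)).symm).trans ?_
    exact hub _ (by omega) (by omega)

theorem hubA_odd (ok : Ok h L K) {x y α s : ℕ} {b : V} (hx : x % 2 = 1) (hxL : x < L)
    (hl : Lk h L K x y (.A α s) b) : Rc h L K x y (.A α s) (.A x 1) := by
  obtain ⟨h4, h2, L2, Le, K2, Ke⟩ := id ok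
  obtain ⟨c1, c2, c3, c4, c5, c6, c7, c8, -⟩ := (Lk_A ok _ _ _ _ _).mp hl
  have hub := chain_odd ok (x := x) (y := y) hx (by omega) hxL (by omega) (by omega) (by omega)
  have so1 : sz h x = h := sz_odd hx
  rcases c1 with c1 | c1
  · subst c1
    exact hub s c7 (by omega)
  · subst c1
    have sea : sz h α = h - 2 := sz_even (by omega)
    by_cases hyK : y ≤ K
    · have sey : sz h y = h - 2 := sz_even (by omega)
      have k1 : Cor L K α y (α + 1) y := by unfold Cor; omega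
      have k2 : Cor L K (α + 1) y (α + 1) y := by unfold Cor; omega
      refine (Rc.of (lkAB k1 (by omega) (by omega) (by omega) (by omega))).trans ?_
      refine (Rc.of (lkAB' (s := h - 1 - s) k2 (by omega) (by omega) (by omega) (by omega)
        (by omega) (by omega) (by omega)).symm).trans ?_
      exact hub _ (by omega) (by omega)
    · omega

theorem hubB_odd (ok : Ok h L K) {x y β s : ℕ} {b : V} (hx : x % 2 = 1) (hxL : x < L)
    (hl : Lk h L K x y (.B β s) b) : Rc h L K x y (.B β s) (.A x 1) := by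
  obtain ⟨h4, h2, L2, Le, K2, Ke⟩ := id ok
  obtain ⟨c1, c2, c3, c4, c5, c6, c7, c8, -⟩ := (Lk_B ok _ _ _ _ _).mp hl
  have hub := chain_odd ok (x := x) (y := y) hx (by omega) hxL (by omega) (by omega) (by omega)
  have so1 : sz h x = h := sz_odd hx
  rcases c1 with c1 | c1
  · subst c1
    have sey : sz h y = h - 2 := sz_even (by omega)
    have k2 : Cor L K x y x y := by unfold Cor; omega
    refine (Rc.of (lkAB' (s := h - 1 - s) k2 (by omega) (by omega) (by omega) (by omega)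
        (by omega) (by omega) (by omega)).symm).trans ?_
    exact hub _ (by omega) (by omega)
  · subst c1
    have sob : sz h β = h := sz_odd (by omega)
    have k2 : Cor L K x β x (β + 1) := by unfold Cor; omega
    refine (Rc.of (lkAB k2 (by omega) (by omega) (by omega) (by omega)).symm).trans ?_
    exact hub _ (by omega) (by omega)

theorem hubB_last (ok : Ok h L K) {y β s : ℕ} {b : V}
    (hl : Lk h L K (L + 1) y (.B β s) b) : Rc h L K (L + 1) y (.B β s) (.B (y - 1) 1) := by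
  obtain ⟨h4, h2, L2, Le, K2, Ke⟩ := id ok
  obtain ⟨c1, c2, c3, c4, c5, c6, c7, c8, -⟩ := (Lk_B ok _ _ _ _ _).mp hl
  have hub := chain_last ok (y := y) (by omega) (by omega) (by omega)
  have sL : sz h L = h - 2 := sz_even Le
  obtain ⟨z, rfl⟩ : ∃ z, y = z + 1 := ⟨y - 1, by omega⟩
  rw [Nat.add_sub_cancel] at hub ⊢
  have soz : sz h z = h := sz_odd (by omega)
  rcases c1 with c1 | c1
  · subst c1
    have sey : sz h (z + 1) = h - 2 := sz_even (by omega)
    have k1 : Cor L K L (z + 1) (L + 1) (z + 1) := by unfold Cor; omega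
    have k2 : Cor L K L z (L + 1) (z + 1) := by unfold Cor; omega
    refine (Rc.of (lkAB k1 (by omega) (by omega) (by omega) (by omega)).symm).trans ?_
    refine (Rc.of (lkAB' (s' := h + 1 - s) k2 (by omega) (by omega) (by omega) (by omega)
        (by omega) (by omega) (by omega))).trans ?_
    exact hub _ (by omega) (by omega)
  · obtain rfl : z = β := by omega
    exact hub s c7 (by omega)

theorem hubA_last (ok : Ok h L K) {y α s : ℕ} {b : V}
    (hl : Lk h L K (L + 1) y (.A α s) b) : Rc h L K (L + 1) y (.A α s) (.B (y - 1) 1) := by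
  obtain ⟨h4, h2, L2, Le, K2, Ke⟩ := id ok
  obtain ⟨c1, c2, c3, c4, c5, c6, c7, c8, -⟩ := (Lk_A ok _ _ _ _ _).mp hl
  have hub := chain_last ok (y := y) (by omega) (by omega) (by omega)
  obtain rfl : L = α := by omega
  have sL : sz h L = h - 2 := sz_even Le
  obtain ⟨z, rfl⟩ : ∃ z, y = z + 1 := ⟨y - 1, by omega⟩
  rw [Nat.add_sub_cancel] at hub ⊢
  have soz : sz h z = h := sz_odd (by omega)
  have k2 : Cor L K L z (L + 1) (z + 1) := by unfold Cor; omega
  refine (Rc.of (lkAB' (s' := h + 1 - s) k2 (by omega) (by omega) (by omega) (by omega)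
        (by omega) (by omega) (by omega))).trans ?_
  exact hub _ (by omega) (by omega)

/-- the hub of the link of a centre -/
def hub (L x y : ℕ) : V :=
  if x % 2 = 0 then .A (x - 1) 1 else if x < L then .A x 1 else .B (y - 1) 1

theorem Lk_x (_ok : Ok h L K) {x y : ℕ} {a b : V} (hl : Lk h L K x y a b) :
    1 ≤ x ∧ x ≤ L + 1 ∧ 1 ≤ y ∧ y ≤ K + 1 ∧ (x + y) % 2 = 1 := by
  obtain ⟨α, β, ⟨c1, c2, c3, c4, c5, c6, c7⟩, -⟩ := hl
  omega

theorem hubA (ok : Ok h L K) {x y α s : ℕ} {b : V}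
    (hl : Lk h L K x y (.A α s) b) : Rc h L K x y (.A α s) (hub L x y) := by
  have h1 := Lk_x ok hl
  have := ok.Le
  unfold hub
  split_ifs with hx hxL
  · exact hubA_even ok hx hl
  · exact hubA_odd ok (by omega) hxL hl
  · obtain rfl : x = L + 1 := by omega
    exact hubA_last ok hl

theorem hubB (ok : Ok h L K) {x y β s : ℕ} {b : V}
    (hl : Lk h L K x y (.B β s) b) : Rc h L K x y (.B β s) (hub L x y) := by
  have h1 := Lk_x ok hl
  have := ok.Le
  unfold hub
  split_ifs with hx hxL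
  · exact hubB_even ok hx hl
  · exact hubB_odd ok (by omega) hxL hl
  · obtain rfl : x = L + 1 := by omega
    exact hubB_last ok hl

theorem hub_all (ok : Ok h L K) {x y : ℕ} {a b : V}
    (hl : Lk h L K x y a b) : Rc h L K x y a (hub L x y) := by
  rcases a with ⟨a, b⟩ | ⟨a, b⟩ | ⟨a, b⟩ | ⟨a, b⟩ | ⟨a⟩ | ⟨a⟩
  · exact hubA ok hl
  · exact hubB ok hl
  · exact absurd hl not_Lk_C
  · refine (Rc.of hl).trans ?_
    rcases (Lk_E ok _ _ _ _ _).mp hl with ⟨-, -, -, -, -, ⟨-, -, rfl | rfl⟩ | ⟨-, -, rfl | rfl⟩⟩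
    · exact hubA ok hl.symm
    · exact hubA ok hl.symm
    · exact hubB ok hl.symm
    · exact hubB ok hl.symm
  · refine (Rc.of hl).trans ?_
    rcases (Lk_X ok _ _ _ _).mp hl with ⟨-, -, -, -, -, rfl | rfl⟩
    · exact hubA ok hl.symm
    · exact hubA ok hl.symm
  · refine (Rc.of hl).trans ?_
    rcases (Lk_Y ok _ _ _ _).mp hl with ⟨-, -, -, -, -, rfl | rfl⟩
    · exact hubB ok hl.symm
    · exact hubB ok hl.symm

/-! ### the set of triangles -/

theorem LA_symm {V : Type*} [DecidableEq V] {T : Finset (Finset V)} {v a b : V} (hl : LA T v a b) :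
    LA T v b a := by
  obtain ⟨t, ht, h1, h2, h3, h4, h5⟩ := hl
  exact ⟨t, ht, h1, h3, h2, h5, h4⟩

theorem GA_symm {V : Type*} [DecidableEq V] {T : Finset (Finset V)} {a b : V} (hl : GA T a b) :
    GA T b a := by
  obtain ⟨t, ht, h1, h2⟩ := hl
  exact ⟨t, ht, h2, h1⟩

theorem RT_of_Eqv {α : Type*} {r : α → α → Prop} (hr : ∀ a b, r a b → r b a) {a b : α}
    (hab : EqvGen r a b) : ReflTransGen r a b := by
  induction hab with
  | rel x y h => exact ReflTransGen.single h
  | refl x => exact ReflTransGen.refl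
  | symm x y _ ih =>
    haveI : Std.Symm r := ⟨hr⟩
    exact ReflTransGen.symmetric.symm _ _ ih
  | trans x y z _ _ ih1 ih2 => exact ih1.trans ih2

theorem TT_of_Lk (ok : Ok h L K) {x y : ℕ} {u v : V} (hl : Lk h L K x y u v) :
    ({V.C x y, u, v} : Finset V) ∈ TT h L K := (mem_TT ok).mpr ⟨x, y, u, v, hl, rfl⟩

theorem LA_C (ok : Ok h L K) {x y : ℕ} {a b : V} (hl : Lk h L K x y a b) :
    LA (TT h L K) (V.C x y) a b :=
  ⟨_, TT_of_Lk ok hl, by simp, by simp, by simp, (NC_of_Lk hl).ne, (NC_of_Lk hl.symm).ne⟩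

theorem ne_of_Lk {x y : ℕ} {a b : V} (hl : Lk h L K x y a b) : a ≠ b := by
  rintro rfl; exact not_Lk_self hl

theorem LA_u (ok : Ok h L K) {x y : ℕ} {u v : V} (hl : Lk h L K x y u v) :
    LA (TT h L K) u (V.C x y) v :=
  ⟨_, TT_of_Lk ok hl, by simp, by simp, by simp, (NC_of_Lk hl).ne.symm, (ne_of_Lk hl).symm⟩

theorem GA_all (ok : Ok h L K) {x y : ℕ} {u v : V} (hl : Lk h L K x y u v) :
    GA (TT h L K) u v ∧ GA (TT h L K) u (V.C x y) :=
  ⟨⟨_, TT_of_Lk ok hl, by simp, by simp⟩, ⟨_, TT_of_Lk ok hl, by simp, by simp⟩⟩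

/-- the triangles containing a given non-centre -/
theorem LA_NC (ok : Ok h L K) {u a : V} (hu : NC u) (hl : LA (TT h L K) u a a) :
    ∃ x y w, Lk h L K x y u w ∧ (a = V.C x y ∨ a = w) := by
  obtain ⟨t, ht, h1, h2, -, h4, -⟩ := hl
  obtain ⟨x, y, u', v', hl, rfl⟩ := (mem_TT ok).mp ht
  simp only [mem_insert, mem_singleton] at h1 h2
  rcases h1 with rfl | rfl | rfl
  · exact absurd hu (by simp [NC])
  · rcases h2 with rfl | rfl | rfl
    · exact ⟨x, y, v', hl, Or.inl rfl⟩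
    · exact absurd rfl h4
    · exact ⟨x, y, _, hl, Or.inr rfl⟩
  · rcases h2 with rfl | rfl | rfl
    · exact ⟨x, y, u', hl.symm, Or.inl rfl⟩
    · exact ⟨x, y, _, hl.symm, Or.inr rfl⟩
    · exact absurd rfl h4

theorem LA_CC (ok : Ok h L K) {x y : ℕ} {a : V} (hl : LA (TT h L K) (V.C x y) a a) :
    ∃ w, Lk h L K x y a w := by
  obtain ⟨t, ht, h1, h2, -, h4, -⟩ := hl
  obtain ⟨x', y', u', v', hl, rfl⟩ := (mem_TT ok).mp ht
  simp only [mem_insert, mem_singleton] at h1 h2
  have e : V.C x y = V.C x' y' := by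
    rcases h1 with e | e | e
    · exact e
    · exact absurd e.symm (NC_of_Lk hl).ne
    · exact absurd e.symm (NC_of_Lk hl.symm).ne
  injection e with e1 e2
  subst e1 e2
  rcases h2.resolve_left h4 with rfl | rfl
  · exact ⟨v', hl⟩
  · exact ⟨u', hl.symm⟩

theorem link_C (ok : Ok h L K) (x y : ℕ) (a b : V) (ha : LA (TT h L K) (V.C x y) a a)
    (hb : LA (TT h L K) (V.C x y) b b) : ReflTransGen (LA (TT h L K) (V.C x y)) a b := by
  obtain ⟨w, hw⟩ := LA_CC ok ha
  obtain ⟨w', hw'⟩ := LA_CC ok hb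
  have h1 := (hub_all ok hw).trans (hub_all ok hw').symm
  have h2 : EqvGen (LA (TT h L K) (V.C x y)) a b :=
    EqvGen.mono (r := Lk h L K x y) (p := LA (TT h L K) (V.C x y)) (fun _ _ hl => LA_C ok hl) _ _ h1
  exact RT_of_Eqv (fun _ _ => LA_symm) h2

/-- a link all of whose members are connected to a hub is connected -/
theorem link_of_hub {u c : V} (hc : ∀ a, LA (TT h L K) u a a → EqvGen (LA (TT h L K) u) a c)
    (a b : V) (ha : LA (TT h L K) u a a) (hb : LA (TT h L K) u b b) :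
    ReflTransGen (LA (TT h L K) u) a b :=
  RT_of_Eqv (fun _ _ => LA_symm) ((hc a ha).trans _ _ _ ((hc b hb).symm _ _))

/-- the centre on the line `y` met by the column band `α` -/
def cxx (α y : ℕ) : ℕ := if (α + y) % 2 = 1 then α else α + 1

theorem link_A (ok : Ok h L K) (α s : ℕ) (a b : V) (ha : LA (TT h L K) (V.A α s) a a)
    (hb : LA (TT h L K) (V.A α s) b b) : ReflTransGen (LA (TT h L K) (V.A α s)) a b := by
  obtain ⟨h4, h2, L2, Le, K2, Ke⟩ := id ok
  have hv : 1 ≤ α ∧ α ≤ L ∧ 1 ≤ s ∧ s ≤ sz h α := by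
    obtain ⟨x, y, w, hl, -⟩ := LA_NC ok (by simp [NC]) ha
    rw [Lk_A ok] at hl
    exact ⟨hl.2.2.2.2.1, hl.2.2.2.2.2.1, hl.2.2.2.2.2.2.1, hl.2.2.2.2.2.2.2.1⟩
  have l1 : ∀ y, 1 ≤ y → y ≤ K + 1 → Lk h L K (cxx α y) y (V.A α s) (mid h K α s y) := by
    intro y h1 h2
    rw [Lk_A ok]
    refine ⟨by unfold cxx; split_ifs <;> omega, by unfold cxx; split_ifs <;> omega, h1, h2,
      hv.1, hv.2.1, hv.2.2.1, hv.2.2.2, Or.inr rfl⟩
  have l2 : ∀ y, 1 ≤ y → y ≤ K + 1 → Lk h L K (cxx α y) y (V.A α s) (mid h K α s (y - 1)) := by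
    intro y h1 h2
    rw [Lk_A ok]
    refine ⟨by unfold cxx; split_ifs <;> omega, by unfold cxx; split_ifs <;> omega, h1, h2,
      hv.1, hv.2.1, hv.2.2.1, hv.2.2.2, Or.inl rfl⟩
  have key : ∀ y, 1 ≤ y → y ≤ K + 1 →
      EqvGen (LA (TT h L K) (V.A α s)) (V.C (cxx α y) y) (V.C (cxx α 1) 1) := by
    intro y hy
    induction y, hy using Nat.le_induction with
    | base => intro _; exact EqvGen.refl _
    | succ k hk ih =>
      intro hkn
      have e1 := LA_u ok (l2 (k + 1) (by omega) hkn)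
      have e2 := LA_u ok (l1 k hk (by omega))
      rw [Nat.add_sub_cancel] at e1
      exact EqvGen.trans _ _ _ (EqvGen.rel _ _ e1)
        (EqvGen.trans _ _ _ (EqvGen.symm _ _ (EqvGen.rel _ _ e2)) (ih (by omega)))
  refine link_of_hub (c := V.C (cxx α 1) 1) ?_ a b ha hb
  intro a ha
  obtain ⟨x, y, w, hl, haw⟩ := LA_NC ok (by simp [NC]) ha
  have hl' := (Lk_A ok _ _ _ _ _).mp hl
  have hx : x = cxx α y := by unfold cxx; split_ifs <;> omega
  have h1 : EqvGen (LA (TT h L K) (V.A α s)) (V.C x y) (V.C (cxx α 1) 1) := by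
    rw [hx]; exact key y hl'.2.2.1 hl'.2.2.2.1
  rcases haw with rfl | rfl
  · exact h1
  · exact EqvGen.trans _ _ _ (EqvGen.symm _ _ (EqvGen.rel _ _ (LA_u ok hl))) h1

/-- the centre on the line `x` met by the row band `β` -/
theorem link_B (ok : Ok h L K) (β s : ℕ) (a b : V) (ha : LA (TT h L K) (V.B β s) a a)
    (hb : LA (TT h L K) (V.B β s) b b) : ReflTransGen (LA (TT h L K) (V.B β s)) a b := by
  obtain ⟨h4, h2, L2, Le, K2, Ke⟩ := id ok
  have hv : 1 ≤ β ∧ β ≤ K ∧ 1 ≤ s ∧ s ≤ sz h β := by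
    obtain ⟨x, y, w, hl, -⟩ := LA_NC ok (by simp [NC]) ha
    rw [Lk_B ok] at hl
    exact ⟨hl.2.2.2.2.1, hl.2.2.2.2.2.1, hl.2.2.2.2.2.2.1, hl.2.2.2.2.2.2.2.1⟩
  have l1 : ∀ x, 1 ≤ x → x ≤ L + 1 → Lk h L K x (cxx β x) (V.B β s) (midr h L β s x) := by
    intro x h1 h2
    rw [Lk_B ok]
    refine ⟨by unfold cxx; split_ifs <;> omega, by unfold cxx; split_ifs <;> omega, h1, h2,
      hv.1, hv.2.1, hv.2.2.1, hv.2.2.2, Or.inr rfl⟩
  have l2 : ∀ x, 1 ≤ x → x ≤ L + 1 → Lk h L K x (cxx β x) (V.B β s) (midr h L β s (x - 1)) := by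
    intro x h1 h2
    rw [Lk_B ok]
    refine ⟨by unfold cxx; split_ifs <;> omega, by unfold cxx; split_ifs <;> omega, h1, h2,
      hv.1, hv.2.1, hv.2.2.1, hv.2.2.2, Or.inl rfl⟩
  have key : ∀ x, 1 ≤ x → x ≤ L + 1 →
      EqvGen (LA (TT h L K) (V.B β s)) (V.C x (cxx β x)) (V.C 1 (cxx β 1)) := by
    intro x hx
    induction x, hx using Nat.le_induction with
    | base => intro _; exact EqvGen.refl _
    | succ k hk ih =>
      intro hkn
      have e1 := LA_u ok (l2 (k + 1) (by omega) hkn)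
      have e2 := LA_u ok (l1 k hk (by omega))
      rw [Nat.add_sub_cancel] at e1
      exact EqvGen.trans _ _ _ (EqvGen.rel _ _ e1)
        (EqvGen.trans _ _ _ (EqvGen.symm _ _ (EqvGen.rel _ _ e2)) (ih (by omega)))
  refine link_of_hub (c := V.C 1 (cxx β 1)) ?_ a b ha hb
  intro a ha
  obtain ⟨x, y, w, hl, haw⟩ := LA_NC ok (by simp [NC]) ha
  have hl' := (Lk_B ok _ _ _ _ _).mp hl
  have hx : y = cxx β x := by unfold cxx; split_ifs <;> omega
  have h1 : EqvGen (LA (TT h L K) (V.B β s)) (V.C x y) (V.C 1 (cxx β 1)) := by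
    rw [hx]; exact key x hl'.2.2.1 hl'.2.2.2.1
  rcases haw with rfl | rfl
  · exact h1
  · exact EqvGen.trans _ _ _ (EqvGen.symm _ _ (EqvGen.rel _ _ (LA_u ok hl))) h1

/-- links that are complete bipartite between centres and partners -/
theorem link_bip (ok : Ok h L K) {u c : V} (hu : NC u)
    (hc : ∀ x y w, Lk h L K x y u w → Lk h L K x y u c)
    (a b : V) (ha : LA (TT h L K) u a a)
    (hb : LA (TT h L K) u b b) : ReflTransGen (LA (TT h L K) u) a b := by
  refine link_of_hub (c := c) ?_ a b ha hb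
  intro a ha
  obtain ⟨x, y, w, hl, haw⟩ := LA_NC ok hu ha
  have h1 : EqvGen (LA (TT h L K) u) (V.C x y) c := EqvGen.rel _ _ (LA_u ok (hc x y w hl))
  rcases haw with rfl | rfl
  · exact h1
  · exact EqvGen.trans _ _ _ (EqvGen.symm _ _ (EqvGen.rel _ _ (LA_u ok hl))) h1

theorem link_E (ok : Ok h L K) (α β : ℕ) (a b : V) (ha : LA (TT h L K) (V.E α β) a a)
    (hb : LA (TT h L K) (V.E α β) b b) : ReflTransGen (LA (TT h L K) (V.E α β)) a b := by
  refine link_bip ok (c := if α % 2 = 1 then V.A α h else V.B β 1) (by simp [NC]) ?_ a b ha hb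
  intro x y w hl
  rw [Lk_E ok] at hl ⊢
  obtain ⟨c1, c2, c3, c4, c5, c6⟩ := hl
  refine ⟨c1, c2, c3, c4, c5, ?_⟩
  split_ifs with hα
  · left; exact ⟨hα, by omega, Or.inr rfl⟩
  · right; exact ⟨by omega, by omega, Or.inl rfl⟩

theorem link_X (ok : Ok h L K) (α : ℕ) (a b : V) (ha : LA (TT h L K) (V.X α) a a)
    (hb : LA (TT h L K) (V.X α) b b) : ReflTransGen (LA (TT h L K) (V.X α)) a b := by
  refine link_bip ok (c := V.A α 1) (by simp [NC]) ?_ a b ha hb
  intro x y w hl
  rw [Lk_X ok] at hl ⊢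
  obtain ⟨c1, c2, c3, c4, c5, c6⟩ := hl
  exact ⟨c1, c2, c3, c4, c5, Or.inl rfl⟩

theorem link_Y (ok : Ok h L K) (β : ℕ) (a b : V) (ha : LA (TT h L K) (V.Y β) a a)
    (hb : LA (TT h L K) (V.Y β) b b) : ReflTransGen (LA (TT h L K) (V.Y β)) a b := by
  refine link_bip ok (c := V.B β 1) (by simp [NC]) ?_ a b ha hb
  intro x y w hl
  rw [Lk_Y ok] at hl ⊢
  obtain ⟨c1, c2, c3, c4, c5, c6⟩ := hl
  exact ⟨c1, c2, c3, c4, c5, Or.inl rfl⟩

end Pool.Agent.Helper40.Surf
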