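import Mathlib
import Pool.Agent.Helper40.Surf.CombT
set_option autoImplicit false

/-!
# The set of triangles is a closed connected combinatorial surface; counting
-/

namespace Pool.Agent.Helper40.Surf

open Finset Relation

variable {h L K : ℕ}

theorem card_tri {x y : ℕ} {u v : V} (hl : Lk h L K x y u v) :
    ({V.C x y, u, v} : Finset V).card = 3 := by
  have h1 := (NC_of_Lk hl).ne (x := x) (y := y)
  have h2 := (NC_of_Lk hl.symm).ne (x := x) (y := y)
  have h3 := ne_of_Lk hl
  rw [card_insert_of_notMem, card_insert_of_notMem, card_singleton]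
  · simpa using h3
  · simp only [mem_insert, mem_singleton, not_or]
    exact ⟨h1.symm, h2.symm⟩

/-- the form of a triangle with two given non-centres -/
theorem ins_C (ok : Ok h L K) {u v w : V} (hu : NC u) (hv : NC v) (huv : u ≠ v)
    (hm : insert w ({u, v} : Finset V) ∈ TT h L K) :
    ∃ x y, w = V.C x y ∧ Lk h L K x y u v := by
  obtain ⟨x, y, u', v', hl, he⟩ := (mem_TT ok).mp hm
  have e1 : V.C x y ∈ insert w ({u, v} : Finset V) := by rw [he]; simp
  simp only [mem_insert, mem_singleton] at e1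
  have hw : w = V.C x y := by
    rcases e1 with e | e | e
    · exact e.symm
    · exact absurd e.symm hu.ne
    · exact absurd e.symm hv.ne
  subst hw
  exact ⟨x, y, rfl, Lk_of_mem ok hu hv huv hm⟩

/-- the form of a triangle with a given centre and a given non-centre -/
theorem ins_N (ok : Ok h L K) {x y : ℕ} {u w : V} (hu : NC u) (hwu : w ≠ u) (hwC : w ≠ V.C x y)
    (hm : insert w ({V.C x y, u} : Finset V) ∈ TT h L K) :
    Lk h L K x y u w := by
  have hw : NC w := by
    obtain ⟨x', y', u', v', hl, he⟩ := (mem_TT ok).mp hm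
    have e1 : V.C x y ∈ ({V.C x' y', u', v'} : Finset V) := by rw [← he]; simp
    have e2 : w ∈ ({V.C x' y', u', v'} : Finset V) := by rw [← he]; simp
    simp only [mem_insert, mem_singleton] at e1 e2
    have e1' : V.C x y = V.C x' y' := by
      rcases e1 with e | e | e
      · exact e
      · exact absurd e.symm (NC_of_Lk hl).ne
      · exact absurd e.symm (NC_of_Lk hl.symm).ne
    rw [← e1'] at e2
    rcases e2 with e | e | e
    · exact absurd e hwC
    · rw [e]; exact NC_of_Lk hl
    · rw [e]; exact NC_of_Lk hl.symm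
  have : insert w ({V.C x y, u} : Finset V) = {V.C x y, u, w} := by
    ext z; simp only [mem_insert, mem_singleton]; tauto
  rw [this] at hm
  exact Lk_of_mem ok hu hw hwu.symm hm

theorem two_N (ok : Ok h L K) {x y : ℕ} {u v : V} (hl : Lk h L K x y u v) :
    ∃ v', v' ∉ ({V.C x y, u, v} : Finset V) ∧
      insert v' (({V.C x y, u, v} : Finset V).erase v) ∈ TT h L K ∧
      ∀ w, w ∉ ({V.C x y, u, v} : Finset V) →
        insert w (({V.C x y, u, v} : Finset V).erase v) ∈ TT h L K → w = v' := by
  have hu := NC_of_Lk hl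
  have hv := NC_of_Lk hl.symm
  have huv := ne_of_Lk hl
  have he : ({V.C x y, u, v} : Finset V).erase v = {V.C x y, u} := by
    ext z
    simp only [mem_erase, mem_insert, mem_singleton]
    constructor
    · rintro ⟨h1, h2 | h2 | h2⟩
      · exact Or.inl h2
      · exact Or.inr h2
      · exact absurd h2 h1
    · rintro (rfl | rfl)
      · exact ⟨hv.ne.symm, Or.inl rfl⟩
      · exact ⟨huv, Or.inr (Or.inl rfl)⟩
  rw [he]
  obtain ⟨v', h1, h2, h3⟩ := two_b ok hl
  have hv' := NC_of_Lk h2.symm
  refine ⟨v', ?_, ?_, ?_⟩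
  · simp only [mem_insert, mem_singleton, not_or]
    exact ⟨hv'.ne, (ne_of_Lk h2).symm, h1⟩
  · have : insert v' ({V.C x y, u} : Finset V) = {V.C x y, u, v'} := by
      ext z; simp only [mem_insert, mem_singleton]; tauto
    rw [this]
    exact TT_of_Lk ok h2
  · intro w hw hm
    simp only [mem_insert, mem_singleton, not_or] at hw
    have := h3 w (ins_N ok hu hw.2.1 hw.1 hm)
    exact this.resolve_left hw.2.2

theorem isComb_TT (ok : Ok h L K) : IsComb (TT h L K) where
  nonempty := by
    obtain ⟨h4, h2, L2, Le, K2, Ke⟩ := id ok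
    have s1 : sz h 1 = h := sz_odd rfl
    exact ⟨_, TT_of_Lk ok (lkAB (x := 2) (y := 1) (α := 1) (β := 1) (s := 1)
      (by unfold Cor; omega) (by omega) (by omega) (by omega) (by omega))⟩
  card3 := by
    intro t ht
    obtain ⟨x, y, u, v, hl, rfl⟩ := (mem_TT ok).mp ht
    exact card_tri hl
  two := by
    intro t ht w hw
    obtain ⟨x, y, u, v, hl, rfl⟩ := (mem_TT ok).mp ht
    have hu := NC_of_Lk hl
    have hv := NC_of_Lk hl.symm
    have huv := ne_of_Lk hl
    simp only [mem_insert, mem_singleton] at hw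
    rcases hw with rfl | rfl | rfl
    · have he : ({V.C x y, u, v} : Finset V).erase (V.C x y) = {u, v} := by
        rw [erase_insert]
        simp only [mem_insert, mem_singleton, not_or]
        exact ⟨hu.ne.symm, hv.ne.symm⟩
      rw [he]
      obtain ⟨x', y', h1, h2, h3⟩ := two_a ok hl
      refine ⟨V.C x' y', ?_, TT_of_Lk ok h2, ?_⟩
      · simp only [mem_insert, mem_singleton, not_or]
        refine ⟨fun e => h1 ?_, hu.ne.symm, hv.ne.symm⟩
        injection e with e1 e2
        exact ⟨e1, e2⟩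
      · intro w hw hm
        obtain ⟨x'', y'', rfl, hl'⟩ := ins_C ok hu hv huv hm
        rcases h3 _ _ hl' with ⟨rfl, rfl⟩ | ⟨rfl, rfl⟩
        · exact absurd (mem_insert_self _ _) hw
        · rfl
    · have e : ({V.C x y, w, v} : Finset V) = {V.C x y, v, w} := by
        ext z; simp only [mem_insert, mem_singleton]; tauto
      rw [e]
      exact two_N ok hl.symm
    · exact two_N ok hl
  link := by
    intro v a b ha hb
    rcases v with ⟨c, d⟩ | ⟨c, d⟩ | ⟨c, d⟩ | ⟨c, d⟩ | ⟨c⟩ | ⟨c⟩
    · exact link_A ok _ _ a b ha hb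
    · exact link_B ok _ _ a b ha hb
    · exact link_C ok _ _ a b ha hb
    · exact link_E ok _ _ a b ha hb
    · exact link_X ok _ a b ha hb
    · exact link_Y ok _ a b ha hb
  conn := by
    obtain ⟨h4, h2, L2, Le, K2, Ke⟩ := id ok
    -- columns are connected
    have lA : ∀ α y s, 1 ≤ α → α ≤ L → 1 ≤ s → s ≤ sz h α → 1 ≤ y → y ≤ K + 1 →
        Lk h L K (cxx α y) y (V.A α s) (mid h K α s y) := by
      intro α y s h1 h2 h3 h4 h5 h6
      rw [Lk_A ok]
      exact ⟨by unfold cxx; split_ifs <;> omega, by unfold cxx; split_ifs <;> omega, h5, h6,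
        h1, h2, h3, h4, Or.inr rfl⟩
    have sp : ∀ α, 1 ≤ sz h α := by intro α; unfold sz; split_ifs <;> omega
    have band : ∀ α s, 1 ≤ α → α ≤ L → 1 ≤ s → s ≤ sz h α →
        EqvGen (GA (TT h L K)) (V.A α s) (V.A α 1) := by
      intro α s h1 h2 h3 h4
      have e1 := (GA_all ok (lA α 1 s h1 h2 h3 h4 le_rfl (by omega))).2
      have e2 := (GA_all ok (lA α 1 1 h1 h2 le_rfl (sp α) le_rfl (by omega))).2
      exact EqvGen.trans _ _ _ (EqvGen.rel _ _ e1) (EqvGen.symm _ _ (EqvGen.rel _ _ e2))
    have cols : ∀ α, 1 ≤ α → α ≤ L → EqvGen (GA (TT h L K)) (V.A α 1) (V.A 1 1) := by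
      intro α hα
      induction α, hα using Nat.le_induction with
      | base => intro _; exact EqvGen.refl _
      | succ k hk ih =>
        intro hkL
        obtain ⟨y, hy1, hy2, hy3⟩ : ∃ y, 1 ≤ y ∧ y ≤ K + 1 ∧ (k + 1 + y) % 2 = 1 := by
          rcases Nat.mod_two_eq_zero_or_one k with e | e
          · exact ⟨2, by omega, by omega, by omega⟩
          · exact ⟨1, by omega, by omega, by omega⟩
        have e1 := (GA_all ok (lA (k + 1) y 1 (by omega) hkL le_rfl (sp _) hy1 hy2)).2
        have e2 := (GA_all ok (lA k y 1 hk (by omega) le_rfl (sp _) hy1 hy2)).2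
        have c1 : cxx (k + 1) y = k + 1 := by unfold cxx; rw [if_pos hy3]
        have c2 : cxx k y = k + 1 := by unfold cxx; rw [if_neg (by omega)]
        rw [c1] at e1
        rw [c2] at e2
        exact EqvGen.trans _ _ _ (EqvGen.rel _ _ e1)
          (EqvGen.trans _ _ _ (EqvGen.symm _ _ (EqvGen.rel _ _ e2)) (ih (by omega)))
    have allA : ∀ α s, 1 ≤ α → α ≤ L → 1 ≤ s → s ≤ sz h α →
        EqvGen (GA (TT h L K)) (V.A α s) (V.A 1 1) :=
      fun α s h1 h2 h3 h4 => EqvGen.trans _ _ _ (band α s h1 h2 h3 h4) (cols α h1 h2)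
    -- every hub is connected to the base
    have hubs : ∀ x y a b, Lk h L K x y a b →
        EqvGen (GA (TT h L K)) (hub L x y) (V.A 1 1) := by
      intro x y a b hl
      have h1 := Lk_x ok hl
      unfold hub
      split_ifs with hx hxL
      · exact allA _ _ (by omega) (by omega) le_rfl (sp _)
      · exact allA _ _ (by omega) (by omega) le_rfl (sp _)
      · have s1 : sz h 1 = h := sz_odd rfl
        refine EqvGen.symm _ _ (EqvGen.rel _ _ ?_)
        exact (GA_all ok (lkAB (x := 1) (y := y) (α := 1) (β := y - 1) (s := 1)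
          (by unfold Cor; omega) (by omega) (by omega) (by omega) (by omega))).1
    have link1 : ∀ x y a b, Lk h L K x y a b → EqvGen (GA (TT h L K)) a (V.A 1 1) := by
      intro x y a b hl
      have h1 := hub_all ok hl
      have h2 : EqvGen (GA (TT h L K)) a (hub L x y) :=
        EqvGen.mono (r := Lk h L K x y) (p := GA (TT h L K))
          (fun _ _ hl => (GA_all ok hl).1) _ _ h1
      exact EqvGen.trans _ _ _ h2 (hubs x y a b hl)
    have all : ∀ a, GA (TT h L K) a a → EqvGen (GA (TT h L K)) a (V.A 1 1) := by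
      rintro a ⟨t, ht, ha, -⟩
      obtain ⟨x, y, u, v, hl, rfl⟩ := (mem_TT ok).mp ht
      simp only [mem_insert, mem_singleton] at ha
      rcases ha with rfl | rfl | rfl
      · exact EqvGen.trans _ _ _ (EqvGen.symm _ _ (EqvGen.rel _ _ (GA_all ok hl).2))
          (link1 x y u v hl)
      · exact link1 x y _ v hl
      · exact link1 x y _ u hl.symm
    intro a b ha hb
    exact RT_of_Eqv (fun _ _ => GA_symm)
      (EqvGen.trans _ _ _ (all a ha) (EqvGen.symm _ _ (all b hb)))

/-! ### counting -/

theorem card_VV (h L K : ℕ) : (VV h L K).card ≤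
    (L + 1) * (h + 1) + (K + 1) * (h + 1) + (L + 2) * (K + 2) + (L + 1) * (K + 1) + (L + 1) +
      (K + 1) := by
  unfold VV
  refine (card_union_le _ _).trans (Nat.add_le_add ?_ (card_image_le.trans (by simp)))
  refine (card_union_le _ _).trans (Nat.add_le_add ?_ (card_image_le.trans (by simp)))
  refine (card_union_le _ _).trans (Nat.add_le_add ?_ (card_image_le.trans (by simp)))
  refine (card_union_le _ _).trans (Nat.add_le_add ?_ (card_image_le.trans (by simp)))
  refine (card_union_le _ _).trans (Nat.add_le_add ?_ (card_image_le.trans (by simp)))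
  exact card_image_le.trans (by simp)

theorem verts_TT (h L K : ℕ) : ((TT h L K).biUnion id).card ≤ (VV h L K).card := by
  classical
  apply card_le_card
  intro v hv
  obtain ⟨t, ht, hvt⟩ := mem_biUnion.mp hv
  unfold TT at ht
  rw [mem_filter, mem_powerset] at ht
  exact ht.1 hvt

/-- counting the triangles of the cells of type `(odd, odd)` with their lower right corner -/
theorem card_TT {m : ℕ} (ok : Ok (2 * m) (2 * m) (2 * m)) :
    2 * m ^ 3 ≤ (TT (2 * m) (2 * m) (2 * m)).card := by
  classical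
  have hc : (range m ×ˢ (range m ×ˢ range (2 * m))).card = 2 * m ^ 3 := by
    simp only [card_product, card_range]; ring
  rw [← hc]
  apply card_le_card_of_injOn
    (fun p => ({V.C (2 * p.1 + 2) (2 * p.2.1 + 1), V.A (2 * p.1 + 1) (p.2.2 + 1),
      V.B (2 * p.2.1 + 1) (p.2.2 + 1)} : Finset V))
  · rintro ⟨i, j, s⟩ hp
    simp only [coe_product, coe_range, Set.mem_prod, Set.mem_Iio] at hp
    have s1 : sz (2 * m) (2 * i + 1) = 2 * m := sz_odd (by omega)
    obtain ⟨h1, h2, h3⟩ := hp
    have c1 : Cor (2 * m) (2 * m) (2 * i + 1) (2 * j + 1) (2 * i + 2) (2 * j + 1) := by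
      unfold Cor; omega
    show ({V.C (2 * i + 2) (2 * j + 1), V.A (2 * i + 1) (s + 1),
      V.B (2 * j + 1) (s + 1)} : Finset V) ∈ TT (2 * m) (2 * m) (2 * m)
    exact TT_of_Lk ok (lkAB (s := s + 1) c1 (by omega) (by omega) (by omega) (by omega))
  · rintro ⟨i, j, s⟩ - ⟨i', j', s'⟩ - he
    simp only at he
    have e1 : V.A (2 * i + 1) (s + 1) ∈ ({V.C (2 * i' + 2) (2 * j' + 1), V.A (2 * i' + 1) (s' + 1),
      V.B (2 * j' + 1) (s' + 1)} : Finset V) := by rw [← he]; simp
    have e2 : V.B (2 * j + 1) (s + 1) ∈ ({V.C (2 * i' + 2) (2 * j' + 1), V.A (2 * i' + 1) (s' + 1),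
      V.B (2 * j' + 1) (s' + 1)} : Finset V) := by rw [← he]; simp
    simp only [mem_insert, mem_singleton, V.A.injEq, V.B.injEq, reduceCtorEq, false_or,
      or_false] at e1 e2
    simp only [Prod.mk.injEq]
    omega

end Pool.Agent.Helper40.Surf
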