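import Mathlib
import Pool.Agent.Helper40.Surf.Frame
set_option autoImplicit false

/-!
# From the set of triangles to the simplicial complex
-/

namespace Pool.Agent.Helper40.Surf

open Finset Relation
open Classical

/-- the complex spanned by the triangles -/
noncomputable def cx (T : Finset (Finset E3)) (g : IsGeom id T) :
    Geometry.SimplicialComplex ℝ E3 :=
  Geometry.SimplicialComplex.ofErase {s | ∃ t ∈ T, s ⊆ t}
    (by
      rintro s ⟨t, ht, hst⟩
      exact (g.indep t ht).mono hst)
    (by
      rintro s s' hs ⟨t, ht, hst⟩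
      exact ⟨t, ht, hs.trans hst⟩)
    (by
      rintro s ⟨t, ht, hst⟩ s' ⟨t', ht', hst'⟩
      have h1 : AffineIndependent ℝ ((↑) : t → E3) := g.indep t ht
      have h2 : AffineIndependent ℝ ((↑) : t' → E3) := g.indep t' ht'
      rintro x ⟨hx, hx'⟩
      have hxt : x ∈ convexHull ℝ ((t : Set E3) ∩ t') := by
        have := g.inter t ht t' ht' ⟨by simpa using convexHull_mono (coe_subset.mpr hst) hx,
          by simpa using convexHull_mono (coe_subset.mpr hst') hx'⟩
        simpa using this
      have hx2 : x ∈ convexHull ℝ ((s : Set E3) ∩ t') := by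
        have e := h1.convexHull_inter (t₁ := s) (t₂ := t ∩ t') hst inter_subset_left
        have : x ∈ convexHull ℝ (s : Set E3) ∩ convexHull ℝ ((t ∩ t' : Finset E3) : Set E3) :=
          ⟨hx, by simpa using hxt⟩
        rw [← e] at this
        refine convexHull_mono ?_ this
        intro y hy
        simp only [coe_inter, Set.mem_inter_iff, mem_coe] at hy ⊢
        exact ⟨hy.1, hy.2.2⟩
      have e := h2.convexHull_inter (t₁ := s') (t₂ := s ∩ t') hst' inter_subset_right
      have : x ∈ convexHull ℝ (s' : Set E3) ∩ convexHull ℝ ((s ∩ t' : Finset E3) : Set E3) :=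
        ⟨hx', by simpa using hx2⟩
      rw [← e] at this
      refine convexHull_mono ?_ this
      intro y hy
      simp only [coe_inter, Set.mem_inter_iff, mem_coe] at hy ⊢
      exact ⟨hy.2.1, hy.1⟩)

theorem mem_cx {T : Finset (Finset E3)} {g : IsGeom id T} {s : Finset E3} :
    s ∈ (cx T g).faces ↔ s.Nonempty ∧ ∃ t ∈ T, s ⊆ t := by
  simp only [cx, Geometry.SimplicialComplex.ofErase]
  constructor
  · rintro ⟨h1, h2⟩
    exact ⟨nonempty_iff_ne_empty.mpr (by simpa using h2), h1⟩
  · rintro ⟨h1, h2⟩
    exact ⟨h2, by simpa using nonempty_iff_ne_empty.mp h1⟩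

theorem mem_cx3 {T : Finset (Finset E3)} (h : IsComb T) {g : IsGeom id T} {s : Finset E3} :
    (s ∈ (cx T g).faces ∧ s.card = 3) ↔ s ∈ T := by
  rw [mem_cx]
  constructor
  · rintro ⟨⟨-, t, ht, hst⟩, hc⟩
    have := eq_of_subset_of_card_le hst (by rw [hc, h.card3 t ht])
    exact this ▸ ht
  · intro hs
    exact ⟨⟨card_pos.mp (by rw [h.card3 s hs]; norm_num), s, hs, subset_refl s⟩, h.card3 s hs⟩

theorem two_set {T : Finset (Finset E3)} (h : IsComb T) {e : Finset E3} (he : e.card = 2)
    {t : Finset E3} (ht : t ∈ T) (het : e ⊆ t) :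
    (T.filter (fun s => e ⊆ s)).card = 2 := by
  have hc : (t \ e).card = 1 := by
    rw [card_sdiff_of_subset het, h.card3 t ht, he]
  obtain ⟨v, hv⟩ := card_eq_one.mp hc
  have hvt : v ∈ t ∧ v ∉ e := by
    have : v ∈ t \ e := by rw [hv]; exact mem_singleton_self v
    exact mem_sdiff.mp this
  have hee : t.erase v = e := by
    symm
    apply eq_of_subset_of_card_le
    · intro x hx
      exact mem_erase.mpr ⟨fun e' => hvt.2 (e' ▸ hx), het hx⟩
    · rw [card_erase_of_mem hvt.1, h.card3 t ht, he]
  obtain ⟨v', hv', hT, hu⟩ := h.two t ht v hvt.1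
  rw [hee] at hT hu
  have hv'e : v' ∉ e := fun h' => hv' (het h')
  have key : T.filter (fun s => e ⊆ s) = {t, insert v' e} := by
    ext s
    simp only [mem_filter, mem_insert, mem_singleton]
    constructor
    · rintro ⟨hs, hes⟩
      have hc : (s \ e).card = 1 := by
        rw [card_sdiff_of_subset hes, h.card3 s hs, he]
      obtain ⟨w, hw⟩ := card_eq_one.mp hc
      have hws : w ∈ s ∧ w ∉ e := by
        have : w ∈ s \ e := by rw [hw]; exact mem_singleton_self w
        exact mem_sdiff.mp this
      have hse : insert w e = s := by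
        apply eq_of_subset_of_card_le
        · intro x hx
          rcases mem_insert.mp hx with rfl | hx
          · exact hws.1
          · exact hes hx
        · rw [card_insert_of_notMem hws.2, h.card3 s hs, he]
      by_cases hwt : w ∈ t
      · left
        have hwv : w = v := by
          by_contra hne
          exact hws.2 (hee ▸ mem_erase.mpr ⟨hne, hwt⟩)
        rw [← hse, hwv, ← hee, insert_erase hvt.1]
      · right
        rw [← hu w hwt (hse.symm ▸ hs), hse]
    · rintro (rfl | rfl)
      · exact ⟨ht, het⟩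
      · exact ⟨hT, subset_insert _ _⟩
  rw [key, card_pair]
  rintro rfl
  exact hv' (mem_insert_self _ _)

theorem exists_complex {T : Finset (Finset E3)} (h : IsComb T) (g : IsGeom id T) :
    ∃ K : Geometry.SimplicialComplex ℝ (EuclideanSpace ℝ (Fin 3)),
      K.faces.Finite ∧
      (∀ s ∈ K.faces, s.card ≤ 3) ∧
      (∀ s ∈ K.faces, ∃ t ∈ K.faces, s ⊆ t ∧ t.card = 3) ∧
      (∀ e ∈ K.faces, e.card = 2 →
        {t : Finset (EuclideanSpace ℝ (Fin 3)) | t ∈ K.faces ∧ e ⊆ t ∧ t.card = 3}.ncard = 2) ∧
      (∀ v : EuclideanSpace ℝ (Fin 3), ({v} : Finset (EuclideanSpace ℝ (Fin 3))) ∈ K.faces →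
        (SimpleGraph.fromRel
          (fun a b : {a : EuclideanSpace ℝ (Fin 3) //
              a ≠ v ∧ ({v, a} : Finset (EuclideanSpace ℝ (Fin 3))) ∈ K.faces} =>
            ({v, a.1, b.1} : Finset (EuclideanSpace ℝ (Fin 3))) ∈ K.faces)).Connected) ∧
      (SimpleGraph.fromRel
          (fun a b : {x : EuclideanSpace ℝ (Fin 3) //
              ({x} : Finset (EuclideanSpace ℝ (Fin 3))) ∈ K.faces} =>
            ({a.1, b.1} : Finset (EuclideanSpace ℝ (Fin 3))) ∈ K.faces)).Connected ∧
      {x : EuclideanSpace ℝ (Fin 3) |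
          ({x} : Finset (EuclideanSpace ℝ (Fin 3))) ∈ K.faces}.ncard = (T.biUnion id).card ∧
      2 * ({s : Finset (EuclideanSpace ℝ (Fin 3)) | s ∈ K.faces ∧ s.card = 2}.ncard) =
        3 * T.card := by
  refine ⟨cx T g, ?_, ?_, ?_, ?_, ?_, ?_, ?_, ?_⟩
  · refine (T.biUnion (fun t => t.powerset)).finite_toSet.subset ?_
    intro s hs
    obtain ⟨-, t, ht, hst⟩ := mem_cx.mp hs
    simp only [coe_biUnion, Set.mem_iUnion]
    exact ⟨t, ht, by simpa using hst⟩
  · intro s hs
    obtain ⟨-, t, ht, hst⟩ := mem_cx.mp hs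
    exact (card_le_card hst).trans (h.card3 t ht).le
  · intro s hs
    obtain ⟨-, t, ht, hst⟩ := mem_cx.mp hs
    have := (mem_cx3 h (g := g)).mpr ht
    exact ⟨t, this.1, hst, this.2⟩
  · intro e he he2
    obtain ⟨-, t, ht, het⟩ := mem_cx.mp he
    have e1 : {t : Finset E3 | t ∈ (cx T g).faces ∧ e ⊆ t ∧ t.card = 3}
        = ((T.filter (fun s => e ⊆ s) : Finset (Finset E3)) : Set (Finset E3)) := by
      ext s
      simp only [Set.mem_ofPred_eq, coe_filter]
      rw [← mem_cx3 h (g := g)]
      tauto
    rw [e1, Set.ncard_coe_finset]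
    exact two_set h he2 ht het
  · intro v hv
    obtain ⟨-, t, ht, hvt⟩ := mem_cx.mp hv
    rw [singleton_subset_iff] at hvt
    set G := (SimpleGraph.fromRel
          (fun a b : {a : EuclideanSpace ℝ (Fin 3) //
              a ≠ v ∧ ({v, a} : Finset (EuclideanSpace ℝ (Fin 3))) ∈ (cx T g).faces} =>
            ({v, a.1, b.1} : Finset (EuclideanSpace ℝ (Fin 3))) ∈ (cx T g).faces)) with hG
    have hpre : G.Preconnected := by
      rintro ⟨a, hav, ha⟩ ⟨b, hbv, hb⟩
      obtain ⟨-, ta, hta, hvta⟩ := mem_cx.mp ha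
      obtain ⟨-, tb, htb, hvtb⟩ := mem_cx.mp hb
      have h1 : ReflTransGen (LA T v) a b :=
        h.link v a b ⟨ta, hta, hvta (by simp), hvta (by simp), hvta (by simp), hav, hav⟩
          ⟨tb, htb, hvtb (by simp), hvtb (by simp), hvtb (by simp), hbv, hbv⟩
      have key : ∀ c, ReflTransGen (LA T v) a c → ∀ hc, G.Reachable ⟨a, hav, ha⟩ ⟨c, hc⟩ := by
        intro c hc
        induction hc with
        | refl => intro _; exact SimpleGraph.Reachable.refl _
        | @tail d c hd hdc ih =>
          intro hc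
          obtain ⟨r, hr, h1, h2, h3, h4, h5⟩ := hdc
          have hdm : d ≠ v ∧ ({v, d} : Finset E3) ∈ (cx T g).faces := by
            refine ⟨h4, mem_cx.mpr ⟨⟨v, by simp⟩, r, hr, ?_⟩⟩
            intro x hx
            simp only [mem_insert, mem_singleton] at hx
            rcases hx with rfl | rfl <;> assumption
          refine (ih hdm).trans ?_
          by_cases hdc : d = c
          · subst hdc; exact SimpleGraph.Reachable.refl _
          · apply SimpleGraph.Adj.reachable
            rw [hG, SimpleGraph.fromRel_adj]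
            refine ⟨fun e => hdc (congrArg Subtype.val e), Or.inl ?_⟩
            refine mem_cx.mpr ⟨⟨v, by simp⟩, r, hr, ?_⟩
            intro x hx
            simp only [mem_insert, mem_singleton] at hx
            rcases hx with rfl | rfl | rfl <;> assumption
      exact key b h1 _
    have hne : ∃ a ∈ t, a ≠ v := by
      have : 1 < t.card := by rw [h.card3 t ht]; norm_num
      exact exists_mem_ne this v
    obtain ⟨a, hat, hav⟩ := hne
    have : Nonempty {a : EuclideanSpace ℝ (Fin 3) //
              a ≠ v ∧ ({v, a} : Finset (EuclideanSpace ℝ (Fin 3))) ∈ (cx T g).faces} := by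
      refine ⟨⟨a, hav, mem_cx.mpr ⟨⟨v, by simp⟩, t, ht, ?_⟩⟩⟩
      intro x hx
      simp only [mem_insert, mem_singleton] at hx
      rcases hx with rfl | rfl <;> assumption
    exact SimpleGraph.Connected.mk hpre
  · set G := (SimpleGraph.fromRel
          (fun a b : {x : EuclideanSpace ℝ (Fin 3) //
              ({x} : Finset (EuclideanSpace ℝ (Fin 3))) ∈ (cx T g).faces} =>
            ({a.1, b.1} : Finset (EuclideanSpace ℝ (Fin 3))) ∈ (cx T g).faces)) with hG
    have hpre : G.Preconnected := by
      rintro ⟨a, ha⟩ ⟨b, hb⟩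
      obtain ⟨-, ta, hta, hvta⟩ := mem_cx.mp ha
      obtain ⟨-, tb, htb, hvtb⟩ := mem_cx.mp hb
      rw [singleton_subset_iff] at hvta hvtb
      have h1 : ReflTransGen (GA T) a b :=
        h.conn a b ⟨ta, hta, hvta, hvta⟩ ⟨tb, htb, hvtb, hvtb⟩
      have key : ∀ c, ReflTransGen (GA T) a c → ∀ hc, G.Reachable ⟨a, ha⟩ ⟨c, hc⟩ := by
        intro c hc
        induction hc with
        | refl => intro _; exact SimpleGraph.Reachable.refl _
        | @tail d c hd hdc ih =>
          intro hc
          obtain ⟨r, hr, h1, h2⟩ := hdc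
          have hdm : ({d} : Finset E3) ∈ (cx T g).faces :=
            mem_cx.mpr ⟨⟨d, by simp⟩, r, hr, by simpa using h1⟩
          refine (ih hdm).trans ?_
          by_cases hdc : d = c
          · subst hdc; exact SimpleGraph.Reachable.refl _
          · apply SimpleGraph.Adj.reachable
            rw [hG, SimpleGraph.fromRel_adj]
            refine ⟨fun e => hdc (congrArg Subtype.val e), Or.inl ?_⟩
            refine mem_cx.mpr ⟨⟨d, by simp⟩, r, hr, ?_⟩
            intro x hx
            simp only [mem_insert, mem_singleton] at hx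
            rcases hx with rfl | rfl <;> assumption
      exact key b h1 _
    obtain ⟨t, ht⟩ := h.nonempty
    obtain ⟨a, hat⟩ := card_pos.mp (show 0 < t.card by rw [h.card3 t ht]; norm_num)
    have : Nonempty {x : EuclideanSpace ℝ (Fin 3) //
              ({x} : Finset (EuclideanSpace ℝ (Fin 3))) ∈ (cx T g).faces} :=
      ⟨⟨a, mem_cx.mpr ⟨⟨a, by simp⟩, t, ht, by simpa using hat⟩⟩⟩
    exact SimpleGraph.Connected.mk hpre
  · have e1 : {x : E3 | ({x} : Finset E3) ∈ (cx T g).faces}
        = ((T.biUnion id : Finset E3) : Set E3) := by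
      ext x
      simp only [Set.mem_ofPred_eq, mem_coe, mem_biUnion, id]
      rw [mem_cx]
      simp
    rw [e1, Set.ncard_coe_finset]
  · set Ed : Finset (Finset E3) := T.biUnion (fun t => t.powersetCard 2) with hEd
    have e1 : {s : Finset E3 | s ∈ (cx T g).faces ∧ s.card = 2} = (Ed : Set (Finset E3)) := by
      ext s
      simp only [Set.mem_ofPred_eq, mem_coe, hEd, mem_biUnion, mem_powersetCard]
      rw [mem_cx]
      constructor
      · rintro ⟨⟨-, t, ht, hst⟩, hc⟩
        exact ⟨t, ht, hst, hc⟩
      · rintro ⟨t, ht, hst, hc⟩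
        exact ⟨⟨card_pos.mp (by rw [hc]; norm_num), t, ht, hst⟩, hc⟩
    rw [e1, Set.ncard_coe_finset]
    have h1 := sum_card_bipartiteAbove_eq_sum_card_bipartiteBelow
      (s := Ed) (t := T) (fun (e : Finset E3) (t : Finset E3) => e ⊆ t)
    have h2 : ∑ e ∈ Ed, (T.bipartiteAbove (fun (e : Finset E3) (t : Finset E3) => e ⊆ t) e).card
        = Ed.card * 2 := by
      rw [← smul_eq_mul, ← sum_const]
      refine sum_congr rfl fun e he => ?_
      obtain ⟨t, ht, het⟩ := mem_biUnion.mp he
      rw [mem_powersetCard] at het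
      exact two_set h het.2 ht het.1
    have h3 : ∑ t ∈ T, (Ed.bipartiteBelow (fun (e : Finset E3) (t : Finset E3) => e ⊆ t) t).card
        = T.card * 3 := by
      rw [← smul_eq_mul, ← sum_const]
      refine sum_congr rfl fun t ht => ?_
      have : Ed.bipartiteBelow (fun (e : Finset E3) (t : Finset E3) => e ⊆ t) t
          = t.powersetCard 2 := by
        ext e
        simp only [bipartiteBelow, mem_filter, mem_powersetCard, hEd, mem_biUnion]
        constructor
        · rintro ⟨⟨t', ht', -, hc⟩, het⟩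
          exact ⟨het, hc⟩
        · rintro ⟨het, hc⟩
          exact ⟨⟨t, ht, het, hc⟩, het⟩
      rw [this, card_powersetCard, h.card3 t ht]
      rfl
    rw [h2, h3] at h1
    omega

end Pool.Agent.Helper40.Surf
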