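import Mathlib
import Pool.Agent.Helper40.Surf.Carrier
import Pool.Agent.Helper40.Surf.Frame
set_option autoImplicit false

/-!
# The spatial picture: points of the triangles in the two half spaces
-/

namespace Pool.Agent.Helper40.Surf

open Finset

/-- the point with given coordinates -/
noncomputable def pt (a b c : ℝ) : E3 := !₂[a, b, c]

@[simp] theorem pt_0 (a b c : ℝ) : (pt a b c) 0 = a := rfl
@[simp] theorem pt_1 (a b c : ℝ) : (pt a b c) 1 = b := rfl
@[simp] theorem pt_2 (a b c : ℝ) : (pt a b c) 2 = c := rfl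

theorem E3_ext {P Q : E3} (h0 : P 0 = Q 0) (h1 : P 1 = Q 1) (h2 : P 2 = Q 2) : P = Q := by
  ext i
  fin_cases i
  · exact h0
  · exact h1
  · exact h2

variable {h : ℕ}

/-- the positions of the vertices -/
noncomputable def pos (h : ℕ) : V → E3
  | .A α s => pt (2 * (ln h α + s)) 0 1
  | .B β s => pt 0 (2 * (ln h β + s)) (-1)
  | .C x y => pt (ln h x) (ln h y) 0
  | .E α β => pt (mx h α β (h - 1)) (my h α β (h - 1)) 0
  | .X α => pt (3 * (ln h α + (h + 1) / 2)) 0 2
  | .Y β => pt 0 (3 * (ln h β + (h + 1) / 2)) (-2)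

theorem comb3 {u v w : V} {P : E3}
    (hP : P ∈ convexHull ℝ (pos h '' (({u, v, w} : Finset V) : Set V))) :
    ∃ a b c : ℝ, 0 ≤ a ∧ 0 ≤ b ∧ 0 ≤ c ∧ a + b + c = 1 ∧
      P = a • pos h u + b • pos h v + c • pos h w := by
  set S : Set E3 := {P | ∃ a b c : ℝ, 0 ≤ a ∧ 0 ≤ b ∧ 0 ≤ c ∧ a + b + c = 1 ∧
      P = a • pos h u + b • pos h v + c • pos h w} with hS
  have hconv : Convex ℝ S := by
    rintro P ⟨a, b, c, ha, hb, hc, hs, rfl⟩ Q ⟨a', b', c', ha', hb', hc', hs', rfl⟩ s t hs0 ht0 hst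
    refine ⟨s * a + t * a', s * b + t * b', s * c + t * c', by positivity, by positivity,
      by positivity, ?_, ?_⟩
    · have : s * a + t * a' + (s * b + t * b') + (s * c + t * c')
        = s * (a + b + c) + t * (a' + b' + c') := by ring
      rw [this, hs, hs']; linarith
    · module
  have hsub : pos h '' (({u, v, w} : Finset V) : Set V) ⊆ S := by
    rintro _ ⟨x, hx, rfl⟩
    simp only [coe_insert, coe_singleton, Set.mem_insert_iff, Set.mem_singleton_iff] at hx
    rcases hx with rfl | rfl | rfl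
    · exact ⟨1, 0, 0, by norm_num, by norm_num, by norm_num, by norm_num, by simp⟩
    · exact ⟨0, 1, 0, by norm_num, by norm_num, by norm_num, by norm_num, by simp⟩
    · exact ⟨0, 0, 1, by norm_num, by norm_num, by norm_num, by norm_num, by simp⟩
  exact convexHull_min hsub hconv hP

/-- membership in a hull is monotone in the vertex set -/
theorem hull_mono {F F' : Set V} (hF : F ⊆ F') {P : E3} (hP : P ∈ convexHull ℝ (pos h '' F)) :
    P ∈ convexHull ℝ (pos h '' F') := convexHull_mono (Set.image_mono hF) hP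

theorem pos_mem {F : Set V} {v : V} (hv : v ∈ F) : pos h v ∈ convexHull ℝ (pos h '' F) :=
  subset_convexHull ℝ _ ⟨v, hv, rfl⟩

theorem AR_hull {w : ℝ} {F : Finset V} (hA : AR h w F) :
    pt (2 * w) 0 1 ∈ convexHull ℝ (pos h '' (F : Set V)) := by
  rcases hA with ⟨α, s, -, -, rfl, rfl⟩ | ⟨α, s, -, -, h1, h2, rfl⟩
  · exact pos_mem (v := V.A α s) (by simp)
  · have e : pt (2 * w) 0 1 = (1 - (w - (ln h α + s))) • pos h (V.A α s)
        + (w - (ln h α + s)) • pos h (V.A α (s + 1)) := by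
      refine E3_ext ?_ ?_ ?_ <;> simp [pos] <;> ring
    rw [e]
    exact convex_convexHull ℝ _ (pos_mem (by simp)) (pos_mem (by simp)) (by linarith) (by linarith)
      (by ring)

theorem BR_hull {w : ℝ} {F : Finset V} (hA : BR h w F) :
    pt 0 (2 * w) (-1) ∈ convexHull ℝ (pos h '' (F : Set V)) := by
  rcases hA with ⟨α, s, -, -, rfl, rfl⟩ | ⟨α, s, -, -, h1, h2, rfl⟩
  · exact pos_mem (v := V.B α s) (by simp)
  · have e : pt 0 (2 * w) (-1) = (1 - (w - (ln h α + s))) • pos h (V.B α s)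
        + (w - (ln h α + s)) • pos h (V.B α (s + 1)) := by
      refine E3_ext ?_ ?_ ?_ <;> simp [pos] <;> ring
    rw [e]
    exact convex_convexHull ℝ _ (pos_mem (by simp)) (pos_mem (by simp)) (by linarith) (by linarith)
      (by ring)

theorem MV_hull (h4 : 4 ≤ h) {α β r : ℕ} (hr : r ≤ nr h α β) :
    pt (mx h α β r) (my h α β r) 0 ∈ convexHull ℝ (pos h '' (MV h α β r : Set V)) := by
  by_cases hp : (α + β) % 2 = 0
  · have e : pt (mx h α β r) (my h α β r) 0 = (1 / 2 : ℝ) • pos h (V.A α r)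
        + (1 / 2 : ℝ) • pos h (V.B β r) := by
      simp only [mx, my, if_pos hp]
      refine E3_ext ?_ ?_ ?_ <;> simp [pos]
    rw [e]
    simp only [MV, if_pos hp]
    exact convex_convexHull ℝ _ (pos_mem (by simp)) (pos_mem (by simp)) (by norm_num) (by norm_num)
      (by norm_num)
  · by_cases hk : r ≤ h - 2
    · have hle : r ≤ sz h β + 1 := by have := sz_ge h β; omega
      have e : pt (mx h α β r) (my h α β r) 0 = (1 / 2 : ℝ) • pos h (V.A α r)
          + (1 / 2 : ℝ) • pos h (V.B β (sz h β + 1 - r)) := by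
        simp only [mx, my, if_neg hp, if_pos hk]
        refine E3_ext ?_ ?_ ?_
        · simp [pos]
        · simp [pos]
          rw [Nat.cast_sub hle]; push_cast; ring
        · simp [pos]
      rw [e]
      simp only [MV, if_neg hp, if_pos hk]
      exact convex_convexHull ℝ _ (pos_mem (by simp)) (pos_mem (by simp)) (by norm_num)
        (by norm_num) (by norm_num)
    · have hr' : r = h - 1 := by
        unfold nr at hr
        rw [if_neg hp] at hr
        omega
      subst hr'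
      simp only [MV, if_neg hp, if_neg hk]
      exact pos_mem (v := V.E α β) (by simp)

theorem QR_hull (h4 : 4 ≤ h) {q1 q2 : ℝ} {F : Finset V} (hQ : QR h q1 q2 F) :
    pt q1 q2 0 ∈ convexHull ℝ (pos h '' (F : Set V)) := by
  rcases hQ with ⟨x, y, -, rfl, rfl, rfl⟩ | ⟨α, β, r, x, y, τ, hs, hF⟩
  · exact pos_mem (v := V.C x y) (by simp)
  · have hm := MV_hull h4 hs.r2
    rcases hF with ⟨ht, rfl⟩ | ⟨-, rfl⟩
    · have e : pt q1 q2 0 = pt (mx h α β r) (my h α β r) 0 := by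
        rw [hs.e1, hs.e2, ht]
        refine E3_ext ?_ ?_ ?_ <;> simp
      rw [e]; exact hm
    · have e : pt q1 q2 0 = (1 - τ) • pos h (V.C x y) + τ • pt (mx h α β r) (my h α β r) 0 := by
        rw [hs.e1, hs.e2]
        refine E3_ext ?_ ?_ ?_ <;> simp [pos] <;> ring
      rw [e]
      refine convex_convexHull ℝ _ (pos_mem (by simp)) (hull_mono ?_ hm) (by linarith [hs.t1])
        hs.t0.le (by ring)
      intro v hv
      simp only [coe_insert, Set.mem_insert_iff]
      exact Or.inr hv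

/-- the upper part -/
def Up (h : ℕ) (F : Finset V) (P : E3) : Prop :=
  ∃ (α : ℕ) (w : ℝ) (FA : Finset V), 0 < P 2 ∧ P 2 ≤ 1 ∧ AR h w FA ∧ FA ⊆ F ∧
    ((P 2 = 1 ∧ P = pt (2 * w) 0 1) ∨
      (P 2 < 1 ∧ ∃ (q1 q2 : ℝ) (FQ : Finset V), UE h α w q1 q2 ∧ QR h q1 q2 FQ ∧ FQ ⊆ F ∧
        P = pt (2 * P 2 * w + (1 - P 2) * q1) ((1 - P 2) * q2) (P 2)))

/-- the middle plane -/
def Ze (h : ℕ) (F : Finset V) (P : E3) : Prop :=
  P 2 = 0 ∧ ∃ FQ : Finset V, QR h (P 0) (P 1) FQ ∧ FQ ⊆ F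

/-- the lower part -/
def Dn (h : ℕ) (F : Finset V) (P : E3) : Prop :=
  ∃ (β : ℕ) (w : ℝ) (FB : Finset V), P 2 < 0 ∧ -1 ≤ P 2 ∧ BR h w FB ∧ FB ⊆ F ∧
    ((P 2 = -1 ∧ P = pt 0 (2 * w) (-1)) ∨
      (-1 < P 2 ∧ ∃ (q1 q2 : ℝ) (FQ : Finset V), UR h β w q1 q2 ∧ QR h q1 q2 FQ ∧ FQ ⊆ F ∧
        P = pt ((1 + P 2) * q1) (-2 * P 2 * w + (1 + P 2) * q2) (P 2)))

theorem Up_inter (h4 : 4 ≤ h) {F F' : Finset V} {P : E3} (hU : Up h F P) (hU' : Up h F' P) :
    P ∈ convexHull ℝ (pos h '' ((F : Set V) ∩ (F' : Set V))) := by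
  obtain ⟨α, w, FA, z0, z1, hA, hAF, hc⟩ := hU
  obtain ⟨α', w', FA', -, -, hA', hAF', hc'⟩ := hU'
  rcases hc with ⟨e1, e2⟩ | ⟨e1, q1, q2, FQ, hue, hq, hqF, e2⟩
  · rcases hc' with ⟨f1, f2⟩ | ⟨f1, -⟩
    · have hw : w = w' := by
        have := congrArg (fun Q : E3 => Q 0) (e2.symm.trans f2)
        simp at this
        exact this
      subst hw
      obtain rfl := AR_unique hA hA'
      rw [e2]
      refine hull_mono ?_ (AR_hull hA)
      intro v hv
      exact ⟨hAF hv, hAF' hv⟩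
    · linarith
  · rcases hc' with ⟨f1, f2⟩ | ⟨f1, q1', q2', FQ', hue', hq', hqF', f2⟩
    · linarith
    · have hz : 0 < 1 - P 2 := by linarith
      have a0 : 2 * P 2 * w + (1 - P 2) * q1 = 2 * P 2 * w' + (1 - P 2) * q1' := by
        have := congrArg (fun Q : E3 => Q 0) (e2.symm.trans f2)
        simpa using this
      have a1 : q2 = q2' := by
        have : (1 - P 2) * q2 = (1 - P 2) * q2' := by
          have := congrArg (fun Q : E3 => Q 1) (e2.symm.trans f2)
          simpa using this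
        exact mul_left_cancel₀ hz.ne' this
      have hw : w = w' := by
        rcases lt_trichotomy w w' with hlt | heq | hgt
        · have := UE_mono h4 hue hue' hlt a1
          have b1 : P 2 * w < P 2 * w' := mul_lt_mul_of_pos_left hlt z0
          have b2 : (1 - P 2) * q1 ≤ (1 - P 2) * q1' := mul_le_mul_of_nonneg_left this hz.le
          linarith
        · exact heq
        · have := UE_mono h4 hue' hue hgt a1.symm
          have b1 : P 2 * w' < P 2 * w := mul_lt_mul_of_pos_left hgt z0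
          have b2 : (1 - P 2) * q1' ≤ (1 - P 2) * q1 := mul_le_mul_of_nonneg_left this hz.le
          linarith
      subst hw a1
      have a2 : q1 = q1' := by
        have : (1 - P 2) * q1 = (1 - P 2) * q1' := by linarith
        exact mul_left_cancel₀ hz.ne' this
      subst a2
      obtain rfl := AR_unique hA hA'
      obtain rfl := QR_unique h4 hq hq'
      have e3 : P = P 2 • pt (2 * w) 0 1 + (1 - P 2) • pt q1 q2 0 := by
        conv_lhs => rw [e2]
        refine E3_ext ?_ ?_ ?_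
        · simp; ring
        · simp
        · simp
      rw [e3]
      refine convex_convexHull ℝ _ (hull_mono ?_ (AR_hull hA)) (hull_mono ?_ (QR_hull h4 hq))
        z0.le hz.le (by ring)
      · intro v hv; exact ⟨hAF hv, hAF' hv⟩
      · intro v hv; exact ⟨hqF hv, hqF' hv⟩

theorem Dn_inter (h4 : 4 ≤ h) {F F' : Finset V} {P : E3} (hU : Dn h F P) (hU' : Dn h F' P) :
    P ∈ convexHull ℝ (pos h '' ((F : Set V) ∩ (F' : Set V))) := by
  obtain ⟨α, w, FA, z0, z1, hA, hAF, hc⟩ := hU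
  obtain ⟨α', w', FA', -, -, hA', hAF', hc'⟩ := hU'
  rcases hc with ⟨e1, e2⟩ | ⟨e1, q1, q2, FQ, hue, hq, hqF, e2⟩
  · rcases hc' with ⟨f1, f2⟩ | ⟨f1, -⟩
    · have hw : w = w' := by
        have := congrArg (fun Q : E3 => Q 1) (e2.symm.trans f2)
        simp at this
        exact this
      subst hw
      obtain rfl := BR_unique hA hA'
      rw [e2]
      refine hull_mono ?_ (BR_hull hA)
      intro v hv
      exact ⟨hAF hv, hAF' hv⟩
    · linarith
  · rcases hc' with ⟨f1, f2⟩ | ⟨f1, q1', q2', FQ', hue', hq', hqF', f2⟩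
    · linarith
    · have hz : 0 < 1 + P 2 := by linarith
      have z0' : 0 < - P 2 := by linarith
      have a0 : -2 * P 2 * w + (1 + P 2) * q2 = -2 * P 2 * w' + (1 + P 2) * q2' := by
        have := congrArg (fun Q : E3 => Q 1) (e2.symm.trans f2)
        simpa using this
      have a1 : q1 = q1' := by
        have : (1 + P 2) * q1 = (1 + P 2) * q1' := by
          have := congrArg (fun Q : E3 => Q 0) (e2.symm.trans f2)
          simpa using this
        exact mul_left_cancel₀ hz.ne' this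
      have hw : w = w' := by
        rcases lt_trichotomy w w' with hlt | heq | hgt
        · have := UR_mono h4 hue hue' hlt a1
          have b1 : (- P 2) * w < (- P 2) * w' := mul_lt_mul_of_pos_left hlt z0'
          have b2 : (1 + P 2) * q2 ≤ (1 + P 2) * q2' := mul_le_mul_of_nonneg_left this hz.le
          linarith
        · exact heq
        · have := UR_mono h4 hue' hue hgt a1.symm
          have b1 : (- P 2) * w' < (- P 2) * w := mul_lt_mul_of_pos_left hgt z0'
          have b2 : (1 + P 2) * q2' ≤ (1 + P 2) * q2 := mul_le_mul_of_nonneg_left this hz.le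
          linarith
      subst hw a1
      have a2 : q2 = q2' := by
        have : (1 + P 2) * q2 = (1 + P 2) * q2' := by linarith
        exact mul_left_cancel₀ hz.ne' this
      subst a2
      obtain rfl := BR_unique hA hA'
      obtain rfl := QR_unique h4 hq hq'
      have e3 : P = (- P 2) • pt 0 (2 * w) (-1) + (1 + P 2) • pt q1 q2 0 := by
        conv_lhs => rw [e2]
        refine E3_ext ?_ ?_ ?_
        · simp
        · simp; ring
        · simp
      rw [e3]
      refine convex_convexHull ℝ _ (hull_mono ?_ (BR_hull hA)) (hull_mono ?_ (QR_hull h4 hq))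
        z0'.le hz.le (by ring)
      · intro v hv; exact ⟨hAF hv, hAF' hv⟩
      · intro v hv; exact ⟨hqF hv, hqF' hv⟩

theorem Ze_inter (h4 : 4 ≤ h) {F F' : Finset V} {P : E3} (hU : Ze h F P) (hU' : Ze h F' P) :
    P ∈ convexHull ℝ (pos h '' ((F : Set V) ∩ (F' : Set V))) := by
  obtain ⟨z0, FQ, hq, hqF⟩ := hU
  obtain ⟨-, FQ', hq', hqF'⟩ := hU'
  obtain rfl := QR_unique h4 hq hq'
  have e : P = pt (P 0) (P 1) 0 := E3_ext rfl rfl z0
  rw [e]
  refine hull_mono ?_ (QR_hull h4 hq)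
  intro v hv
  exact ⟨hqF hv, hqF' hv⟩

/-- one of the three parts -/
def Part (h : ℕ) (F : Finset V) (P : E3) : Prop := Up h F P ∨ Ze h F P ∨ Dn h F P

theorem Part_inter (h4 : 4 ≤ h) {F F' : Finset V} {P : E3} (hU : Part h F P)
    (hU' : Part h F' P) : P ∈ convexHull ℝ (pos h '' ((F : Set V) ∩ (F' : Set V))) := by
  rcases hU with hU | hU | hU <;> rcases hU' with hU' | hU' | hU'
  · exact Up_inter h4 hU hU'
  · obtain ⟨_, _, _, z0, _⟩ := hU
    exact absurd hU'.1 z0.ne'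
  · obtain ⟨_, _, _, z0, _⟩ := hU
    obtain ⟨_, _, _, z0', _⟩ := hU'
    linarith
  · obtain ⟨_, _, _, z0, _⟩ := hU'
    exact absurd hU.1 z0.ne'
  · exact Ze_inter h4 hU hU'
  · obtain ⟨_, _, _, z0, _⟩ := hU'
    exact absurd hU.1 z0.ne
  · obtain ⟨_, _, _, z0, _⟩ := hU
    obtain ⟨_, _, _, z0', _⟩ := hU'
    linarith
  · obtain ⟨_, _, _, z0, _⟩ := hU
    exact absurd hU'.1 z0.ne
  · exact Dn_inter h4 hU hU'

/-- planar combination of a centre and a middle point -/
theorem q_helper {α β r x y : ℕ} (r1 : 1 ≤ r) (r2 : r ≤ nr h α β) (hx : x = α ∨ x = α + 1)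
    (hy : y = β ∨ y = β + 1) (hxy : (x + y) % 2 = 1) {m c κ : ℝ} (hm : 0 ≤ m) (hc : 0 ≤ c)
    (hκ : m + c = κ) (hκ0 : 0 < κ) {F : Finset V} (hF : V.C x y ∈ F) (hMF : MV h α β r ⊆ F) :
    ∃ (q1 q2 : ℝ) (FQ : Finset V), QR h q1 q2 FQ ∧ FQ ⊆ F ∧
      κ * q1 = m * mx h α β r + c * ln h x ∧ κ * q2 = m * my h α β r + c * ln h y ∧
      ((q1 = ln h x ∧ q2 = ln h y) ∨ ∃ τ, InSeg h α β r x y τ q1 q2) := by
  by_cases hm0 : m = 0
  · subst hm0
    refine ⟨ln h x, ln h y, {V.C x y}, Or.inl ⟨x, y, hxy, rfl, rfl, rfl⟩, ?_, ?_, ?_,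
      Or.inl ⟨rfl, rfl⟩⟩
    · simpa using hF
    · rw [← hκ]; ring
    · rw [← hκ]; ring
  · have hm1 : 0 < m := lt_of_le_of_ne hm (Ne.symm hm0)
    set τ := m / κ with hτ
    have t0 : 0 < τ := div_pos hm1 hκ0
    have t1 : τ ≤ 1 := by rw [hτ, div_le_one hκ0]; linarith
    have hs : InSeg h α β r x y τ (ln h x + τ * (mx h α β r - ln h x))
        (ln h y + τ * (my h α β r - ln h y)) :=
      ⟨r1, r2, hx, hy, hxy, t0, t1, rfl, rfl⟩
    have hκτ : κ * τ = m := by rw [hτ]; field_simp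
    refine ⟨_, _, if τ = 1 then MV h α β r else insert (V.C x y) (MV h α β r),
      Or.inr ⟨α, β, r, x, y, τ, hs, ?_⟩, ?_, ?_, ?_, Or.inr ⟨τ, hs⟩⟩
    · by_cases ht : τ = 1
      · left; exact ⟨ht, by rw [if_pos ht]⟩
      · right; exact ⟨ht, by rw [if_neg ht]⟩
    · split_ifs
      · exact hMF
      · intro v hv
        rcases mem_insert.mp hv with rfl | hv
        · exact hF
        · exact hMF hv
    · have : κ * (ln h x + τ * (mx h α β r - ln h x))
          = κ * ln h x + (κ * τ) * (mx h α β r - ln h x) := by ring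
      rw [this, hκτ, ← hκ]; ring
    · have : κ * (ln h y + τ * (my h α β r - ln h y))
          = κ * ln h y + (κ * τ) * (my h α β r - ln h y) := by ring
      rw [this, hκτ, ← hκ]; ring

theorem up_helper {α β s x y : ℕ} (s1 : 1 ≤ s) (s2 : s ≤ sz h α) (r1 : 1 ≤ ci h α β s)
    (r2 : ci h α β s ≤ nr h α β) (hx : x = α ∨ x = α + 1)
    (hy : y = β ∨ y = β + 1) (hxy : (x + y) % 2 = 1) {z m c : ℝ} (hz : 0 < z) (hm : 0 ≤ m)
    (hc : 0 ≤ c) (hs : z + m + c = 1) {F : Finset V} {P : E3}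
    (hP : P = pt (2 * z * (ln h α + s) + m * mx h α β (ci h α β s) + c * ln h x)
      (m * my h α β (ci h α β s) + c * ln h y) z) (hA : V.A α s ∈ F) (hC : V.C x y ∈ F)
    (hMF : MV h α β (ci h α β s) ⊆ F) : Up h F P := by
  have hPz : P 2 = z := by rw [hP]; rfl
  refine ⟨α, ln h α + s, {V.A α s}, by rw [hPz]; exact hz, by rw [hPz]; linarith,
    Or.inl ⟨α, s, s1, s2, rfl, rfl⟩, by simpa using hA, ?_⟩
  by_cases hz1 : z = 1
  · left
    have hm0 : m = 0 := by linarith
    have hc0 : c = 0 := by linarith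
    refine ⟨by rw [hPz, hz1], ?_⟩
    rw [hP, hm0, hc0, hz1]
    refine E3_ext ?_ ?_ ?_ <;> simp
  · right
    have hz1' : z < 1 := lt_of_le_of_ne (by linarith) hz1
    obtain ⟨q1, q2, FQ, hq, hqF, k1, k2, hc⟩ := q_helper (m := m) (c := c) (κ := 1 - z) r1 r2 hx hy
      hxy hm hc (by linarith) (by linarith) hC hMF
    refine ⟨by rw [hPz]; exact hz1', q1, q2, FQ, ⟨mem_band s1 s2, ?_⟩, hq, hqF, ?_⟩
    · rcases hc with ⟨e1, e2⟩ | ⟨τ, hs⟩
      · left; exact ⟨x, y, hx, hxy, e1, e2⟩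
      · right; exact ⟨β, s, x, y, τ, rfl, hs⟩
    · rw [hPz, k1, k2, hP]
      refine E3_ext ?_ ?_ ?_
      · simp; ring
      · simp
      · simp

theorem dn_helper {α β s x y : ℕ} (s1 : 1 ≤ s) (s2 : s ≤ sz h β) (r1 : 1 ≤ ri h α β s)
    (r2 : ri h α β s ≤ nr h α β) (hx : x = α ∨ x = α + 1)
    (hy : y = β ∨ y = β + 1) (hxy : (x + y) % 2 = 1) {z m c : ℝ} (hz : 0 < z) (hm : 0 ≤ m)
    (hc : 0 ≤ c) (hs : z + m + c = 1) {F : Finset V} {P : E3}
    (hP : P = pt (m * mx h α β (ri h α β s) + c * ln h x)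
      (2 * z * (ln h β + s) + m * my h α β (ri h α β s) + c * ln h y) (-z)) (hB : V.B β s ∈ F)
    (hC : V.C x y ∈ F) (hMF : MV h α β (ri h α β s) ⊆ F) : Dn h F P := by
  have hPz : P 2 = -z := by rw [hP]; rfl
  refine ⟨β, ln h β + s, {V.B β s}, by rw [hPz]; linarith, by rw [hPz]; linarith,
    Or.inl ⟨β, s, s1, s2, rfl, rfl⟩, by simpa using hB, ?_⟩
  by_cases hz1 : z = 1
  · left
    have hm0 : m = 0 := by linarith
    have hc0 : c = 0 := by linarith
    refine ⟨by rw [hPz, hz1], ?_⟩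
    rw [hP, hm0, hc0, hz1]
    refine E3_ext ?_ ?_ ?_ <;> simp
  · right
    have hz1' : z < 1 := lt_of_le_of_ne (by linarith) hz1
    obtain ⟨q1, q2, FQ, hq, hqF, k1, k2, hc⟩ := q_helper (m := m) (c := c) (κ := 1 - z) r1 r2 hx hy
      hxy hm hc (by linarith) (by linarith) hC hMF
    refine ⟨by rw [hPz]; linarith, q1, q2, FQ, ⟨mem_band s1 s2, ?_⟩, hq, hqF, ?_⟩
    · rcases hc with ⟨e1, e2⟩ | ⟨τ, hs⟩
      · left; exact ⟨x, y, hy, hxy, e1, e2⟩
      · right; exact ⟨α, s, x, y, τ, rfl, hs⟩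
    · rw [hPz]
      have e : 1 + -z = 1 - z := by ring
      rw [e, k1, k2, hP]
      refine E3_ext ?_ ?_ ?_
      · simp
      · simp; ring
      · simp

theorem ze_helper {α β r x y : ℕ} (r1 : 1 ≤ r)
    (r2 : r ≤ nr h α β) (hx : x = α ∨ x = α + 1)
    (hy : y = β ∨ y = β + 1) (hxy : (x + y) % 2 = 1) {m c : ℝ} (hm : 0 ≤ m)
    (hc : 0 ≤ c) (hs : m + c = 1) {F : Finset V} {P : E3}
    (hP : P = pt (m * mx h α β r + c * ln h x) (m * my h α β r + c * ln h y) 0)
    (hC : V.C x y ∈ F) (hMF : MV h α β r ⊆ F) : Ze h F P := by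
  obtain ⟨q1, q2, FQ, hq, hqF, k1, k2, -⟩ := q_helper (m := m) (c := c) (κ := 1) r1 r2 hx hy
      hxy hm hc (by linarith) (by linarith) hC hMF
  rw [one_mul] at k1 k2
  refine ⟨by rw [hP]; rfl, FQ, ?_, hqF⟩
  rw [hP]
  simp only [pt_0, pt_1]
  rw [← k1, ← k2]
  exact hq

end Pool.Agent.Helper40.Surf
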