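import Mathlib
import Pool.Agent.Helper40.Surf.Geom
set_option autoImplicit false

/-!
# The triangles that are not covers
-/

namespace Pool.Agent.Helper40.Surf

open Finset

variable {h L K : ℕ}

theorem part_AB (ok : Ok h L K) {α β x y s s' : ℕ} (hc : Cor L K α β x y)
    (hp : Pr h L K α β (.A α s) (.B β s')) {P : E3}
    (hP : P ∈ convexHull ℝ (pos h '' (({V.C x y, V.A α s, V.B β s'} : Finset V) : Set V))) :
    Part h {V.C x y, V.A α s, V.B β s'} P := by
  obtain ⟨h4, h2, L2, Le, K2, Ke⟩ := id ok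
  obtain ⟨hx, hy, hxy, -⟩ := hc
  have key : 1 ≤ s ∧ s ≤ sz h α ∧ 1 ≤ s' ∧ s' ≤ sz h β ∧ s ≤ nr h α β ∧ ci h α β s = s ∧
      ri h α β s' = s ∧ mx h α β s = ln h α + s ∧ my h α β s = ln h β + s' ∧
      MV h α β s = {V.A α s, V.B β s'} := by
    simp only [Pr] at hp
    obtain ⟨-, -, a1, a2, b1, b2, s1, s2, s1', s2', hss⟩ := hp
    by_cases hpar : (α + β) % 2 = 0
    · rw [if_pos hpar] at hss
      subst hss
      refine ⟨s1, s2, s1', s2', ?_, ?_, ?_, ?_, ?_, ?_⟩
      · simp only [nr, if_pos hpar]; exact s2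
      · simp only [ci, if_pos hpar]
      · simp only [ri, if_pos hpar]
      · simp only [mx, if_pos hpar]
      · simp only [my, if_pos hpar]
      · simp only [MV, if_pos hpar]
    · rw [if_neg hpar] at hss
      have hk : s ≤ h - 2 := by
        rcases Nat.mod_two_eq_zero_or_one α with e | e
        · have : sz h α = h - 2 := by simp [sz, e]
          omega
        · have : sz h β = h - 2 := by
            have : β % 2 = 0 := by omega
            simp [sz, this]
          omega
      have e1 : sz h β + 1 - s' = s := by omega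
      have e2 : sz h β + 1 - s = s' := by omega
      have e3 : ((s : ℕ) : ℝ) + s' = sz h β + 1 := by exact_mod_cast hss
      refine ⟨s1, s2, s1', s2', ?_, ?_, ?_, ?_, ?_, ?_⟩
      · simp only [nr, if_neg hpar]; omega
      · simp only [ci, if_neg hpar]; omega
      · simp only [ri, if_neg hpar, e1]; omega
      · simp only [mx, if_neg hpar, if_pos hk]
      · simp only [my, if_neg hpar, if_pos hk]; linarith
      · simp only [MV, if_neg hpar, if_pos hk, e2]
  obtain ⟨s1, s2, s1', s2', k1, k2, k3, k4, k5, k6⟩ := key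
  obtain ⟨c, a, b, hc0, ha0, hb0, hsum, rfl⟩ := comb3 hP
  have hsub : ({V.A α s, V.B β s'} : Finset V) ⊆ {V.C x y, V.A α s, V.B β s'} :=
    subset_insert _ _
  rcases lt_trichotomy b a with hlt | heq | hgt
  · left
    refine up_helper (β := β) (z := a - b) (m := 2 * b) (c := c) s1 s2 (by rw [k2]; exact s1)
      (by rw [k2]; exact k1) hx hy hxy (by linarith) (by linarith) hc0 (by linarith) ?_
      (by simp) (by simp) (by rw [k2, k6]; exact hsub)
    rw [k2, k4, k5]
    refine E3_ext ?_ ?_ ?_ <;> simp [pos] <;> ring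
  · right; left
    refine ze_helper (r := s) (m := 2 * a) (c := c) s1 k1 hx hy hxy (by linarith) hc0
      (by linarith) ?_ (by simp) (by rw [k6]; exact hsub)
    rw [k4, k5, heq]
    refine E3_ext ?_ ?_ ?_ <;> simp [pos] <;> ring
  · right; right
    refine dn_helper (α := α) (z := b - a) (m := 2 * a) (c := c) s1' s2' (by rw [k3]; exact s1)
      (by rw [k3]; exact k1) hx hy hxy (by linarith) (by linarith) hc0 (by linarith) ?_
      (by simp) (by simp) (by rw [k3, k6]; exact hsub)
    rw [k3, k4, k5]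
    refine E3_ext ?_ ?_ ?_ <;> simp [pos] <;> ring

theorem part_AE (ok : Ok h L K) {α β x y s : ℕ} (hc : Cor L K α β x y)
    (hp : Pr h L K α β (.A α s) (.E α β)) {P : E3}
    (hP : P ∈ convexHull ℝ (pos h '' (({V.C x y, V.A α s, V.E α β} : Finset V) : Set V))) :
    Part h {V.C x y, V.A α s, V.E α β} P := by
  obtain ⟨h4, h2, L2, Le, K2, Ke⟩ := id ok
  obtain ⟨hx, hy, hxy, -⟩ := hc
  simp only [Pr] at hp
  obtain ⟨-, -, -, a1, a2, b1, b2, hα, hβ, hs⟩ := hp
  have hpar : ¬ (α + β) % 2 = 0 := by omega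
  have sA : sz h α = h := by simp [sz, hα]
  have k1 : h - 1 ≤ nr h α β := by simp only [nr, if_neg hpar]; omega
  have k2 : ci h α β s = h - 1 := by simp only [ci, if_neg hpar]; omega
  have k6 : MV h α β (h - 1) = {V.E α β} := by
    simp only [MV, if_neg hpar]
    rw [if_neg (by omega)]
  obtain ⟨c, a, e, hc0, ha0, he0, hsum, rfl⟩ := comb3 hP
  rcases ha0.eq_or_lt with heq | hlt
  · right; left
    refine ze_helper (r := h - 1) (m := e) (c := c) (by omega) k1 hx hy hxy he0 hc0
      (by linarith) ?_ (by simp) (by rw [k6]; simp)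
    rw [← heq]
    refine E3_ext ?_ ?_ ?_ <;> simp [pos] <;> ring
  · left
    refine up_helper (β := β) (s := s) (z := a) (m := e) (c := c) (by omega) (by omega)
      (by rw [k2]; omega)
      (by rw [k2]; exact k1) hx hy hxy hlt he0 hc0 (by linarith) ?_
      (by simp) (by simp) (by rw [k2, k6]; simp)
    rw [k2]
    refine E3_ext ?_ ?_ ?_ <;> simp [pos] <;> ring

theorem part_BE (ok : Ok h L K) {α β x y s : ℕ} (hc : Cor L K α β x y)
    (hp : Pr h L K α β (.B β s) (.E α β)) {P : E3}
    (hP : P ∈ convexHull ℝ (pos h '' (({V.C x y, V.B β s, V.E α β} : Finset V) : Set V))) :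
    Part h {V.C x y, V.B β s, V.E α β} P := by
  obtain ⟨h4, h2, L2, Le, K2, Ke⟩ := id ok
  obtain ⟨hx, hy, hxy, -⟩ := hc
  simp only [Pr] at hp
  obtain ⟨-, -, -, a1, a2, b1, b2, hα, hβ, hs⟩ := hp
  have hpar : ¬ (α + β) % 2 = 0 := by omega
  have sB : sz h β = h := by simp [sz, hβ]
  have k1 : h - 1 ≤ nr h α β := by simp only [nr, if_neg hpar]; omega
  have k2 : ri h α β s = h - 1 := by simp only [ri, if_neg hpar]; omega
  have k6 : MV h α β (h - 1) = {V.E α β} := by
    simp only [MV, if_neg hpar]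
    rw [if_neg (by omega)]
  obtain ⟨c, a, e, hc0, ha0, he0, hsum, rfl⟩ := comb3 hP
  rcases ha0.eq_or_lt with heq | hlt
  · right; left
    refine ze_helper (r := h - 1) (m := e) (c := c) (by omega) k1 hx hy hxy he0 hc0
      (by linarith) ?_ (by simp) (by rw [k6]; simp)
    rw [← heq]
    refine E3_ext ?_ ?_ ?_ <;> simp [pos] <;> ring
  · right; right
    refine dn_helper (α := α) (s := s) (z := a) (m := e) (c := c) (by omega) (by omega)
      (by rw [k2]; omega)
      (by rw [k2]; exact k1) hx hy hxy hlt he0 hc0 (by linarith) ?_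
      (by simp) (by simp) (by rw [k2, k6]; simp)
    rw [k2]
    refine E3_ext ?_ ?_ ?_ <;> simp [pos] <;> ring

theorem part_AA {α β x y s : ℕ} (hc : Cor L K α β x y)
    (hp : Pr h L K α β (.A α s) (.A α (s + 1))) {P : E3}
    (hP : P ∈ convexHull ℝ (pos h '' (({V.C x y, V.A α s, V.A α (s + 1)} : Finset V) : Set V))) :
    Part h {V.C x y, V.A α s, V.A α (s + 1)} P := by
  obtain ⟨hx, hy, hxy, -⟩ := hc
  simp only [Pr] at hp
  obtain ⟨-, -, a1, a2, -, s1, -, s2, -⟩ := hp
  obtain ⟨c, a, b, hc0, ha0, hb0, hsum, rfl⟩ := comb3 hP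
  set P : E3 := c • pos h (V.C x y) + a • pos h (V.A α s) + b • pos h (V.A α (s + 1)) with hPdef
  have hPz : P 2 = a + b := by simp [hPdef, pos]
  have hP0 : P 0 = c * ln h x + 2 * (a * (ln h α + s) + b * (ln h α + s + 1)) := by
    simp [hPdef, pos]; ring
  have hP1 : P 1 = c * ln h y := by simp [hPdef, pos]
  rcases (add_nonneg ha0 hb0).eq_or_lt with heq | hlt
  · right; left
    have ha : a = 0 := by linarith
    have hb : b = 0 := by linarith
    have hc1 : c = 1 := by linarith
    refine ⟨by rw [hPz]; linarith, {V.C x y}, Or.inl ⟨x, y, hxy, ?_, ?_, rfl⟩, by simp⟩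
    · rw [hP0, ha, hb, hc1]; ring
    · rw [hP1, hc1]; ring
  · left
    have hAR : ∃ (w : ℝ) (FA : Finset V), AR h w FA ∧ FA ⊆ {V.C x y, V.A α s, V.A α (s + 1)} ∧
        (a + b) * w = a * (ln h α + s) + b * (ln h α + s + 1) ∧
        (ln h α < w ∧ w < ln h (α + 1)) := by
      have m1 := mem_band s1 (by omega : s ≤ sz h α)
      have m2 := mem_band (h := h) (n := α) (s := s + 1) (by omega) s2
      push_cast at m2
      by_cases hb : b = 0
      · refine ⟨ln h α + s, {V.A α s}, Or.inl ⟨α, s, s1, by omega, rfl, rfl⟩, by simp, ?_, m1⟩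
        rw [hb]; ring
      by_cases ha : a = 0
      · refine ⟨ln h α + s + 1, {V.A α (s + 1)}, Or.inl ⟨α, s + 1, by omega, s2, ?_, rfl⟩,
          by simp, ?_, ?_⟩
        · push_cast; ring
        · rw [ha]; ring
        · constructor <;> linarith [m2.1, m2.2]
      · have hb' : 0 < b := lt_of_le_of_ne hb0 (Ne.symm hb)
        have ha' : 0 < a := lt_of_le_of_ne ha0 (Ne.symm ha)
        have t1 : 0 < b / (a + b) := div_pos hb' hlt
        have t2 : b / (a + b) < 1 := by rw [div_lt_one hlt]; linarith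
        refine ⟨ln h α + s + b / (a + b), {V.A α s, V.A α (s + 1)},
          Or.inr ⟨α, s, s1, s2, by linarith, by linarith, rfl⟩, subset_insert _ _, ?_, ?_⟩
        · have : (a + b) * (b / (a + b)) = b := by field_simp
          linear_combination this
        · constructor <;> linarith [m1.1, m2.2]
    obtain ⟨w, FA, hA, hAF, hw, hband⟩ := hAR
    refine ⟨α, w, FA, by rw [hPz]; exact hlt, by rw [hPz]; linarith, hA, hAF, ?_⟩
    by_cases hz : a + b = 1
    · left
      have hc0' : c = 0 := by linarith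
      refine ⟨by rw [hPz, hz], ?_⟩
      refine E3_ext ?_ ?_ ?_
      · rw [hP0, ← hw, hz, hc0']; simp
      · rw [hP1, hc0']; simp
      · rw [hPz, hz]; simp
    · right
      refine ⟨by rw [hPz]; exact lt_of_le_of_ne (by linarith) hz, ln h x, ln h y, {V.C x y},
        ⟨hband, Or.inl ⟨x, y, hx, hxy, rfl, rfl⟩⟩, Or.inl ⟨x, y, hxy, rfl, rfl, rfl⟩, by simp, ?_⟩
      have hc1 : 1 - P 2 = c := by rw [hPz]; linarith
      refine E3_ext ?_ ?_ ?_
      · rw [hc1, pt_0, hP0, ← hw, hPz]; ring
      · rw [hc1, pt_1, hP1]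
      · rw [pt_2]

theorem part_BB {α β x y s : ℕ} (hc : Cor L K α β x y)
    (hp : Pr h L K α β (.B β s) (.B β (s + 1))) {P : E3}
    (hP : P ∈ convexHull ℝ (pos h '' (({V.C x y, V.B β s, V.B β (s + 1)} : Finset V) : Set V))) :
    Part h {V.C x y, V.B β s, V.B β (s + 1)} P := by
  obtain ⟨hx, hy, hxy, -⟩ := hc
  simp only [Pr] at hp
  obtain ⟨-, -, a1, a2, -, s1, -, s2, -⟩ := hp
  obtain ⟨c, a, b, hc0, ha0, hb0, hsum, rfl⟩ := comb3 hP
  set P : E3 := c • pos h (V.C x y) + a • pos h (V.B β s) + b • pos h (V.B β (s + 1)) with hPdef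
  have hPz : P 2 = -(a + b) := by simp [hPdef, pos]; ring
  have hP1 : P 1 = c * ln h y + 2 * (a * (ln h β + s) + b * (ln h β + s + 1)) := by
    simp [hPdef, pos]; ring
  have hP0 : P 0 = c * ln h x := by simp [hPdef, pos]
  rcases (add_nonneg ha0 hb0).eq_or_lt with heq | hlt
  · right; left
    have ha : a = 0 := by linarith
    have hb : b = 0 := by linarith
    have hc1 : c = 1 := by linarith
    refine ⟨by rw [hPz]; linarith, {V.C x y}, Or.inl ⟨x, y, hxy, ?_, ?_, rfl⟩, by simp⟩
    · rw [hP0, hc1]; ring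
    · rw [hP1, ha, hb, hc1]; ring
  · right; right
    have hAR : ∃ (w : ℝ) (FA : Finset V), BR h w FA ∧ FA ⊆ {V.C x y, V.B β s, V.B β (s + 1)} ∧
        (a + b) * w = a * (ln h β + s) + b * (ln h β + s + 1) ∧
        (ln h β < w ∧ w < ln h (β + 1)) := by
      have m1 := mem_band s1 (by omega : s ≤ sz h β)
      have m2 := mem_band (h := h) (n := β) (s := s + 1) (by omega) s2
      push_cast at m2
      by_cases hb : b = 0
      · refine ⟨ln h β + s, {V.B β s}, Or.inl ⟨β, s, s1, by omega, rfl, rfl⟩, by simp, ?_, m1⟩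
        rw [hb]; ring
      by_cases ha : a = 0
      · refine ⟨ln h β + s + 1, {V.B β (s + 1)}, Or.inl ⟨β, s + 1, by omega, s2, ?_, rfl⟩,
          by simp, ?_, ?_⟩
        · push_cast; ring
        · rw [ha]; ring
        · constructor <;> linarith [m2.1, m2.2]
      · have hb' : 0 < b := lt_of_le_of_ne hb0 (Ne.symm hb)
        have ha' : 0 < a := lt_of_le_of_ne ha0 (Ne.symm ha)
        have t1 : 0 < b / (a + b) := div_pos hb' hlt
        have t2 : b / (a + b) < 1 := by rw [div_lt_one hlt]; linarith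
        refine ⟨ln h β + s + b / (a + b), {V.B β s, V.B β (s + 1)},
          Or.inr ⟨β, s, s1, s2, by linarith, by linarith, rfl⟩, subset_insert _ _, ?_, ?_⟩
        · have : (a + b) * (b / (a + b)) = b := by field_simp
          linear_combination this
        · constructor <;> linarith [m1.1, m2.2]
    obtain ⟨w, FA, hA, hAF, hw, hband⟩ := hAR
    refine ⟨β, w, FA, by rw [hPz]; linarith, by rw [hPz]; linarith, hA, hAF, ?_⟩
    by_cases hz : a + b = 1
    · left
      have hc0' : c = 0 := by linarith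
      refine ⟨by rw [hPz, hz], ?_⟩
      refine E3_ext ?_ ?_ ?_
      · rw [hP0, hc0']; simp
      · rw [hP1, ← hw, hz, hc0']; simp
      · rw [hPz, hz]; simp
    · right
      have hz1 : a + b < 1 := lt_of_le_of_ne (by linarith) hz
      refine ⟨by rw [hPz]; linarith, ln h x, ln h y, {V.C x y},
        ⟨hband, Or.inl ⟨x, y, hy, hxy, rfl, rfl⟩⟩, Or.inl ⟨x, y, hxy, rfl, rfl, rfl⟩, by simp, ?_⟩
      have hc1 : 1 + P 2 = c := by rw [hPz]; linarith
      refine E3_ext ?_ ?_ ?_
      · rw [hc1, pt_0, hP0]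
      · rw [hc1, pt_1, hP1, ← hw, hPz]; ring
      · rw [pt_2]

end Pool.Agent.Helper40.Surf
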