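import Mathlib
import Pool.Agent.Helper40.Surf.Parts
import Pool.Agent.Helper40.Surf.Two
set_option autoImplicit false

/-!
# The covers
-/

namespace Pool.Agent.Helper40.Surf

open Finset

variable {h L K : ℕ}

/-- lower side of the wedge containing all but the column covers -/
noncomputable def gB (P : E3) : ℝ := P 1 + 1 - P 2
/-- upper side of the wedge containing all but the column covers -/
noncomputable def gT (R : ℝ) (P : E3) : ℝ := R * (1 - P 2) - P 1
/-- left side of the wedge containing all but the row covers -/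
noncomputable def gL (P : E3) : ℝ := P 0 + 1 + P 2
/-- right side of the wedge containing all but the row covers -/
noncomputable def gR (R : ℝ) (P : E3) : ℝ := R * (1 + P 2) - P 0

theorem gB_comb {a b c : ℝ} (hs : a + b + c = 1) (x y z : E3) :
    gB (a • x + b • y + c • z) = a * gB x + b * gB y + c * gB z := by
  simp only [gB, PiLp.add_apply, PiLp.smul_apply, smul_eq_mul]
  linear_combination (-1 : ℝ) * hs

theorem gT_comb (R : ℝ) {a b c : ℝ} (hs : a + b + c = 1) (x y z : E3) :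
    gT R (a • x + b • y + c • z) = a * gT R x + b * gT R y + c * gT R z := by
  simp only [gT, PiLp.add_apply, PiLp.smul_apply, smul_eq_mul]
  linear_combination (-R) * hs

theorem gL_comb {a b c : ℝ} (hs : a + b + c = 1) (x y z : E3) :
    gL (a • x + b • y + c • z) = a * gL x + b * gL y + c * gL z := by
  simp only [gL, PiLp.add_apply, PiLp.smul_apply, smul_eq_mul]
  linear_combination (-1 : ℝ) * hs

theorem gR_comb (R : ℝ) {a b c : ℝ} (hs : a + b + c = 1) (x y z : E3) :
    gR R (a • x + b • y + c • z) = a * gR R x + b * gR R y + c * gR R z := by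
  simp only [gR, PiLp.add_apply, PiLp.smul_apply, smul_eq_mul]
  linear_combination (-R) * hs

/-- not a column apex -/
def NX : V → Prop
  | .X _ => False
  | _ => True
/-- not a row apex -/
def NY : V → Prop
  | .Y _ => False
  | _ => True

/-- what we need to know about the vertices -/
inductive Val (h L K : ℕ) : V → Prop
  | A (α s : ℕ) (h1 : 1 ≤ α) (h2 : α ≤ L) (h3 : 1 ≤ s) (h4 : s ≤ sz h α) : Val h L K (.A α s)
  | B (β s : ℕ) (h1 : 1 ≤ β) (h2 : β ≤ K) (h3 : 1 ≤ s) (h4 : s ≤ sz h β) : Val h L K (.B β s)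
  | C (x y : ℕ) (h1 : 1 ≤ x) (h2 : x ≤ L + 1) (h3 : 1 ≤ y) (h4 : y ≤ K + 1) (h5 : (x + y) % 2 = 1) :
      Val h L K (.C x y)
  | E (α β : ℕ) (h1 : 1 ≤ α) (h2 : α ≤ L) (h3 : 1 ≤ β) (h4 : β ≤ K) (h5 : (α + β) % 2 = 1) :
      Val h L K (.E α β)
  | X (α : ℕ) (h1 : 1 ≤ α) (h2 : α ≤ L) (h3 : α % 2 = 1) : Val h L K (.X α)
  | Y (β : ℕ) (h1 : 1 ≤ β) (h2 : β ≤ K) (h3 : β % 2 = 1) : Val h L K (.Y β)

theorem val_of_Lk (ok : Ok h L K) {x y : ℕ} {u v : V} (hl : Lk h L K x y u v) : Val h L K u := by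
  rcases u with ⟨a, b⟩ | ⟨a, b⟩ | ⟨a, b⟩ | ⟨a, b⟩ | ⟨a⟩ | ⟨a⟩
  · rw [Lk_A ok] at hl
    exact .A a b (by omega) (by omega) (by omega) (by omega)
  · rw [Lk_B ok] at hl
    exact .B a b (by omega) (by omega) (by omega) (by omega)
  · exact absurd hl not_Lk_C
  · rw [Lk_E ok] at hl
    exact .E a b (by omega) (by omega) (by omega) (by omega) (by omega)
  · rw [Lk_X ok] at hl
    exact .X a (by omega) (by omega) (by omega)
  · rw [Lk_Y ok] at hl
    exact .Y a (by omega) (by omega) (by omega)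

theorem val_C {x y : ℕ} {u v : V} (hl : Lk h L K x y u v) : Val h L K (.C x y) := by
  obtain ⟨α, β, ⟨c1, c2, c3, c4, c5, c6, c7⟩, -⟩ := hl
  exact .C x y c4 c5 c6 c7 c3

theorem E_open (h4 : 4 ≤ h) {α β : ℕ} (hp : (α + β) % 2 = 1) :
    (ln h α < mx h α β (h - 1) ∧ mx h α β (h - 1) < ln h (α + 1)) ∧
      (ln h β < my h α β (h - 1) ∧ my h α β (h - 1) < ln h (β + 1)) := by
  apply m_open h4 (by omega)
  simp only [nr]
  rw [if_neg (by omega)]

/-- middle of an odd band -/
theorem mid_band (h4 : 4 ≤ h) {n : ℕ} (hn : n % 2 = 1) :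
    ln h n < ln h n + (h + 1) / 2 ∧ ln h n + (h + 1) / 2 < ln h (n + 1) := by
  rw [ln_succ, sz_cast_odd hn]
  have : (4 : ℝ) ≤ h := by exact_mod_cast h4
  constructor <;> linarith

theorem ln_ge {h : ℕ} (h4 : 4 ≤ h) {n : ℕ} (hn : 1 ≤ n) : -1 ≤ ln h n := by
  rw [← ln_one h4]; exact ln_le.mpr hn

theorem gB_vert (ok : Ok h L K) {v : V} (hv : Val h L K v) (hx : NX v) : 0 ≤ gB (pos h v) := by
  obtain ⟨h4, h2, L2, Le, K2, Ke⟩ := id ok
  cases hv with
  | A α s h1 h2 h3 h4 => simp [gB, pos]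
  | B β s h1 h2 h3 h5 =>
    have := ln_ge h4 h1
    have e := (mem_band h3 h5).1
    simp only [gB, pos, pt_1, pt_2]; linarith
  | C x y h1 h2 h3 h5 h6 =>
    have := ln_ge h4 h3
    simp only [gB, pos, pt_1, pt_2]; linarith
  | E α β h1 h2 h3 h5 h6 =>
    have := ln_ge h4 h3
    have e := (E_open h4 h6).2.1
    simp only [gB, pos, pt_1, pt_2]; linarith
  | X α h1 h2 h3 => exact hx.elim
  | Y β h1 h2 h3 =>
    have := ln_ge h4 h1
    have e := (mid_band h4 h3).1
    simp only [gB, pos, pt_1, pt_2]; linarith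

theorem gT_vert (ok : Ok h L K) {v : V} (hv : Val h L K v) (hx : NX v) :
    0 ≤ gT (ln h (K + 1)) (pos h v) := by
  obtain ⟨h4, h2, L2, Le, K2, Ke⟩ := id ok
  cases hv with
  | A α s h1 h2 h3 h4 => simp [gT, pos]
  | B β s h1 h2 h3 h5 =>
    have : ln h (β + 1) ≤ ln h (K + 1) := ln_le.mpr (by omega)
    have e := (mem_band h3 h5).2
    simp only [gT, pos, pt_1, pt_2]; linarith
  | C x y h1 h2 h3 h5 h6 =>
    have : ln h y ≤ ln h (K + 1) := ln_le.mpr (by omega)
    simp only [gT, pos, pt_1, pt_2]; linarith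
  | E α β h1 h2 h3 h5 h6 =>
    have : ln h (β + 1) ≤ ln h (K + 1) := ln_le.mpr (by omega)
    have e := (E_open h4 h6).2.2
    simp only [gT, pos, pt_1, pt_2]; linarith
  | X α h1 h2 h3 => exact hx.elim
  | Y β h1 h2 h3 =>
    have : ln h (β + 1) ≤ ln h (K + 1) := ln_le.mpr (by omega)
    have e := (mid_band h4 h3).2
    simp only [gT, pos, pt_1, pt_2]; linarith

theorem gL_vert (ok : Ok h L K) {v : V} (hv : Val h L K v) (hx : NY v) : 0 ≤ gL (pos h v) := by
  obtain ⟨h4, h2, L2, Le, K2, Ke⟩ := id ok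
  cases hv with
  | B β s h1 h2 h3 h4 => simp [gL, pos]
  | A β s h1 h2 h3 h5 =>
    have := ln_ge h4 h1
    have e := (mem_band h3 h5).1
    simp only [gL, pos, pt_0, pt_2]; linarith
  | C x y h1 h2 h3 h5 h6 =>
    have := ln_ge h4 h1
    simp only [gL, pos, pt_0, pt_2]; linarith
  | E α β h1 h2 h3 h5 h6 =>
    have := ln_ge h4 h1
    have e := (E_open h4 h6).1.1
    simp only [gL, pos, pt_0, pt_2]; linarith
  | Y α h1 h2 h3 => exact hx.elim
  | X β h1 h2 h3 =>
    have := ln_ge h4 h1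
    have e := (mid_band h4 h3).1
    simp only [gL, pos, pt_0, pt_2]; linarith

theorem gR_vert (ok : Ok h L K) {v : V} (hv : Val h L K v) (hx : NY v) :
    0 ≤ gR (ln h (L + 1)) (pos h v) := by
  obtain ⟨h4, h2, L2, Le, K2, Ke⟩ := id ok
  cases hv with
  | B β s h1 h2 h3 h4 => simp [gR, pos]
  | A β s h1 h2 h3 h5 =>
    have : ln h (β + 1) ≤ ln h (L + 1) := ln_le.mpr (by omega)
    have e := (mem_band h3 h5).2
    simp only [gR, pos, pt_0, pt_2]; linarith
  | C x y h1 h2 h3 h5 h6 =>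
    have : ln h x ≤ ln h (L + 1) := ln_le.mpr (by omega)
    simp only [gR, pos, pt_0, pt_2]; linarith
  | E α β h1 h2 h3 h5 h6 =>
    have : ln h (α + 1) ≤ ln h (L + 1) := ln_le.mpr (by omega)
    have e := (E_open h4 h6).1.2
    simp only [gR, pos, pt_0, pt_2]; linarith
  | Y α h1 h2 h3 => exact hx.elim
  | X β h1 h2 h3 =>
    have : ln h (β + 1) ≤ ln h (L + 1) := ln_le.mpr (by omega)
    have e := (mid_band h4 h3).2
    simp only [gR, pos, pt_0, pt_2]; linarith

theorem comb2_mem {F : Set V} {u v : V} (hu : u ∈ F) (hv : v ∈ F) {a b : ℝ} (ha : 0 ≤ a)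
    (hb : 0 ≤ b) (hab : a + b = 1) :
    a • pos h u + b • pos h v ∈ convexHull ℝ (pos h '' F) :=
  convex_convexHull ℝ _ (pos_mem hu) (pos_mem hv) ha hb hab

/-- the part of an edge between a centre and a column -/
theorem part_CA {α x y s : ℕ} (s1 : 1 ≤ s) (s2 : s ≤ sz h α) (hx : x = α ∨ x = α + 1)
    (hxy : (x + y) % 2 = 1) {c a : ℝ} (hc : 0 ≤ c) (ha : 0 ≤ a) (hs : c + a = 1) :
    Part h {V.C x y, V.A α s} (c • pos h (V.C x y) + a • pos h (V.A α s)) := by
  set P := c • pos h (V.C x y) + a • pos h (V.A α s) with hP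
  have hP0 : P 0 = c * ln h x + 2 * a * (ln h α + s) := by simp [hP, pos]; ring
  have hP1 : P 1 = c * ln h y := by simp [hP, pos]
  have hP2 : P 2 = a := by simp [hP, pos]
  rcases ha.eq_or_lt with heq | hlt
  · right; left
    have hc1 : c = 1 := by linarith
    refine ⟨by rw [hP2, heq], {V.C x y}, Or.inl ⟨x, y, hxy, ?_, ?_, rfl⟩, by simp⟩
    · rw [hP0, ← heq, hc1]; ring
    · rw [hP1, hc1]; ring
  · left
    refine ⟨α, ln h α + s, {V.A α s}, by rw [hP2]; exact hlt, by rw [hP2]; linarith,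
      Or.inl ⟨α, s, s1, s2, rfl, rfl⟩, by simp, ?_⟩
    by_cases hz : a = 1
    · left
      have hc0 : c = 0 := by linarith
      refine ⟨by rw [hP2, hz], E3_ext ?_ ?_ ?_⟩
      · rw [hP0, hc0, hz]; simp
      · rw [hP1, hc0]; simp
      · rw [hP2, hz]; simp
    · right
      refine ⟨by rw [hP2]; exact lt_of_le_of_ne (by linarith) hz, ln h x, ln h y, {V.C x y},
        ⟨mem_band s1 s2, Or.inl ⟨x, y, hx, hxy, rfl, rfl⟩⟩, Or.inl ⟨x, y, hxy, rfl, rfl, rfl⟩,
        by simp, ?_⟩
      have hc1 : 1 - P 2 = c := by rw [hP2]; linarith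
      refine E3_ext ?_ ?_ ?_
      · rw [hc1, pt_0, hP0, hP2]; ring
      · rw [hc1, pt_1, hP1]
      · rw [pt_2]

theorem part_CB {β x y s : ℕ} (s1 : 1 ≤ s) (s2 : s ≤ sz h β) (hy : y = β ∨ y = β + 1)
    (hxy : (x + y) % 2 = 1) {c a : ℝ} (hc : 0 ≤ c) (ha : 0 ≤ a) (hs : c + a = 1) :
    Part h {V.C x y, V.B β s} (c • pos h (V.C x y) + a • pos h (V.B β s)) := by
  set P := c • pos h (V.C x y) + a • pos h (V.B β s) with hP
  have hP1 : P 1 = c * ln h y + 2 * a * (ln h β + s) := by simp [hP, pos]; ring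
  have hP0 : P 0 = c * ln h x := by simp [hP, pos]
  have hP2 : P 2 = -a := by simp [hP, pos]
  rcases ha.eq_or_lt with heq | hlt
  · right; left
    have hc1 : c = 1 := by linarith
    refine ⟨by rw [hP2, ← heq, neg_zero], {V.C x y}, Or.inl ⟨x, y, hxy, ?_, ?_, rfl⟩, by simp⟩
    · rw [hP0, hc1]; ring
    · rw [hP1, ← heq, hc1]; ring
  · right; right
    refine ⟨β, ln h β + s, {V.B β s}, by rw [hP2]; linarith, by rw [hP2]; linarith,
      Or.inl ⟨β, s, s1, s2, rfl, rfl⟩, by simp, ?_⟩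
    by_cases hz : a = 1
    · left
      have hc0 : c = 0 := by linarith
      refine ⟨by rw [hP2, hz], E3_ext ?_ ?_ ?_⟩
      · rw [hP0, hc0]; simp
      · rw [hP1, hc0, hz]; simp
      · rw [hP2, hz]; simp
    · right
      have hz1 : a < 1 := lt_of_le_of_ne (by linarith) hz
      refine ⟨by rw [hP2]; linarith, ln h x, ln h y, {V.C x y},
        ⟨mem_band s1 s2, Or.inl ⟨x, y, hy, hxy, rfl, rfl⟩⟩, Or.inl ⟨x, y, hxy, rfl, rfl, rfl⟩,
        by simp, ?_⟩
      have hc1 : 1 + P 2 = c := by rw [hP2]; linarith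
      refine E3_ext ?_ ?_ ?_
      · rw [hc1, pt_0, hP0]
      · rw [hc1, pt_1, hP1, hP2]; ring
      · rw [pt_2]

theorem ends_zero {h s s' : ℕ} (hR : (4 : ℝ) ≤ h) (hs : s = 1 ∨ s = h) (hs' : s' = 1 ∨ s' = h)
    (hne : s ≠ s') {a a' : ℝ} (ha : 0 ≤ a) (ha' : 0 ≤ a')
    (he : a * (2 * s - (h + 1)) = a' * (2 * s' - (h + 1))) : a = 0 ∧ a' = 0 := by
  have key : (a + a') * ((h : ℝ) - 1) = 0 := by
    rcases hs with h1 | h1 <;> rcases hs' with h2 | h2
    · exact absurd (h1.trans h2.symm) hne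
    · rw [h1, h2] at he
      push_cast at he
      linear_combination (-1 : ℝ) * he
    · rw [h1, h2] at he
      push_cast at he
      linear_combination he
    · exact absurd (h1.trans h2.symm) hne
  rcases mul_eq_zero.mp key with h0 | h0
  · constructor <;> linarith
  · linarith

/-- two column covers -/
theorem inter_XX (ok : Ok h L K) {x y x' y' α α' s s' : ℕ}
    (hl : Lk h L K x y (.X α) (.A α s)) (hl' : Lk h L K x' y' (.X α') (.A α' s')) {P : E3}
    (hP : P ∈ convexHull ℝ (pos h '' (({V.C x y, V.X α, V.A α s} : Finset V) : Set V)))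
    (hP' : P ∈ convexHull ℝ (pos h '' (({V.C x' y', V.X α', V.A α' s'} : Finset V) : Set V))) :
    P ∈ convexHull ℝ (pos h '' ((({V.C x y, V.X α, V.A α s} : Finset V) : Set V) ∩
      (({V.C x' y', V.X α', V.A α' s'} : Finset V) : Set V))) := by
  obtain ⟨h4, h2, L2, Le, K2, Ke⟩ := id ok
  have hR : (4 : ℝ) ≤ h := by exact_mod_cast h4
  -- different bands are separated
  have sep : ∀ {x y x' y' α α' s s' : ℕ}, Lk h L K x y (.X α) (.A α s) →
      Lk h L K x' y' (.X α') (.A α' s') →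
      P ∈ convexHull ℝ (pos h '' (({V.C x y, V.X α, V.A α s} : Finset V) : Set V)) →
      P ∈ convexHull ℝ (pos h '' (({V.C x' y', V.X α', V.A α' s'} : Finset V) : Set V)) →
      ¬ α < α' := by
    intro x y x' y' α α' s s' hl hl' hP hP' hlt
    obtain ⟨c, χ, a, hc, hχ, ha, hs, e⟩ := comb3 hP
    obtain ⟨c', χ', a', hc', hχ', ha', hs', e'⟩ := comb3 hP'
    have v1 := (Lk_A ok _ _ _ _ _).mp hl.symm
    have v2 := (Lk_A ok _ _ _ _ _).mp hl'.symm
    have w1 := (Lk_X ok _ _ _ _).mp hl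
    have w2 := (Lk_X ok _ _ _ _).mp hl'
    obtain ⟨rfl, -, -, -, hα, -⟩ := w1
    obtain ⟨rfl, -, -, -, hα', -⟩ := w2
    have m1 := mem_band v1.2.2.2.2.2.2.1 v1.2.2.2.2.2.2.2.1
    have m2 := mem_band v2.2.2.2.2.2.2.1 v2.2.2.2.2.2.2.2.1
    have b1 := mid_band h4 hα
    have b2 := mid_band h4 hα'
    have d1 : ln h (α + 1) < ln h α' := ln_lt.mpr (by omega)
    have d2 : ln h α' < ln h (α' + 1) := ln_lt.mpr (by omega)
    have f1 : P 0 - (1 + P 2) * ln h α' = c * (ln h (α + 1) - ln h α')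
        + χ * (3 * (ln h α + (h + 1) / 2 - ln h α')) + a * (2 * (ln h α + s - ln h α')) := by
      rw [e]; simp [pos]; linear_combination (ln h α') * hs
    have f2 : P 0 - (1 + P 2) * ln h α' = c' * (ln h (α' + 1) - ln h α')
        + χ' * (3 * (ln h α' + (h + 1) / 2 - ln h α')) + a' * (2 * (ln h α' + s' - ln h α')) := by
      rw [e']; simp [pos]; linear_combination (ln h α') * hs'
    have g1 : P 0 - (1 + P 2) * ln h α' < 0 := by
      rw [f1]
      have n1 : ln h (α + 1) - ln h α' < 0 := by linarith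
      have n2 : 3 * (ln h α + (h + 1) / 2 - ln h α') < 0 := by linarith
      have n3 : 2 * (ln h α + s - ln h α') < 0 := by linarith
      rcases hc.eq_or_lt with h0 | h0
      · rcases hχ.eq_or_lt with h1 | h1
        · have : a = 1 := by linarith
          rw [← h0, ← h1, this]; linarith
        · have := mul_neg_of_pos_of_neg h1 n2
          have := mul_nonpos_of_nonneg_of_nonpos ha n3.le
          rw [← h0]; linarith
      · have := mul_neg_of_pos_of_neg h0 n1
        have := mul_nonpos_of_nonneg_of_nonpos hχ n2.le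
        have := mul_nonpos_of_nonneg_of_nonpos ha n3.le
        linarith
    have g2 : 0 ≤ P 0 - (1 + P 2) * ln h α' := by
      rw [f2]
      have n1 : 0 ≤ ln h (α' + 1) - ln h α' := by linarith
      have n2 : 0 ≤ 3 * (ln h α' + (h + 1) / 2 - ln h α') := by linarith
      have n3 : 0 ≤ 2 * (ln h α' + s' - ln h α') := by linarith
      positivity
    linarith
  have hαα : α = α' := by
    have s1 := sep hl hl' hP hP'
    have s2 := sep hl' hl hP' hP
    omega
  subst hαα
  obtain ⟨rfl, hy, a1, a2, hα, hss⟩ := (Lk_X ok _ _ _ _).mp hl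
  obtain ⟨rfl, hy', -, -, -, hss'⟩ := (Lk_X ok _ _ _ _).mp hl'
  simp only [V.A.injEq, true_and] at hss hss'
  by_cases hsame : y = y' ∧ s = s'
  · obtain ⟨rfl, rfl⟩ := hsame
    rw [Set.inter_self]; exact hP
  obtain ⟨c, χ, a, hc, hχ, ha, hs, e⟩ := comb3 hP
  obtain ⟨c', χ', a', hc', hχ', ha', hs', e'⟩ := comb3 hP'
  have l1 : ln h 1 = -1 := ln_one h4
  have lK : 0 < ln h (K + 1) := by
    have : ln h 2 ≤ ln h (K + 1) := ln_le.mpr (by omega)
    have e2 : ln h 2 = ln h 1 + sz h 1 + 1 := ln_succ h 1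
    rw [sz_cast_odd (by norm_num), l1] at e2
    linarith
  -- the second coordinate
  have y1 : P 1 = c * ln h y := by rw [e]; simp [pos]
  have y2 : P 1 = c' * ln h y' := by rw [e']; simp [pos]
  -- the first coordinate relative to the middle of the band
  have hD : ∀ {c χ a : ℝ} {y s : ℕ}, c + χ + a = 1 →
      P = c • pos h (V.C (α + 1) y) + χ • pos h (V.X α) + a • pos h (V.A α s) →
      P 0 - (1 + P 2) * (ln h α + (h + 1) / 2) =
        c * ((h + 1) / 2) + a * (2 * s - (h + 1)) := by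
    intro c χ a y s hs e
    rw [e]
    simp [pos, ln_succ, sz_cast_odd hα]
    linear_combination (ln h α + (h + 1) / 2) * hs
  have D1 := hD hs e
  have D2 := hD hs' e'
  by_cases hyy : y = y'
  · -- same centre, different columns
    have hsn : s ≠ s' := fun h0 => hsame ⟨hyy, h0⟩
    subst hyy
    have hne : ln h y ≠ 0 := by
      rcases hy with hy0 | hy0
      · rw [hy0, l1]; norm_num
      · rw [hy0]; exact lK.ne'
    have hcc : c = c' := mul_right_cancel₀ hne (y1.symm.trans y2)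
    have ha0 : a = 0 ∧ a' = 0 := by
      refine ends_zero hR hss hss' hsn ha ha' ?_
      have := D1.symm.trans D2
      rw [hcc] at this
      linarith
    rw [e, ha0.1, zero_smul, add_zero]
    exact comb2_mem (by simp) (by simp) hc hχ (by linarith [ha0.1])
  · -- different centres
    have hcc : c = 0 ∧ c' = 0 := by
      have h1 := y1.symm.trans y2
      rcases hy with rfl | rfl <;> rcases hy' with rfl | rfl
      · exact absurd rfl hyy
      · rw [l1] at h1
        have : 0 ≤ c' * ln h (K + 1) := mul_nonneg hc' lK.le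
        have c0 : c = 0 := by linarith
        have : c' * ln h (K + 1) = 0 := by linarith
        rcases mul_eq_zero.mp this with h0 | h0
        · exact ⟨c0, h0⟩
        · exact absurd h0 lK.ne'
      · rw [l1] at h1
        have : 0 ≤ c * ln h (K + 1) := mul_nonneg hc lK.le
        have c0 : c' = 0 := by linarith
        have : c * ln h (K + 1) = 0 := by linarith
        rcases mul_eq_zero.mp this with h0 | h0
        · exact ⟨h0, c0⟩
        · exact absurd h0 lK.ne'
      · exact absurd rfl hyy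
    by_cases hsn : s = s'
    · subst hsn
      rw [e, hcc.1, zero_smul, zero_add]
      exact comb2_mem (by simp) (by simp) hχ ha (by linarith [hcc.1])
    · have ha0 : a = 0 := by
        have h1 := D1.symm.trans D2
        rw [hcc.1, hcc.2] at h1
        exact (ends_zero hR hss hss' hsn ha ha' (by linarith)).1
      have hχ1 : χ = 1 := by linarith [hcc.1]
      rw [e, hcc.1, ha0, zero_smul, zero_smul, zero_add, add_zero, hχ1, one_smul]
      exact pos_mem (by simp)

end Pool.Agent.Helper40.Surf
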