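import Mathlib
import Pool.Agent.Helper40.Surf.Covers
set_option autoImplicit false

/-!
# The row covers
-/

namespace Pool.Agent.Helper40.Surf

open Finset

variable {h L K : ℕ}

/-- two row covers -/
theorem inter_YY (ok : Ok h L K) {x y x' y' α α' s s' : ℕ}
    (hl : Lk h L K x y (.Y α) (.B α s)) (hl' : Lk h L K x' y' (.Y α') (.B α' s')) {P : E3}
    (hP : P ∈ convexHull ℝ (pos h '' (({V.C x y, V.Y α, V.B α s} : Finset V) : Set V)))
    (hP' : P ∈ convexHull ℝ (pos h '' (({V.C x' y', V.Y α', V.B α' s'} : Finset V) : Set V))) :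
    P ∈ convexHull ℝ (pos h '' ((({V.C x y, V.Y α, V.B α s} : Finset V) : Set V) ∩
      (({V.C x' y', V.Y α', V.B α' s'} : Finset V) : Set V))) := by
  obtain ⟨h4, h2, L2, Le, K2, Ke⟩ := id ok
  have hR : (4 : ℝ) ≤ h := by exact_mod_cast h4
  -- different bands are separated
  have sep : ∀ {x y x' y' α α' s s' : ℕ}, Lk h L K x y (.Y α) (.B α s) →
      Lk h L K x' y' (.Y α') (.B α' s') →
      P ∈ convexHull ℝ (pos h '' (({V.C x y, V.Y α, V.B α s} : Finset V) : Set V)) →
      P ∈ convexHull ℝ (pos h '' (({V.C x' y', V.Y α', V.B α' s'} : Finset V) : Set V)) →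
      ¬ α < α' := by
    intro x y x' y' α α' s s' hl hl' hP hP' hlt
    obtain ⟨c, χ, a, hc, hχ, ha, hs, e⟩ := comb3 hP
    obtain ⟨c', χ', a', hc', hχ', ha', hs', e'⟩ := comb3 hP'
    have v1 := (Lk_B ok _ _ _ _ _).mp hl.symm
    have v2 := (Lk_B ok _ _ _ _ _).mp hl'.symm
    have w1 := (Lk_Y ok _ _ _ _).mp hl
    have w2 := (Lk_Y ok _ _ _ _).mp hl'
    obtain ⟨rfl, -, -, -, hα, -⟩ := w1
    obtain ⟨rfl, -, -, -, hα', -⟩ := w2
    have m1 := mem_band v1.2.2.2.2.2.2.1 v1.2.2.2.2.2.2.2.1
    have m2 := mem_band v2.2.2.2.2.2.2.1 v2.2.2.2.2.2.2.2.1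
    have b1 := mid_band h4 hα
    have b2 := mid_band h4 hα'
    have d1 : ln h (α + 1) < ln h α' := ln_lt.mpr (by omega)
    have d2 : ln h α' < ln h (α' + 1) := ln_lt.mpr (by omega)
    have f1 : P 1 - (1 - P 2) * ln h α' = c * (ln h (α + 1) - ln h α')
        + χ * (3 * (ln h α + (h + 1) / 2 - ln h α')) + a * (2 * (ln h α + s - ln h α')) := by
      rw [e]; simp [pos]; linear_combination (ln h α') * hs
    have f2 : P 1 - (1 - P 2) * ln h α' = c' * (ln h (α' + 1) - ln h α')
        + χ' * (3 * (ln h α' + (h + 1) / 2 - ln h α')) + a' * (2 * (ln h α' + s' - ln h α')) := by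
      rw [e']; simp [pos]; linear_combination (ln h α') * hs'
    have g1 : P 1 - (1 - P 2) * ln h α' < 0 := by
      rw [f1]
      have n1 : ln h (α + 1) - ln h α' < 0 := by linarith
      have n2 : 3 * (ln h α + (h + 1) / 2 - ln h α') < 0 := by linarith
      have n3 : 2 * (ln h α + s - ln h α') < 0 := by linarith
      rcases hc.eq_or_lt with h0 | h0
      · rcases hχ.eq_or_lt with h1 | h1
        · have : a = 1 := by linarith
          rw [← h0, ← h1, this]; linarith
        · have := mul_neg_of_pos_of_neg h1 n2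
          have := mul_nonpos_of_nonneg_of_nonpos ha n3.le
          rw [← h0]; linarith
      · have := mul_neg_of_pos_of_neg h0 n1
        have := mul_nonpos_of_nonneg_of_nonpos hχ n2.le
        have := mul_nonpos_of_nonneg_of_nonpos ha n3.le
        linarith
    have g2 : 0 ≤ P 1 - (1 - P 2) * ln h α' := by
      rw [f2]
      have n1 : 0 ≤ ln h (α' + 1) - ln h α' := by linarith
      have n2 : 0 ≤ 3 * (ln h α' + (h + 1) / 2 - ln h α') := by linarith
      have n3 : 0 ≤ 2 * (ln h α' + s' - ln h α') := by linarith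
      positivity
    linarith
  have hαα : α = α' := by
    have s1 := sep hl hl' hP hP'
    have s2 := sep hl' hl hP' hP
    omega
  subst hαα
  obtain ⟨rfl, hy, a1, a2, hα, hss⟩ := (Lk_Y ok _ _ _ _).mp hl
  obtain ⟨rfl, hy', -, -, -, hss'⟩ := (Lk_Y ok _ _ _ _).mp hl'
  simp only [V.B.injEq, true_and] at hss hss'
  by_cases hsame : x = x' ∧ s = s'
  · obtain ⟨rfl, rfl⟩ := hsame
    rw [Set.inter_self]; exact hP
  obtain ⟨c, χ, a, hc, hχ, ha, hs, e⟩ := comb3 hP
  obtain ⟨c', χ', a', hc', hχ', ha', hs', e'⟩ := comb3 hP'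
  have l1 : ln h 1 = -1 := ln_one h4
  have lK : 0 < ln h (L + 1) := by
    have : ln h 2 ≤ ln h (L + 1) := ln_le.mpr (by omega)
    have e2 : ln h 2 = ln h 1 + sz h 1 + 1 := ln_succ h 1
    rw [sz_cast_odd (by norm_num), l1] at e2
    linarith
  -- the second coordinate
  have y1 : P 0 = c * ln h x := by rw [e]; simp [pos]
  have y2 : P 0 = c' * ln h x' := by rw [e']; simp [pos]
  -- the first coordinate relative to the middle of the band
  have hD : ∀ {c χ a : ℝ} {x s : ℕ}, c + χ + a = 1 →
      P = c • pos h (V.C x (α + 1)) + χ • pos h (V.Y α) + a • pos h (V.B α s) →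
      P 1 - (1 - P 2) * (ln h α + (h + 1) / 2) =
        c * ((h + 1) / 2) + a * (2 * s - (h + 1)) := by
    intro c χ a x s hs e
    rw [e]
    simp [pos, ln_succ, sz_cast_odd hα]
    linear_combination (ln h α + (h + 1) / 2) * hs
  have D1 := hD hs e
  have D2 := hD hs' e'
  by_cases hyy : x = x'
  · -- same centre, different columns
    have hsn : s ≠ s' := fun h0 => hsame ⟨hyy, h0⟩
    subst hyy
    have hne : ln h x ≠ 0 := by
      rcases hy with hy0 | hy0
      · rw [hy0, l1]; norm_num
      · rw [hy0]; exact lK.ne'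
    have hcc : c = c' := mul_right_cancel₀ hne (y1.symm.trans y2)
    have ha0 : a = 0 ∧ a' = 0 := by
      refine ends_zero hR hss hss' hsn ha ha' ?_
      have := D1.symm.trans D2
      rw [hcc] at this
      linarith
    rw [e, ha0.1, zero_smul, add_zero]
    exact comb2_mem (by simp) (by simp) hc hχ (by linarith [ha0.1])
  · -- different centres
    have hcc : c = 0 ∧ c' = 0 := by
      have h1 := y1.symm.trans y2
      rcases hy with rfl | rfl <;> rcases hy' with rfl | rfl
      · exact absurd rfl hyy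
      · rw [l1] at h1
        have : 0 ≤ c' * ln h (L + 1) := mul_nonneg hc' lK.le
        have c0 : c = 0 := by linarith
        have : c' * ln h (L + 1) = 0 := by linarith
        rcases mul_eq_zero.mp this with h0 | h0
        · exact ⟨c0, h0⟩
        · exact absurd h0 lK.ne'
      · rw [l1] at h1
        have : 0 ≤ c * ln h (L + 1) := mul_nonneg hc lK.le
        have c0 : c' = 0 := by linarith
        have : c * ln h (L + 1) = 0 := by linarith
        rcases mul_eq_zero.mp this with h0 | h0
        · exact ⟨h0, c0⟩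
        · exact absurd h0 lK.ne'
      · exact absurd rfl hyy
    by_cases hsn : s = s'
    · subst hsn
      rw [e, hcc.1, zero_smul, zero_add]
      exact comb2_mem (by simp) (by simp) hχ ha (by linarith [hcc.1])
    · have ha0 : a = 0 := by
        have h1 := D1.symm.trans D2
        rw [hcc.1, hcc.2] at h1
        exact (ends_zero hR hss hss' hsn ha ha' (by linarith)).1
      have hχ1 : χ = 1 := by linarith [hcc.1]
      rw [e, hcc.1, ha0, zero_smul, zero_smul, zero_add, add_zero, hχ1, one_smul]
      exact pos_mem (by simp)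

end Pool.Agent.Helper40.Surf
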