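import Mathlib
import Pool.Agent.Helper40.Surf.CoversY
import Pool.Agent.Helper40.Surf.CombT
set_option autoImplicit false

/-!
# The set of triangles is embedded
-/

namespace Pool.Agent.Helper40.Surf

open Finset

variable {h L K : ℕ}

/-- hull of the vertices in `t` -/
def Hl (h : ℕ) (t : Finset V) (P : E3) : Prop := P ∈ convexHull ℝ (pos h '' (t : Set V))

theorem val_all (ok : Ok h L K) {x y : ℕ} {u v w : V} (hl : Lk h L K x y u v)
    (hw : w ∈ ({V.C x y, u, v} : Finset V)) : Val h L K w := by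
  simp only [mem_insert, mem_singleton] at hw
  rcases hw with rfl | rfl | rfl
  · exact val_C hl
  · exact val_of_Lk ok hl
  · exact val_of_Lk ok hl.symm

theorem gX_nonneg (ok : Ok h L K) {x y : ℕ} {u v : V} (hl : Lk h L K x y u v) (hu : NX u)
    (hv : NX v) {P : E3} (hP : Hl h {V.C x y, u, v} P) :
    0 ≤ gB P ∧ 0 ≤ gT (ln h (K + 1)) P := by
  obtain ⟨c, a, b, hc, ha, hb, hs, rfl⟩ := comb3 hP
  rw [gB_comb hs, gT_comb _ hs]
  have v1 := val_C hl
  have v2 := val_of_Lk ok hl
  have v3 := val_of_Lk ok hl.symm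
  have c1 := gB_vert ok v1 trivial
  have c2 := gB_vert ok v2 hu
  have c3 := gB_vert ok v3 hv
  have d1 := gT_vert ok v1 trivial
  have d2 := gT_vert ok v2 hu
  have d3 := gT_vert ok v3 hv
  constructor <;> positivity

theorem gY_nonneg (ok : Ok h L K) {x y : ℕ} {u v : V} (hl : Lk h L K x y u v) (hu : NY u)
    (hv : NY v) {P : E3} (hP : Hl h {V.C x y, u, v} P) :
    0 ≤ gL P ∧ 0 ≤ gR (ln h (L + 1)) P := by
  obtain ⟨c, a, b, hc, ha, hb, hs, rfl⟩ := comb3 hP
  rw [gL_comb hs, gR_comb _ hs]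
  have v1 := val_C hl
  have v2 := val_of_Lk ok hl
  have v3 := val_of_Lk ok hl.symm
  have c1 := gL_vert ok v1 trivial
  have c2 := gL_vert ok v2 hu
  have c3 := gL_vert ok v3 hv
  have d1 := gR_vert ok v1 trivial
  have d2 := gR_vert ok v2 hu
  have d3 := gR_vert ok v3 hv
  constructor <;> positivity

theorem ln_last_pos (h4 : 4 ≤ h) {n : ℕ} (hn : 1 ≤ n) : 0 < ln h (n + 1) := by
  have hR : (4 : ℝ) ≤ h := by exact_mod_cast h4
  have l1 : ln h 1 = -1 := ln_one h4
  have : ln h 2 ≤ ln h (n + 1) := ln_le.mpr (by omega)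
  have e2 : ln h 2 = ln h 1 + sz h 1 + 1 := ln_succ h 1
  rw [sz_cast_odd (by norm_num), l1] at e2
  linarith

theorem X_base (ok : Ok h L K) {x y α s : ℕ} (hl : Lk h L K x y (.X α) (.A α s)) {P : E3}
    (hP : Hl h {V.C x y, V.X α, V.A α s} P) (h1 : 0 ≤ gB P) (h2 : 0 ≤ gT (ln h (K + 1)) P) :
    Part h {V.C x y, V.A α s} P := by
  obtain ⟨h4, h2', L2, Le, K2, Ke⟩ := id ok
  obtain ⟨c, χ, a, hc, hχ, ha, hs, rfl⟩ := comb3 hP
  obtain ⟨rfl, hy, a1, a2, hα, hss⟩ := (Lk_X ok _ _ _ _).mp hl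
  have vA := (Lk_A ok _ _ _ _ _).mp hl.symm
  have hχ0 : χ = 0 := by
    rcases hy with rfl | rfl
    · rw [gB_comb hs] at h1
      simp only [gB, pos, pt_1, pt_2, ln_one h4] at h1
      linarith
    · rw [gT_comb _ hs] at h2
      simp only [gT, pos, pt_1, pt_2] at h2
      have hp := ln_last_pos h4 (n := K) (by omega)
      have : χ * ln h (K + 1) ≤ 0 := by linarith
      rcases hχ.eq_or_lt with h0 | h0
      · exact h0.symm
      · have := mul_pos h0 hp
        linarith
  rw [hχ0, zero_smul, add_zero]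
  exact part_CA vA.2.2.2.2.2.2.1 vA.2.2.2.2.2.2.2.1 vA.1 vA.2.1 hc ha (by linarith)

theorem Y_base (ok : Ok h L K) {x y α s : ℕ} (hl : Lk h L K x y (.Y α) (.B α s)) {P : E3}
    (hP : Hl h {V.C x y, V.Y α, V.B α s} P) (h1 : 0 ≤ gL P) (h2 : 0 ≤ gR (ln h (L + 1)) P) :
    Part h {V.C x y, V.B α s} P := by
  obtain ⟨h4, h2', L2, Le, K2, Ke⟩ := id ok
  obtain ⟨c, χ, a, hc, hχ, ha, hs, rfl⟩ := comb3 hP
  obtain ⟨rfl, hy, a1, a2, hα, hss⟩ := (Lk_Y ok _ _ _ _).mp hl
  have vA := (Lk_B ok _ _ _ _ _).mp hl.symm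
  have hχ0 : χ = 0 := by
    rcases hy with rfl | rfl
    · rw [gL_comb hs] at h1
      simp only [gL, pos, pt_0, pt_2, ln_one h4] at h1
      linarith
    · rw [gR_comb _ hs] at h2
      simp only [gR, pos, pt_0, pt_2] at h2
      have hp := ln_last_pos h4 (n := L) (by omega)
      have : χ * ln h (L + 1) ≤ 0 := by linarith
      rcases hχ.eq_or_lt with h0 | h0
      · exact h0.symm
      · have := mul_pos h0 hp
        linarith
  rw [hχ0, zero_smul, add_zero]
  exact part_CB vA.2.2.2.2.2.2.1 vA.2.2.2.2.2.2.2.1 vA.1 vA.2.1 hc ha (by linarith)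

/-- the three kinds of triangles -/
inductive Kind (h L K : ℕ) : Finset V → Prop
  | N {x y : ℕ} {u v : V} (hl : Lk h L K x y u v) (hu : NX u ∧ NY u) (hv : NX v ∧ NY v)
      (hp : ∀ P, Hl h {V.C x y, u, v} P → Part h {V.C x y, u, v} P) : Kind h L K {V.C x y, u, v}
  | X {x y α s : ℕ} (hl : Lk h L K x y (.X α) (.A α s)) : Kind h L K {V.C x y, V.X α, V.A α s}
  | Y {x y β s : ℕ} (hl : Lk h L K x y (.Y β) (.B β s)) : Kind h L K {V.C x y, V.Y β, V.B β s}

theorem swap_tri {x y : ℕ} {u v : V} : ({V.C x y, u, v} : Finset V) = {V.C x y, v, u} := by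
  ext z; simp only [mem_insert, mem_singleton]; tauto

theorem kind_of (ok : Ok h L K) {t : Finset V} (ht : t ∈ TT h L K) : Kind h L K t := by
  obtain ⟨x, y, u, v, hl, rfl⟩ := (mem_TT ok).mp ht
  have main : ∀ {u v : V} {α β : ℕ}, Cor L K α β x y → Pr h L K α β u v →
      Kind h L K {V.C x y, u, v} := by
    intro u v α β hc hp
    have hl : Lk h L K x y u v := ⟨α, β, hc, Or.inl hp⟩
    rcases u with ⟨a, b⟩ | ⟨a, b⟩ | ⟨a, b⟩ | ⟨a, b⟩ | ⟨a⟩ | ⟨a⟩ <;>
      rcases v with ⟨c, d⟩ | ⟨c, d⟩ | ⟨c, d⟩ | ⟨c, d⟩ | ⟨c⟩ | ⟨c⟩ <;>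
      try exact hp.elim
    · have hp' := hp
      simp only [Pr] at hp'
      obtain ⟨rfl, rfl, -, -, -, -, rfl, -⟩ := hp'
      exact .N hl ⟨trivial, trivial⟩ ⟨trivial, trivial⟩ fun P hP => part_AA hc hp hP
    · have hp' := hp
      simp only [Pr] at hp'
      obtain ⟨rfl, rfl, -⟩ := hp'
      exact .N hl ⟨trivial, trivial⟩ ⟨trivial, trivial⟩ fun P hP => part_AB ok hc hp hP
    · have hp' := hp
      simp only [Pr] at hp'
      obtain ⟨rfl, rfl, rfl, -⟩ := hp'
      exact .N hl ⟨trivial, trivial⟩ ⟨trivial, trivial⟩ fun P hP => part_AE ok hc hp hP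
    · have hp' := hp
      simp only [Pr] at hp'
      obtain ⟨rfl, rfl, -⟩ := hp'
      rw [swap_tri]
      exact .X hl.symm
    · have hp' := hp
      simp only [Pr] at hp'
      obtain ⟨rfl, rfl, -, -, -, -, rfl, -⟩ := hp'
      exact .N hl ⟨trivial, trivial⟩ ⟨trivial, trivial⟩ fun P hP => part_BB hc hp hP
    · have hp' := hp
      simp only [Pr] at hp'
      obtain ⟨rfl, rfl, rfl, -⟩ := hp'
      exact .N hl ⟨trivial, trivial⟩ ⟨trivial, trivial⟩ fun P hP => part_BE ok hc hp hP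
    · have hp' := hp
      simp only [Pr] at hp'
      obtain ⟨rfl, rfl, -⟩ := hp'
      rw [swap_tri]
      exact .Y hl.symm
  obtain ⟨α, β, hc, hp | hp⟩ := hl
  · exact main hc hp
  · rw [swap_tri]; exact main hc hp

theorem inter_TT (ok : Ok h L K) {t t' : Finset V} (ht : t ∈ TT h L K) (ht' : t' ∈ TT h L K)
    {P : E3} (hP : Hl h t P) (hP' : Hl h t' P) :
    P ∈ convexHull ℝ (pos h '' ((t : Set V) ∩ (t' : Set V))) := by
  obtain ⟨h4, -⟩ := id ok
  have k1 := kind_of ok ht
  have k2 := kind_of ok ht'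
  have hA : ∀ {x y α s : ℕ}, (({V.C x y, V.A α s} : Finset V) : Set V) ⊆
      (({V.C x y, V.X α, V.A α s} : Finset V) : Set V) := by
    intro x y α s v hv
    simp only [coe_insert, coe_singleton, Set.mem_insert_iff, Set.mem_singleton_iff] at hv ⊢
    tauto
  have hB : ∀ {x y α s : ℕ}, (({V.C x y, V.B α s} : Finset V) : Set V) ⊆
      (({V.C x y, V.Y α, V.B α s} : Finset V) : Set V) := by
    intro x y α s v hv
    simp only [coe_insert, coe_singleton, Set.mem_insert_iff, Set.mem_singleton_iff] at hv ⊢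
    tauto
  cases k1 with
  | N hl hu hv hp =>
    cases k2 with
    | N hl' hu' hv' hp' => exact Part_inter h4 (hp P hP) (hp' P hP')
    | X hl' =>
      obtain ⟨g1, g2⟩ := gX_nonneg ok hl hu.1 hv.1 hP
      exact hull_mono (Set.inter_subset_inter_right _ hA)
        (Part_inter h4 (hp P hP) (X_base ok hl' hP' g1 g2))
    | Y hl' =>
      obtain ⟨g1, g2⟩ := gY_nonneg ok hl hu.2 hv.2 hP
      exact hull_mono (Set.inter_subset_inter_right _ hB)
        (Part_inter h4 (hp P hP) (Y_base ok hl' hP' g1 g2))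
  | X hl =>
    cases k2 with
    | N hl' hu' hv' hp' =>
      obtain ⟨g1, g2⟩ := gX_nonneg ok hl' hu'.1 hv'.1 hP'
      exact hull_mono (Set.inter_subset_inter_left _ hA)
        (Part_inter h4 (X_base ok hl hP g1 g2) (hp' P hP'))
    | X hl' => exact inter_XX ok hl hl' hP hP'
    | Y hl' =>
      obtain ⟨g1, g2⟩ := gX_nonneg ok hl' trivial trivial hP'
      obtain ⟨g3, g4⟩ := gY_nonneg ok hl trivial trivial hP
      exact hull_mono (Set.inter_subset_inter hA hB)
        (Part_inter h4 (X_base ok hl hP g1 g2) (Y_base ok hl' hP' g3 g4))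
  | Y hl =>
    cases k2 with
    | N hl' hu' hv' hp' =>
      obtain ⟨g1, g2⟩ := gY_nonneg ok hl' hu'.2 hv'.2 hP'
      exact hull_mono (Set.inter_subset_inter_left _ hB)
        (Part_inter h4 (Y_base ok hl hP g1 g2) (hp' P hP'))
    | X hl' =>
      obtain ⟨g1, g2⟩ := gY_nonneg ok hl' trivial trivial hP'
      obtain ⟨g3, g4⟩ := gX_nonneg ok hl trivial trivial hP
      exact hull_mono (Set.inter_subset_inter hB hA)
        (Part_inter h4 (Y_base ok hl hP g1 g2) (X_base ok hl' hP' g3 g4))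
    | Y hl' => exact inter_YY ok hl hl' hP hP'

/-! ### affine independence -/

theorem indep3 {u v w : V} (huv : u ≠ v) (huw : u ≠ w) (hvw : v ≠ w)
    (H : ∀ c a b : ℝ, c + a + b = 0 → c • pos h u + a • pos h v + b • pos h w = 0 →
      c = 0 ∧ a = 0 ∧ b = 0) :
    AffineIndependent ℝ (fun x : ({u, v, w} : Finset V) => pos h x) := by
  set e : Fin 3 → ({u, v, w} : Finset V) :=
    ![⟨u, by simp⟩, ⟨v, by simp⟩, ⟨w, by simp⟩] with he
  have hinj : Function.Injective e := by
    intro i j hij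
    have := congrArg Subtype.val hij
    fin_cases i <;> fin_cases j <;> simp [he] at this ⊢ <;>
      first
        | exact absurd this huv
        | exact absurd this huw
        | exact absurd this hvw
        | exact absurd this.symm huv
        | exact absurd this.symm huw
        | exact absurd this.symm hvw
  have hsurj : Function.Surjective e := by
    rintro ⟨x, hx⟩
    have hx' := hx
    simp only [mem_insert, mem_singleton] at hx'
    rcases hx' with rfl | rfl | rfl
    · exact ⟨0, rfl⟩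
    · exact ⟨1, rfl⟩
    · exact ⟨2, rfl⟩
  have key : AffineIndependent ℝ ((fun x : ({u, v, w} : Finset V) => pos h x) ∘ e) := by
    rw [affineIndependent_iff_of_fintype]
    intro W hW hc
    rw [Finset.weightedVSub_eq_linear_combination _ hW, Fin.sum_univ_three] at hc
    rw [Fin.sum_univ_three] at hW
    obtain ⟨h0, h1, h2⟩ := H (W 0) (W 1) (W 2) hW hc
    intro i
    fin_cases i
    · exact h0
    · exact h1
    · exact h2
  have := affineIndependent_equiv (k := ℝ) (Equiv.ofBijective e ⟨hinj, hsurj⟩)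
    (p := fun x : ({u, v, w} : Finset V) => pos h x)
  rw [← this]
  exact key

theorem coords {u v w : V} {c a b : ℝ} (he : c • pos h u + a • pos h v + b • pos h w = 0) :
    c * pos h u 0 + a * pos h v 0 + b * pos h w 0 = 0 ∧
      c * pos h u 1 + a * pos h v 1 + b * pos h w 1 = 0 ∧
      c * pos h u 2 + a * pos h v 2 + b * pos h w 2 = 0 := by
  refine ⟨?_, ?_, ?_⟩
  · have := congrArg (fun Q : E3 => Q 0) he
    simpa using this
  · have := congrArg (fun Q : E3 => Q 1) he
    simpa using this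
  · have := congrArg (fun Q : E3 => Q 2) he
    simpa using this

/-- a member of a band is not on a line -/
theorem member_ne_line {n s m : ℕ} (s1 : 1 ≤ s) (s2 : s ≤ sz h n) : ln h n + s ≠ ln h m := by
  intro he
  have := mem_band s1 s2
  rw [he] at this
  exact line_not_band this.1 this.2

theorem indep_Pr (ok : Ok h L K) {x y α β : ℕ} {u v : V} (hc : Cor L K α β x y)
    (hp : Pr h L K α β u v) (c a b : ℝ) (hs : c + a + b = 0)
    (he : c • pos h (.C x y) + a • pos h u + b • pos h v = 0) : c = 0 ∧ a = 0 ∧ b = 0 := by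
  obtain ⟨h4, h2', L2, Le, K2, Ke⟩ := id ok
  have hl : Lk h L K x y u v := ⟨α, β, hc, Or.inl hp⟩
  obtain ⟨e0, e1, e2⟩ := coords he
  rcases u with ⟨i, j⟩ | ⟨i, j⟩ | ⟨i, j⟩ | ⟨i, j⟩ | ⟨i⟩ | ⟨i⟩ <;>
    rcases v with ⟨k, l⟩ | ⟨k, l⟩ | ⟨k, l⟩ | ⟨k, l⟩ | ⟨k⟩ | ⟨k⟩ <;>
    try exact hp.elim
  · -- AA
    simp only [Pr] at hp
    obtain ⟨rfl, rfl, -, -, -, -, rfl, -⟩ := hp
    simp only [pos, pt_0, pt_1, pt_2] at e0 e1 e2
    push_cast at e0
    have hc0 : c = 0 := by linarith
    have hb0 : b = 0 := by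
      have : a = -b := by linarith
      rw [hc0, this] at e0
      linarith
    exact ⟨hc0, by linarith, hb0⟩
  · -- AB
    simp only [Pr] at hp
    obtain ⟨rfl, rfl, -, -, -, -, s1, s2, -⟩ := hp
    simp only [pos, pt_0, pt_1, pt_2] at e0 e1 e2
    have hab : a = b := by linarith
    have hca : c = -2 * b := by linarith
    have hne := member_ne_line (m := x) s1 s2
    rw [hca, hab] at e0
    have : b * (ln h i + j - ln h x) = 0 := by linarith
    rcases mul_eq_zero.mp this with h0 | h0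
    · exact ⟨by rw [hca, h0]; ring, by rw [hab, h0], h0⟩
    · exact absurd (sub_eq_zero.mp h0) hne
  · -- AE
    simp only [Pr] at hp
    obtain ⟨rfl, rfl, rfl, -, -, -, -, hα, hβ, -⟩ := hp
    simp only [pos, pt_0, pt_1, pt_2] at e0 e1 e2
    have o := (E_open h4 (show (k + l) % 2 = 1 by omega)).1
    have ha0 : a = 0 := by linarith
    have hcb : c = -b := by linarith
    rw [hcb, ha0] at e0
    have : b * (mx h k l (h - 1) - ln h x) = 0 := by linarith
    rcases mul_eq_zero.mp this with h0 | h0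
    · exact ⟨by rw [hcb, h0]; ring, ha0, h0⟩
    · rw [sub_eq_zero.mp h0] at o
      exact (line_not_band o.1 o.2).elim
  · -- AX
    obtain ⟨-, hy, -, -, -, -⟩ := (Lk_X ok _ _ _ _).mp hl.symm
    simp only [pos, pt_0, pt_1, pt_2] at e0 e1 e2
    have hne : ln h y ≠ 0 := by
      rcases hy with hy0 | hy0
      · rw [hy0, ln_one h4]; norm_num
      · rw [hy0]; exact (ln_last_pos h4 (by omega)).ne'
    have : c * ln h y = 0 := by linarith
    rcases mul_eq_zero.mp this with h0 | h0
    · exact ⟨h0, by linarith, by linarith⟩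
    · exact absurd h0 hne
  · -- BB
    simp only [Pr] at hp
    obtain ⟨rfl, rfl, -, -, -, -, rfl, -⟩ := hp
    simp only [pos, pt_0, pt_1, pt_2] at e0 e1 e2
    push_cast at e1
    have hc0 : c = 0 := by linarith
    have hb0 : b = 0 := by
      have : a = -b := by linarith
      rw [hc0, this] at e1
      linarith
    exact ⟨hc0, by linarith, hb0⟩
  · -- BE
    simp only [Pr] at hp
    obtain ⟨rfl, rfl, rfl, -, -, -, -, hα, hβ, -⟩ := hp
    simp only [pos, pt_0, pt_1, pt_2] at e0 e1 e2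
    have o := (E_open h4 (show (k + l) % 2 = 1 by omega)).1
    have ha0 : a = 0 := by linarith
    have hcb : c = -b := by linarith
    rw [hcb, ha0] at e0
    have : b * (mx h k l (h - 1) - ln h x) = 0 := by linarith
    rcases mul_eq_zero.mp this with h0 | h0
    · exact ⟨by rw [hcb, h0]; ring, ha0, h0⟩
    · rw [sub_eq_zero.mp h0] at o
      exact (line_not_band o.1 o.2).elim
  · -- BY
    obtain ⟨-, hx, -, -, -, -⟩ := (Lk_Y ok _ _ _ _).mp hl.symm
    simp only [pos, pt_0, pt_1, pt_2] at e0 e1 e2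
    have hne : ln h x ≠ 0 := by
      rcases hx with hx0 | hx0
      · rw [hx0, ln_one h4]; norm_num
      · rw [hx0]; exact (ln_last_pos h4 (by omega)).ne'
    have : c * ln h x = 0 := by linarith
    rcases mul_eq_zero.mp this with h0 | h0
    · exact ⟨h0, by linarith, by linarith⟩
    · exact absurd h0 hne

theorem isGeom_TT (ok : Ok h L K) : IsGeom (pos h) (TT h L K) where
  indep := by
    intro t ht
    obtain ⟨x, y, u, v, hl, rfl⟩ := (mem_TT ok).mp ht
    have hu := NC_of_Lk hl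
    have hv := NC_of_Lk hl.symm
    have huv := ne_of_Lk hl
    refine indep3 hu.ne.symm hv.ne.symm huv fun c a b hs he => ?_
    obtain ⟨α, β, hc, hp | hp⟩ := hl
    · exact indep_Pr ok hc hp c a b hs he
    · have := indep_Pr ok hc hp c b a (by linarith) (by rw [← he]; abel)
      exact ⟨this.1, this.2.2, this.2.1⟩
  inter := by
    intro t ht t' ht' P hP
    exact inter_TT ok ht ht' hP.1 hP.2

end Pool.Agent.Helper40.Surf
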