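import Mathlib
import Pool.Agent.Helper40.Surf.Frame
set_option autoImplicit false

/-!
# Stellar subdivision of a triangle
-/

namespace Pool.Agent.Helper40.Surf

open Finset Relation
open Classical

/-- convex hull of a finite set -/
abbrev hl (s : Finset E3) : Set E3 := convexHull ℝ (s : Set E3)

/-- barycentric coordinates -/
structure Bary (t : Finset E3) (w : E3 → ℝ) (x : E3) : Prop where
  nonneg : ∀ y ∈ t, 0 ≤ w y
  sum : ∑ y ∈ t, w y = 1
  eq : ∑ y ∈ t, w y • y = x

theorem indep_weights {t : Finset E3} (h : AffineIndependent ℝ ((↑) : t → E3)) {W : E3 → ℝ}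
    (h1 : ∑ y ∈ t, W y = 0) (h2 : ∑ y ∈ t, W y • y = 0) : ∀ y ∈ t, W y = 0 := by
  intro y hy
  rw [affineIndependent_iff] at h
  refine h t.attach (fun y => W y) ?_ ?_ ⟨y, hy⟩ (mem_attach _ _)
  · rw [sum_attach t W]; exact h1
  · rw [sum_attach t (fun y => W y • y)]; exact h2

theorem Bary.unique {t : Finset E3} (h : AffineIndependent ℝ ((↑) : t → E3)) {w w' : E3 → ℝ}
    {x : E3} (h1 : Bary t w x) (h2 : Bary t w' x) : ∀ y ∈ t, w y = w' y := by
  intro y hy
  have := indep_weights h (W := fun y => w y - w' y)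
    (by rw [sum_sub_distrib, h1.sum, h2.sum, sub_self])
    (by simp only [sub_smul]; rw [sum_sub_distrib, h1.eq, h2.eq, sub_self]) y hy
  linarith

/-- barycentric coordinates of a point in a face -/
theorem bary_of_face {s t : Finset E3} (hst : s ⊆ t) {x : E3} (hx : x ∈ hl s) :
    ∃ w, Bary t w x ∧ ∀ y ∉ s, w y = 0 := by
  rw [Finset.mem_convexHull'] at hx
  obtain ⟨w, h1, h2, h3⟩ := hx
  refine ⟨fun y => if y ∈ s then w y else 0, ⟨?_, ?_, ?_⟩, fun y hy => if_neg hy⟩
  · intro y _
    by_cases hy : y ∈ s
    · simp only [if_pos hy]; exact h1 y hy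
    · simp only [if_neg hy]; exact le_rfl
  · rw [← h2, ← sum_subset hst]
    · exact sum_congr rfl fun y hy => if_pos hy
    · intro y _ hy; exact if_neg hy
  · rw [← h3, ← sum_subset hst]
    · exact sum_congr rfl fun y hy => by rw [if_pos hy]
    · intro y _ hy; rw [if_neg hy, zero_smul]

/-- a point with barycentric coordinates vanishing off `s` is in the hull of `s` -/
theorem face_of_bary {s t : Finset E3} (hst : s ⊆ t) {x : E3} {w : E3 → ℝ} (hb : Bary t w x)
    (hw : ∀ y ∈ t, y ∉ s → w y = 0) : x ∈ hl s := by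
  rw [Finset.mem_convexHull']
  refine ⟨w, fun y hy => hb.nonneg y (hst hy), ?_, ?_⟩
  · rw [← hb.sum]
    exact sum_subset hst hw
  · rw [← hb.eq]
    refine sum_subset hst fun y hy hys => ?_
    rw [hw y hy hys, zero_smul]

/-- the new vertex -/
noncomputable def cen (t : Finset E3) : E3 := (1 / 3 : ℝ) • ∑ y ∈ t, y

/-- the new triangles -/
noncomputable def nt (t : Finset E3) (v : E3) : Finset E3 := insert (cen t) (t.erase v)

section one
variable {t : Finset E3}

/-- points of a new triangle -/
theorem nt_rep (hc3 : t.card = 3) {v : E3} (hv : v ∈ t) (hp : cen t ∉ t) {x : E3}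
    (hx : x ∈ hl (nt t v)) :
    ∃ (a : ℝ) (W : E3 → ℝ), 0 ≤ a ∧ (∀ y ∈ t, 0 ≤ W y) ∧ W v = 0 ∧ a + ∑ y ∈ t, W y = 1 ∧
      x = a • cen t + ∑ y ∈ t, W y • y ∧ Bary t (fun y => a / 3 + W y) x := by
  have hpe : cen t ∉ t.erase v := fun h => hp (mem_of_mem_erase h)
  rw [hl, Finset.mem_convexHull'] at hx
  obtain ⟨w, h1, h2, h3⟩ := hx
  unfold nt at h1 h2 h3
  rw [sum_insert hpe] at h2 h3
  set W : E3 → ℝ := fun y => if y = v then 0 else w y with hW
  have e1 : ∑ y ∈ t, W y = ∑ y ∈ t.erase v, w y := by
    rw [← add_sum_erase _ _ hv]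
    simp only [hW, if_true, zero_add]
    refine sum_congr rfl fun y hy => ?_
    rw [if_neg (ne_of_mem_erase hy)]
  have e2 : ∑ y ∈ t, W y • y = ∑ y ∈ t.erase v, w y • y := by
    rw [← add_sum_erase _ _ hv]
    simp only [hW, if_true, zero_smul, zero_add]
    refine sum_congr rfl fun y hy => ?_
    rw [if_neg (ne_of_mem_erase hy)]
  have hW0 : ∀ y ∈ t, 0 ≤ W y := by
    intro y hy
    by_cases hyv : y = v
    · simp [hW, hyv]
    · simp only [hW, if_neg hyv]
      exact h1 y (mem_insert_of_mem (mem_erase.mpr ⟨hyv, hy⟩))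
  have ha : 0 ≤ w (cen t) := h1 _ (mem_insert_self _ _)
  refine ⟨w (cen t), W, ha, hW0, by simp [hW], by rw [e1]; exact h2, by rw [e2]; exact h3.symm,
    ⟨?_, ?_, ?_⟩⟩
  · intro y hy
    have := hW0 y hy
    positivity
  · rw [sum_add_distrib, sum_const, hc3, e1]
    simp only [nsmul_eq_mul]
    push_cast
    linarith
  · simp only [add_smul]
    rw [sum_add_distrib, ← smul_sum, e2, ← h3, cen, smul_smul]
    congr 2
    ring

theorem cen_notMem (hc3 : t.card = 3) (hi : AffineIndependent ℝ ((↑) : t → E3)) {u : E3}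
    (hu : u ∈ t) : cen t ∉ hl (t.erase u) := by
  intro hx
  obtain ⟨w, hw, hw0⟩ := bary_of_face (erase_subset u t) hx
  have hb : Bary t (fun _ => (1 / 3 : ℝ)) (cen t) := by
    refine ⟨fun _ _ => by norm_num, ?_, ?_⟩
    · rw [sum_const, hc3]; norm_num
    · rw [cen, smul_sum]
  have := hb.unique hi hw u hu
  rw [hw0 u (notMem_erase u t)] at this
  norm_num at this

theorem cen_notMem' (hc3 : t.card = 3) (hi : AffineIndependent ℝ ((↑) : t → E3)) : cen t ∉ t := by
  intro hx
  obtain ⟨u, hu, hne⟩ := exists_mem_ne (show 1 < t.card by omega) (cen t)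
  exact cen_notMem hc3 hi hu (subset_convexHull ℝ _ (by
    rw [mem_coe, mem_erase]; exact ⟨hne.symm, hx⟩))

theorem cen_mem (hc3 : t.card = 3) : cen t ∈ hl t := by
  have hb : Bary t (fun _ => (1 / 3 : ℝ)) (cen t) := by
    refine ⟨fun _ _ => by norm_num, ?_, ?_⟩
    · rw [sum_const, hc3]; norm_num
    · rw [cen, smul_sum]
  exact face_of_bary (subset_refl t) hb fun y hy hn => absurd hy hn

theorem nt_hull (hc3 : t.card = 3) {v : E3} : hl (nt t v) ⊆ hl t := by
  apply convexHull_min _ (convex_convexHull ℝ _)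
  intro y hy
  rw [mem_coe, nt, mem_insert] at hy
  rcases hy with rfl | hy
  · exact cen_mem hc3
  · exact subset_convexHull ℝ _ (mem_coe.mpr (mem_of_mem_erase hy))

/-- a point of a new triangle in a proper face of the old one -/
theorem nt_face (hc3 : t.card = 3) (hi : AffineIndependent ℝ ((↑) : t → E3)) {u v : E3}
    (hu : u ∈ t) (hv : v ∈ t) {x : E3} (hx : x ∈ hl (nt t v)) (hx' : x ∈ hl (t.erase u)) :
    x ∈ hl (t.erase v) := by
  obtain ⟨a, W, ha, hW, hWv, hs, -, hb⟩ := nt_rep hc3 hv (cen_notMem' hc3 hi) hx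
  obtain ⟨w, hw, hw0⟩ := bary_of_face (erase_subset u t) hx'
  have h1 := hb.unique hi hw u hu
  rw [hw0 u (notMem_erase u t)] at h1
  have ha0 : a = 0 := by
    have := hW u hu
    have h1' : a / 3 + W u = 0 := h1
    linarith
  refine face_of_bary (erase_subset v t) hb fun y hy hn => ?_
  have : y = v := by
    by_contra hne
    exact hn (mem_erase.mpr ⟨hne, hy⟩)
  subst this
  simp only [ha0, hWv]
  norm_num

/-- the intersection of two new triangles -/
theorem nt_nt (hc3 : t.card = 3) (hi : AffineIndependent ℝ ((↑) : t → E3)) {u v : E3}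
    (hu : u ∈ t) (hv : v ∈ t) (huv : u ≠ v) {x : E3} (hx : x ∈ hl (nt t v)) (hx' : x ∈ hl (nt t u)) :
    x ∈ convexHull ℝ ((nt t v : Set E3) ∩ (nt t u : Set E3)) := by
  have hp := cen_notMem' hc3 hi
  obtain ⟨a, W, ha, hW, hWv, hs, he, hb⟩ := nt_rep hc3 hv hp hx
  obtain ⟨a', W', ha', hW', hWu', hs', he', hb'⟩ := nt_rep hc3 hu hp hx'
  have h1 := hb.unique hi hb' u hu
  have h2 := hb.unique hi hb' v hv
  simp only [hWv, hWu', add_zero] at h1 h2
  have hWu : W u = 0 := by
    have := hW u hu
    have := hW' v hv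
    linarith
  have hsub : insert (cen t) ((t.erase v).erase u) ⊆ nt t v := by
    intro y hy
    rw [mem_insert] at hy
    rw [nt, mem_insert]
    rcases hy with h | h
    · exact Or.inl h
    · exact Or.inr (mem_of_mem_erase h)
  have hsub2 : ((insert (cen t) ((t.erase v).erase u) : Finset E3) : Set E3) ⊆
      (nt t v : Set E3) ∩ (nt t u : Set E3) := by
    intro y hy
    rw [mem_coe, mem_insert] at hy
    constructor
    · rw [mem_coe, nt, mem_insert]
      rcases hy with h | h
      · exact Or.inl h
      · exact Or.inr (mem_of_mem_erase h)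
    · rw [mem_coe, nt, mem_insert]
      rcases hy with h | h
      · exact Or.inl h
      · refine Or.inr (mem_erase.mpr ⟨ne_of_mem_erase h, mem_of_mem_erase (mem_of_mem_erase h)⟩)
  refine convexHull_mono hsub2 ?_
  have hpe : cen t ∉ (t.erase v).erase u := fun h => hp (mem_of_mem_erase (mem_of_mem_erase h))
  change x ∈ convexHull ℝ ((insert (cen t) ((t.erase v).erase u) : Finset E3) : Set E3)
  rw [Finset.mem_convexHull']
  have hu' : u ∈ t.erase v := mem_erase.mpr ⟨huv, hu⟩
  have hne : ∀ y ∈ (t.erase v).erase u, y ≠ cen t := by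
    rintro y hy rfl; exact hpe hy
  refine ⟨fun y => if y = cen t then a else W y, ?_, ?_, ?_⟩
  · intro y hy
    rw [mem_insert] at hy
    beta_reduce
    by_cases h : y = cen t
    · rw [if_pos h]; exact ha
    · rw [if_neg h]
      rcases hy with h' | h'
      · exact absurd h' h
      · exact hW y (mem_of_mem_erase (mem_of_mem_erase h'))
  · rw [sum_insert hpe, if_pos rfl, ← hs]
    congr 1
    rw [← add_sum_erase _ _ hv, ← add_sum_erase _ _ hu', hWv, hWu, zero_add, zero_add]
    exact sum_congr rfl fun y hy => if_neg (hne y hy)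
  · rw [sum_insert hpe]
    beta_reduce
    rw [if_pos rfl, he]
    congr 1
    rw [← add_sum_erase _ _ hv, ← add_sum_erase _ _ hu']
    simp only [hWv, hWu, zero_smul, zero_add]
    exact sum_congr rfl fun y hy => by rw [if_neg (hne y hy)]

theorem nt_indep (hc3 : t.card = 3) (hi : AffineIndependent ℝ ((↑) : t → E3)) {v : E3}
    (hv : v ∈ t) : AffineIndependent ℝ ((↑) : ((nt t v : Finset E3)) → E3) := by
  have hp := cen_notMem' hc3 hi
  have hpe : cen t ∉ t.erase v := fun h => hp (mem_of_mem_erase h)
  rw [affineIndependent_iff_of_fintype]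
  intro W hW hcomb
  rw [Finset.weightedVSub_eq_linear_combination _ hW] at hcomb
  -- extend the weights
  set w : E3 → ℝ := fun y => if hy : y ∈ nt t v then W ⟨y, hy⟩ else 0 with hw
  have hwW : ∀ y : (nt t v : Finset E3), w y = W y := by
    intro y; simp [hw]
  have s1 : ∑ y ∈ nt t v, w y = 0 := by
    rw [← hW, ← Finset.sum_coe_sort (nt t v) w]
    exact sum_congr rfl fun y _ => hwW y
  have s2 : ∑ y ∈ nt t v, w y • y = 0 := by
    rw [← hcomb, ← Finset.sum_coe_sort (nt t v) (fun y => w y • y)]
    exact sum_congr rfl fun y _ => by rw [hwW y]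
  rw [nt, sum_insert hpe] at s1 s2
  set W' : E3 → ℝ := fun y => if y = v then 0 else w y with hW'
  have e1 : ∑ y ∈ t, W' y = ∑ y ∈ t.erase v, w y := by
    rw [← add_sum_erase _ _ hv]
    simp only [hW', if_true, zero_add]
    exact sum_congr rfl fun y hy => by rw [if_neg (ne_of_mem_erase hy)]
  have e2 : ∑ y ∈ t, W' y • y = ∑ y ∈ t.erase v, w y • y := by
    rw [← add_sum_erase _ _ hv]
    simp only [hW', if_true, zero_smul, zero_add]
    exact sum_congr rfl fun y hy => by rw [if_neg (ne_of_mem_erase hy)]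
  have e3 : ∀ a : ℝ, a • cen t = (a / 3) • ∑ y ∈ t, y := by
    intro a
    rw [cen, smul_smul]
    congr 1
    ring
  have key := indep_weights hi (W := fun y => w (cen t) / 3 + W' y)
    (by
      rw [sum_add_distrib, sum_const, hc3, e1]
      simp only [nsmul_eq_mul]
      push_cast
      linarith)
    (by
      simp only [add_smul]
      rw [sum_add_distrib, ← smul_sum, e2]
      rw [e3] at s2
      exact s2)
  have k1 := key v hv
  simp only [hW', if_true, add_zero] at k1
  have hc0 : w (cen t) = 0 := by linarith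
  intro y
  rw [← hwW y]
  have hy : (y : E3) ∈ insert (cen t) (t.erase v) := y.2
  rw [mem_insert] at hy
  rcases hy with hy | hy
  · rw [hy]; exact hc0
  · have := key _ (mem_of_mem_erase hy)
    simp only [hW', if_neg (ne_of_mem_erase hy), hc0] at this
    linarith

end one

/-- the subdivided complex -/
noncomputable def st (T : Finset (Finset E3)) (t : Finset E3) : Finset (Finset E3) :=
  T.erase t ∪ t.image (nt t)

section two
variable {T : Finset (Finset E3)} {t : Finset E3}

theorem mem_st {s : Finset E3} : s ∈ st T t ↔ (s ≠ t ∧ s ∈ T) ∨ ∃ v ∈ t, nt t v = s := by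
  simp [st]

theorem IsGeom.ind (g : IsGeom id T) {s : Finset E3} (hs : s ∈ T) :
    AffineIndependent ℝ ((↑) : s → E3) := g.indep s hs

theorem IsGeom.int (g : IsGeom id T) {s s' : Finset E3} (hs : s ∈ T) (hs' : s' ∈ T) {x : E3}
    (hx : x ∈ hl s) (hx' : x ∈ hl s') : x ∈ convexHull ℝ ((s : Set E3) ∩ (s' : Set E3)) := by
  have := g.inter s hs s' hs' ⟨by simpa using hx, by simpa using hx'⟩
  simpa using this

/-- the new vertex is not an old one -/
theorem cen_new (h : IsComb T) (g : IsGeom id T) (ht : t ∈ T) {s : Finset E3} (hs : s ∈ T) :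
    cen t ∉ s := by
  intro hm
  have hc3 := h.card3 t ht
  by_cases hst : s = t
  · subst hst; exact cen_notMem' hc3 (g.ind ht) hm
  · have h1 := g.int ht hs (cen_mem hc3) (subset_convexHull ℝ _ hm)
    obtain ⟨u, hu, hus⟩ : ∃ u ∈ t, u ∉ s := by
      by_contra hcon
      push Not at hcon
      exact hst (eq_of_subset_of_card_le hcon (by rw [hc3, h.card3 s hs])).symm
    refine cen_notMem hc3 (g.ind ht) hu (convexHull_mono ?_ h1)
    intro y hy
    rw [mem_coe, mem_erase]
    exact ⟨fun e => hus (e ▸ hy.2), hy.1⟩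

theorem old_new (h : IsComb T) (g : IsGeom id T) (ht : t ∈ T) {s : Finset E3} (hs : s ∈ T)
    (hst : s ≠ t) {v : E3} (hv : v ∈ t) {x : E3} (hx : x ∈ hl s) (hx' : x ∈ hl (nt t v)) :
    x ∈ convexHull ℝ ((s : Set E3) ∩ (nt t v : Set E3)) := by
  have hc3 := h.card3 t ht
  have hi := g.ind ht
  have h1 := g.int ht hs (nt_hull hc3 hx') hx
  obtain ⟨u, hu, hus⟩ : ∃ u ∈ t, u ∉ s := by
    by_contra hcon
    push Not at hcon
    exact hst (eq_of_subset_of_card_le hcon (by rw [hc3, h.card3 s hs])).symm
  have h2 : x ∈ hl (t.erase u) := by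
    refine convexHull_mono ?_ h1
    intro y hy
    rw [mem_coe, mem_erase]
    exact ⟨fun e => hus (e ▸ hy.2), hy.1⟩
  have h3 := nt_face hc3 hi hu hv hx' h2
  have h4 := hi.convexHull_inter (t₁ := t.erase v) (t₂ := t ∩ s) (erase_subset v t)
    inter_subset_left
  have h5 : x ∈ convexHull ℝ ((t.erase v : Finset E3) : Set E3) ∩
      convexHull ℝ ((t ∩ s : Finset E3) : Set E3) := ⟨h3, by simpa using h1⟩
  rw [← h4] at h5
  refine convexHull_mono ?_ h5
  intro y hy
  simp only [coe_inter, Set.mem_inter_iff, mem_coe] at hy ⊢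
  exact ⟨hy.2.2, by rw [nt]; exact mem_insert_of_mem hy.1⟩

theorem IsGeom.st (h : IsComb T) (g : IsGeom id T) (ht : t ∈ T) : IsGeom id (st T t) where
  indep := by
    intro s hs
    rcases mem_st.mp hs with ⟨-, hs⟩ | ⟨v, hv, rfl⟩
    · exact g.indep s hs
    · exact nt_indep (h.card3 t ht) (g.ind ht) hv
  inter := by
    have key : ∀ s ∈ Surf.st T t, ∀ s' ∈ Surf.st T t, ∀ x, x ∈ hl s → x ∈ hl s' →
        x ∈ convexHull ℝ ((s : Set E3) ∩ (s' : Set E3)) := by
      intro s hs s' hs' x hx hx'
      rcases mem_st.mp hs with ⟨hst, hs⟩ | ⟨v, hv, rfl⟩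
      · rcases mem_st.mp hs' with ⟨hst', hs'⟩ | ⟨v', hv', rfl⟩
        · exact g.int hs hs' hx hx'
        · exact old_new h g ht hs hst hv' hx hx'
      · rcases mem_st.mp hs' with ⟨hst', hs'⟩ | ⟨v', hv', rfl⟩
        · rw [Set.inter_comm]
          exact old_new h g ht hs' hst' hv hx' hx
        · by_cases hvv : v' = v
          · subst hvv
            rw [Set.inter_self]; exact hx
          · exact nt_nt (h.card3 t ht) (g.ind ht) hv' hv hvv hx hx'
    intro s hs s' hs' x hx
    simp only [Set.image_id] at hx ⊢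
    exact key s hs s' hs' x hx.1 hx.2

theorem card_nt (h : IsComb T) (g : IsGeom id T) (ht : t ∈ T) {v : E3} (hv : v ∈ t) :
    (nt t v).card = 3 := by
  have hp := cen_new h g ht ht
  rw [nt, card_insert_of_notMem (fun e => hp (mem_of_mem_erase e)), card_erase_of_mem hv,
    h.card3 t ht]

theorem nt_inj (hp : cen t ∉ t) {u v : E3} (hu : u ∈ t) (he : nt t u = nt t v) : u = v := by
  by_contra hne
  have : u ∈ nt t v := by
    rw [nt, mem_insert, mem_erase]; exact Or.inr ⟨hne, hu⟩
  rw [← he, nt, mem_insert] at this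
  rcases this with h | h
  · exact hp (h ▸ hu)
  · exact notMem_erase u t h

theorem IsComb.st (h : IsComb T) (g : IsGeom id T) (ht : t ∈ T) : IsComb (st T t) where
  nonempty := by
    obtain ⟨v, hv⟩ := card_pos.mp (show 0 < t.card by rw [h.card3 t ht]; norm_num)
    exact ⟨nt t v, mem_st.mpr (Or.inr ⟨v, hv, rfl⟩)⟩
  card3 := by
    intro s hs
    rcases mem_st.mp hs with ⟨-, hs⟩ | ⟨v, hv, rfl⟩
    · exact h.card3 s hs
    · exact card_nt h g ht hv
  two := by
    have hc3 := h.card3 t ht
    have hpt : cen t ∉ t := cen_new h g ht ht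
    intro s hs w hw
    rcases mem_st.mp hs with ⟨hst, hs⟩ | ⟨v, hv, rfl⟩
    · -- an old triangle
      have hps : cen t ∉ s := cen_new h g ht hs
      obtain ⟨v', hv', hT, hu⟩ := h.two s hs w hw
      -- when a new triangle appears
      have hnew : ∀ w2, w2 ∉ s → ∀ v ∈ t, nt t v = insert w2 (s.erase w) →
          w2 = cen t ∧ v = v' ∧ insert v' (s.erase w) = t := by
        intro w2 hw2 v hv he
        have h1 : cen t ∈ insert w2 (s.erase w) := by rw [← he, nt]; exact mem_insert_self _ _
        have h2 : w2 = cen t := by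
          rcases mem_insert.mp h1 with e | e
          · exact e.symm
          · exact absurd (mem_of_mem_erase e) hps
        subst h2
        have h3 : s.erase w = t.erase v := by
          have a1 : (insert (cen t) (s.erase w)).erase (cen t) = s.erase w :=
            erase_insert (fun e => hps (mem_of_mem_erase e))
          have a2 : (nt t v).erase (cen t) = t.erase v := by
            rw [nt]; exact erase_insert (fun e => hpt (mem_of_mem_erase e))
          rw [← a1, ← he, a2]
        have h4 : insert v (s.erase w) = t := by rw [h3, insert_erase hv]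
        have h5 : v ∉ s := by
          intro hvs
          have : v = w := by
            by_contra hne
            have : v ∈ s.erase w := mem_erase.mpr ⟨hne, hvs⟩
            rw [h3] at this
            exact notMem_erase v t this
          subst this
          rw [insert_erase hvs] at h4
          exact hst h4
        have h6 := hu v h5 (by rw [h4]; exact ht)
        exact ⟨rfl, h6, by rw [← h6]; exact h4⟩
      by_cases hs't : insert v' (s.erase w) = t
      · refine ⟨cen t, hps, ?_, ?_⟩
        · refine mem_st.mpr (Or.inr ⟨v', by rw [← hs't]; exact mem_insert_self _ _, ?_⟩)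
          have : t.erase v' = s.erase w := by
            rw [← hs't, erase_insert (fun e => hv' (mem_of_mem_erase e))]
          rw [nt, this]
        · intro w2 hw2 hm
          rcases mem_st.mp hm with ⟨h1, h2⟩ | ⟨v, hv, he⟩
          · have := hu w2 hw2 h2
            rw [this] at h1
            exact absurd hs't h1
          · exact (hnew w2 hw2 v hv he).1
      · refine ⟨v', hv', mem_st.mpr (Or.inl ⟨hs't, hT⟩), ?_⟩
        intro w2 hw2 hm
        rcases mem_st.mp hm with ⟨h1, h2⟩ | ⟨v, hv, he⟩
        · exact hu w2 hw2 h2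
        · exact absurd (hnew w2 hw2 v hv he).2.2 hs't
    · -- a new triangle
      have hpe : cen t ∉ t.erase v := fun e => hpt (mem_of_mem_erase e)
      have hw' := hw
      rw [nt, mem_insert] at hw'
      rcases hw' with rfl | hw'
      · -- removing the new vertex
        have e1 : (nt t v).erase (cen t) = t.erase v := by rw [nt]; exact erase_insert hpe
        rw [e1]
        obtain ⟨v', hv', hT, hu⟩ := h.two t ht v hv
        refine ⟨v', ?_, mem_st.mpr (Or.inl ⟨?_, hT⟩), ?_⟩
        · rw [nt, mem_insert, not_or]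
          refine ⟨?_, fun e => hv' (mem_of_mem_erase e)⟩
          rintro rfl
          exact cen_new h g ht hT (mem_insert_self _ _)
        · intro e
          exact hv' (by rw [← e]; exact mem_insert_self _ _)
        · intro w2 hw2 hm
          rw [nt, mem_insert, not_or] at hw2
          rcases mem_st.mp hm with ⟨h1, h2⟩ | ⟨u, hu', he⟩
          · refine hu w2 (fun hw2t => ?_) h2
            have : w2 = v := by
              by_contra hne
              exact hw2.2 (mem_erase.mpr ⟨hne, hw2t⟩)
            rw [this, insert_erase hv] at h1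
            exact h1 rfl
          · have : cen t ∈ insert w2 (t.erase v) := by rw [← he, nt]; exact mem_insert_self _ _
            rcases mem_insert.mp this with e | e
            · exact absurd e.symm hw2.1
            · exact absurd e hpe
      · -- removing an old vertex
        have hwt := mem_of_mem_erase hw'
        have hwv := ne_of_mem_erase hw'
        have hwp : w ≠ cen t := fun e => hpt (e ▸ hwt)
        have e1 : (nt t v).erase w = insert (cen t) ((t.erase v).erase w) := by
          rw [nt, erase_insert_of_ne (Ne.symm hwp)]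
        rw [e1]
        have e2 : insert v (insert (cen t) ((t.erase v).erase w)) = nt t w := by
          rw [insert_comm, nt]
          congr 1
          rw [erase_right_comm, insert_erase (mem_erase.mpr ⟨hwv.symm, hv⟩)]
        refine ⟨v, ?_, ?_, ?_⟩
        · rw [nt, mem_insert, not_or]
          exact ⟨fun e => hpt (e ▸ hv), notMem_erase v t⟩
        · rw [e2]
          exact mem_st.mpr (Or.inr ⟨w, hwt, rfl⟩)
        · intro w2 hw2 hm
          rw [nt, mem_insert, not_or] at hw2
          rcases mem_st.mp hm with ⟨h1, h2⟩ | ⟨u, hu', he⟩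
          · exact absurd (mem_insert_of_mem (mem_insert_self _ _)) (cen_new h g ht h2)
          · have h3 : w2 ∈ nt t u := by rw [he]; exact mem_insert_self _ _
            rw [nt, mem_insert] at h3
            rcases h3 with e | e
            · exact absurd e hw2.1
            · by_contra hne
              exact hw2.2 (mem_erase.mpr ⟨hne, mem_of_mem_erase e⟩)
  link := by
    have hc3 := h.card3 t ht
    have hpt : cen t ∉ t := cen_new h g ht ht
    -- a third vertex
    have third : ∀ a b : E3, ∃ v ∈ t, v ≠ a ∧ v ≠ b := by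
      intro a b
      by_contra hcon
      push Not at hcon
      have : t ⊆ {a, b} := by
        intro v hv
        rw [mem_insert, mem_singleton]
        by_cases hva : v = a
        · exact Or.inl hva
        · exact Or.inr (hcon v hv hva)
      have := card_le_card this
      have := card_le_two (a := a) (b := b)
      omega
    intro x a b ha hb
    by_cases hxp : x = cen t
    · subst hxp
      have mem_t : ∀ a, LA (Surf.st T t) (cen t) a a → a ∈ t := by
        rintro a ⟨s, hs, h1, h2, -, h3, -⟩
        rcases mem_st.mp hs with ⟨-, hs⟩ | ⟨v, hv, rfl⟩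
        · exact absurd h1 (cen_new h g ht hs)
        · rw [nt, mem_insert] at h2
          rcases h2 with e | e
          · exact absurd e h3
          · exact mem_of_mem_erase e
      have hat := mem_t a ha
      have hbt := mem_t b hb
      obtain ⟨v, hv, hva, hvb⟩ := third a b
      apply ReflTransGen.single
      refine ⟨nt t v, mem_st.mpr (Or.inr ⟨v, hv, rfl⟩), ?_, ?_, ?_, ?_, ?_⟩
      · rw [nt]; exact mem_insert_self _ _
      · rw [nt]; exact mem_insert_of_mem (mem_erase.mpr ⟨hva.symm, hat⟩)
      · rw [nt]; exact mem_insert_of_mem (mem_erase.mpr ⟨hvb.symm, hbt⟩)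
      · rintro rfl; exact hpt hat
      · rintro rfl; exact hpt hbt
    · -- old links
      have old : ∀ a b, LA T x a b → ReflTransGen (LA (Surf.st T t) x) a b := by
        rintro a b ⟨s, hs, h1, h2, h3, h4, h5⟩
        by_cases hst : s = t
        · subst hst
          by_cases hab : a = b
          · subst hab; exact ReflTransGen.refl
          · have hap : a ≠ cen s := by rintro rfl; exact hpt h2
            have hbp : b ≠ cen s := by rintro rfl; exact hpt h3
            refine (ReflTransGen.single (b := cen s) ?_).trans (ReflTransGen.single ?_)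
            · refine ⟨nt s b, mem_st.mpr (Or.inr ⟨b, h3, rfl⟩), ?_, ?_, ?_, h4, fun e => hxp e.symm⟩
              · rw [nt]; exact mem_insert_of_mem (mem_erase.mpr ⟨h5.symm, h1⟩)
              · rw [nt]; exact mem_insert_of_mem (mem_erase.mpr ⟨hab, h2⟩)
              · rw [nt]; exact mem_insert_self _ _
            · refine ⟨nt s a, mem_st.mpr (Or.inr ⟨a, h2, rfl⟩), ?_, ?_, ?_, fun e => hxp e.symm, h5⟩
              · rw [nt]; exact mem_insert_of_mem (mem_erase.mpr ⟨h4.symm, h1⟩)
              · rw [nt]; exact mem_insert_self _ _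
              · rw [nt]; exact mem_insert_of_mem (mem_erase.mpr ⟨Ne.symm hab, h3⟩)
        · exact ReflTransGen.single ⟨s, mem_st.mpr (Or.inl ⟨hst, hs⟩), h1, h2, h3, h4, h5⟩
      have old' : ∀ a b, ReflTransGen (LA T x) a b → ReflTransGen (LA (Surf.st T t) x) a b := by
        intro a b hab
        induction hab with
        | refl => exact ReflTransGen.refl
        | tail _ hcd ih => exact ih.trans (old _ _ hcd)
      -- every member of the new link is adjacent to an old one
      have red : ∀ a, LA (Surf.st T t) x a a → ∃ a', LA T x a' a' ∧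
          ReflTransGen (LA (Surf.st T t) x) a a' ∧ ReflTransGen (LA (Surf.st T t) x) a' a := by
        rintro a ⟨s, hs, h1, h2, -, h4, -⟩
        rcases mem_st.mp hs with ⟨hst, hs'⟩ | ⟨v, hv, rfl⟩
        · exact ⟨a, ⟨s, hs', h1, h2, h2, h4, h4⟩, ReflTransGen.refl, ReflTransGen.refl⟩
        · have h1' := h1
          rw [nt, mem_insert] at h1'
          have hxt : x ∈ t.erase v := h1'.resolve_left hxp
          have h2' := h2
          rw [nt, mem_insert] at h2'
          rcases h2' with e | e
          · subst e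
            obtain ⟨c, hc, hcx, hcv⟩ := third x v
            have hcp : c ∈ nt t v := by
              rw [nt]; exact mem_insert_of_mem (mem_erase.mpr ⟨hcv, hc⟩)
            refine ⟨c, ⟨t, ht, mem_of_mem_erase hxt, hc, hc, hcx, hcx⟩, ?_, ?_⟩
            · exact ReflTransGen.single ⟨nt t v, hs, h1, h2, hcp, h4, hcx⟩
            · exact ReflTransGen.single ⟨nt t v, hs, h1, hcp, h2, hcx, h4⟩
          · exact ⟨a, ⟨t, ht, mem_of_mem_erase hxt, mem_of_mem_erase e, mem_of_mem_erase e, h4, h4⟩,
              ReflTransGen.refl, ReflTransGen.refl⟩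
      obtain ⟨a', ha', ra, -⟩ := red a ha
      obtain ⟨b', hb', -, rb⟩ := red b hb
      exact ra.trans ((old' _ _ (h.link x a' b' ha' hb')).trans rb)
  conn := by
    have hc3 := h.card3 t ht
    have hpt : cen t ∉ t := cen_new h g ht ht
    have third : ∀ a b : E3, ∃ v ∈ t, v ≠ a ∧ v ≠ b := by
      intro a b
      by_contra hcon
      push Not at hcon
      have : t ⊆ {a, b} := by
        intro v hv
        rw [mem_insert, mem_singleton]
        by_cases hva : v = a
        · exact Or.inl hva
        · exact Or.inr (hcon v hv hva)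
      have := card_le_card this
      have := card_le_two (a := a) (b := b)
      omega
    have old : ∀ a b, GA T a b → ReflTransGen (GA (Surf.st T t)) a b := by
      rintro a b ⟨s, hs, h1, h2⟩
      by_cases hst : s = t
      · subst hst
        obtain ⟨v, hv, hva, hvb⟩ := third a b
        refine ReflTransGen.single ⟨nt s v, mem_st.mpr (Or.inr ⟨v, hv, rfl⟩), ?_, ?_⟩
        · rw [nt]; exact mem_insert_of_mem (mem_erase.mpr ⟨hva.symm, h1⟩)
        · rw [nt]; exact mem_insert_of_mem (mem_erase.mpr ⟨hvb.symm, h2⟩)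
      · exact ReflTransGen.single ⟨s, mem_st.mpr (Or.inl ⟨hst, hs⟩), h1, h2⟩
    have old' : ∀ a b, ReflTransGen (GA T) a b → ReflTransGen (GA (Surf.st T t)) a b := by
      intro a b hab
      induction hab with
      | refl => exact ReflTransGen.refl
      | tail _ hcd ih => exact ih.trans (old _ _ hcd)
    have red : ∀ a, GA (Surf.st T t) a a → ∃ a', GA T a' a' ∧
        ReflTransGen (GA (Surf.st T t)) a a' ∧ ReflTransGen (GA (Surf.st T t)) a' a := by
      rintro a ⟨s, hs, h1, -⟩
      rcases mem_st.mp hs with ⟨hst, hs'⟩ | ⟨v, hv, rfl⟩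
      · exact ⟨a, ⟨s, hs', h1, h1⟩, ReflTransGen.refl, ReflTransGen.refl⟩
      · obtain ⟨c, hc, -, hcv⟩ := third v v
        have hcp : c ∈ nt t v := by
          rw [nt]; exact mem_insert_of_mem (mem_erase.mpr ⟨hcv, hc⟩)
        exact ⟨c, ⟨t, ht, hc, hc⟩, ReflTransGen.single ⟨nt t v, hs, h1, hcp⟩,
          ReflTransGen.single ⟨nt t v, hs, hcp, h1⟩⟩
    intro a b ha hb
    obtain ⟨a', ha', ra, -⟩ := red a ha
    obtain ⟨b', hb', -, rb⟩ := red b hb
    exact ra.trans ((old' _ _ (h.conn a' b' ha' hb')).trans rb)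

theorem card_st (h : IsComb T) (g : IsGeom id T) (ht : t ∈ T) :
    (st T t).card = T.card + 2 := by
  have hpt : cen t ∉ t := cen_new h g ht ht
  have hpos : 0 < T.card := card_pos.mpr ⟨t, ht⟩
  rw [st, card_union_of_disjoint, card_erase_of_mem ht, card_image_of_injOn, h.card3 t ht]
  · omega
  · intro u hu v _ he
    exact nt_inj hpt hu he
  · rw [disjoint_left]
    intro s hs hs'
    obtain ⟨v, hv, rfl⟩ := Finset.mem_image.mp hs'
    exact cen_new h g ht (mem_of_mem_erase hs) (by rw [nt]; exact mem_insert_self _ _)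

theorem verts_st (h : IsComb T) (g : IsGeom id T) (ht : t ∈ T) :
    ((st T t).biUnion id).card = (T.biUnion id).card + 1 := by
  have hc3 := h.card3 t ht
  have hpn : cen t ∉ T.biUnion id := by
    intro hm
    obtain ⟨s, hs, hps⟩ := mem_biUnion.mp hm
    exact cen_new h g ht hs hps
  rw [← card_insert_of_notMem hpn]
  congr 1
  ext x
  rw [mem_insert, mem_biUnion, mem_biUnion]
  constructor
  · rintro ⟨s, hs, hx⟩
    rcases mem_st.mp hs with ⟨-, hs⟩ | ⟨v, hv, rfl⟩
    · exact Or.inr ⟨s, hs, hx⟩
    · simp only [id, nt, mem_insert] at hx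
      rcases hx with e | e
      · exact Or.inl e
      · exact Or.inr ⟨t, ht, mem_of_mem_erase e⟩
  · rintro (rfl | ⟨s, hs, hx⟩)
    · obtain ⟨v, hv⟩ := card_pos.mp (show 0 < t.card by omega)
      exact ⟨nt t v, mem_st.mpr (Or.inr ⟨v, hv, rfl⟩), by simp only [id, nt]; exact mem_insert_self _ _⟩
    · by_cases hst : s = t
      · subst hst
        obtain ⟨v, hv, hvx⟩ := exists_mem_ne (show 1 < s.card by omega) x
        refine ⟨nt s v, mem_st.mpr (Or.inr ⟨v, hv, rfl⟩), ?_⟩
        simp only [id, nt]
        exact mem_insert_of_mem (mem_erase.mpr ⟨hvx.symm, hx⟩)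
      · exact ⟨s, mem_st.mpr (Or.inl ⟨hst, hs⟩), hx⟩

end two

/-- adding any number of vertices -/
theorem pad {T : Finset (Finset E3)} (h : IsComb T) (g : IsGeom id T) (r : ℕ) :
    ∃ T' : Finset (Finset E3), IsComb T' ∧ IsGeom id T' ∧
      (T'.biUnion id).card = (T.biUnion id).card + r ∧ T.card ≤ T'.card := by
  induction r with
  | zero => exact ⟨T, h, g, rfl, le_rfl⟩
  | succ r ih =>
    obtain ⟨T', h', g', h1, h2⟩ := ih
    obtain ⟨t, ht⟩ := h'.nonempty
    refine ⟨st T' t, h'.st g' ht, g'.st h' ht, ?_, ?_⟩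
    · rw [verts_st h' g' ht, h1]; ring
    · rw [card_st h' g' ht]; omega

end Pool.Agent.Helper40.Surf
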