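import Mathlib
import Pool.Agent.Helper40.Surf.Complex
import Pool.Agent.Helper40.Surf.Stellar
set_option autoImplicit false

/-!
# Quadratically many edges: from a family of surfaces to all numbers of vertices
-/

namespace Pool.Agent.Helper40.Surf

open Finset
open Classical

/-- If for every `N ≥ 1` there is an embedded closed surface with at most `6 N` vertices and at least `4 N ^ 2` triangles,
then for all `n ≥ 6` there is one with exactly `n` vertices and at least `n ^ 2 / 24` edges. -/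
theorem quad_main {V : Type} [DecidableEq V] {T : ℕ → Finset (Finset V)} {pos : ℕ → V → E3}
    (hc : ∀ N, 1 ≤ N → IsComb (T N)) (hg : ∀ N, 1 ≤ N → IsGeom (pos N) (T N))
    (hcard : ∀ N, 1 ≤ N → 4 * N ^ 2 ≤ (T N).card)
    (hv : ∀ N, 1 ≤ N → ((T N).biUnion id).card ≤ 6 * N) :
  ∃ c : ℝ, 0 < c ∧ ∃ N : ℕ, ∀ n : ℕ, N ≤ n →
    ∃ K : Geometry.SimplicialComplex ℝ (EuclideanSpace ℝ (Fin 3)),
      K.faces.Finite ∧
      (∀ s ∈ K.faces, s.card ≤ 3) ∧
      (∀ s ∈ K.faces, ∃ t ∈ K.faces, s ⊆ t ∧ t.card = 3) ∧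
      (∀ e ∈ K.faces, e.card = 2 →
        {t : Finset (EuclideanSpace ℝ (Fin 3)) | t ∈ K.faces ∧ e ⊆ t ∧ t.card = 3}.ncard = 2) ∧
      (∀ v : EuclideanSpace ℝ (Fin 3), ({v} : Finset (EuclideanSpace ℝ (Fin 3))) ∈ K.faces →
        (SimpleGraph.fromRel
          (fun a b : {a : EuclideanSpace ℝ (Fin 3) //
              a ≠ v ∧ ({v, a} : Finset (EuclideanSpace ℝ (Fin 3))) ∈ K.faces} =>
            ({v, a.1, b.1} : Finset (EuclideanSpace ℝ (Fin 3))) ∈ K.faces)).Connected) ∧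
      (SimpleGraph.fromRel
          (fun a b : {x : EuclideanSpace ℝ (Fin 3) //
              ({x} : Finset (EuclideanSpace ℝ (Fin 3))) ∈ K.faces} =>
            ({a.1, b.1} : Finset (EuclideanSpace ℝ (Fin 3))) ∈ K.faces)).Connected ∧
      {x : EuclideanSpace ℝ (Fin 3) |
          ({x} : Finset (EuclideanSpace ℝ (Fin 3))) ∈ K.faces}.ncard = n ∧
      c * (n : ℝ) ^ 2 ≤
        (({s : Finset (EuclideanSpace ℝ (Fin 3)) | s ∈ K.faces ∧ s.card = 2}.ncard : ℕ) : ℝ) := by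
  refine ⟨1 / 24, by norm_num, 6, fun n hn => ?_⟩
  set m := n / 6 with hm
  have hm1 : 1 ≤ m := by omega
  have hn1 : 6 * m ≤ n := by omega
  have hn2 : n < 12 * m := by omega
  have hc' := (hc m hm1).img (hg m hm1)
  have hg' := (hg m hm1).img
  have hvv : ((img (pos m) (T m)).biUnion id).card ≤ n :=
    (card_verts_img.trans (hv m hm1)).trans hn1
  obtain ⟨T', h1, h2, h3, h4⟩ := pad hc' hg' (n - ((img (pos m) (T m)).biUnion id).card)
  obtain ⟨C, k1, k2, k3, k4, k5, k6, k7, k8⟩ := exists_complex h1 h2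
  refine ⟨C, k1, k2, k3, k4, k5, k6, ?_, ?_⟩
  · rw [k7, h3]; omega
  · have e1 : 4 * m ^ 2 ≤ T'.card :=
      (hcard m hm1).trans (le_trans (card_img (hc m hm1) (hg m hm1)).ge h4)
    have e2 : 6 * m ^ 2 ≤
        {s : Finset (EuclideanSpace ℝ (Fin 3)) | s ∈ C.faces ∧ s.card = 2}.ncard := by omega
    have e3 : (6 * (m : ℝ) ^ 2) ≤
        (({s : Finset (EuclideanSpace ℝ (Fin 3)) | s ∈ C.faces ∧ s.card = 2}.ncard : ℕ) : ℝ) := by
      exact_mod_cast e2
    refine le_trans ?_ e3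
    have hnR : (n : ℝ) ≤ 12 * m := by exact_mod_cast hn2.le
    have hn0 : (0 : ℝ) ≤ n := Nat.cast_nonneg n
    nlinarith

end Pool.Agent.Helper40.Surf
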